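import Pool.Agent.Hhelper63.Anosov.Line

/-!
Singular values: the gap condition, and the min-max estimates.
-/

namespace Pool.Agent.Hhelper63.Anosov

open scoped InnerProductSpace
open Module

variable {E : Type*} [NormedAddCommGroup E] [InnerProductSpace ℂ E] [FiniteDimensional ℂ E]
  (T : E →ₗ[ℂ] E) {n : ℕ} (hn : finrank ℂ E = n)

/-- the orthonormal basis of right singular vectors -/
noncomputable def svb : OrthonormalBasis (Fin n) ℂ E :=
  T.isSymmetric_adjoint_comp_self.eigenvectorBasis hn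

theorem inner_map_svb (i : Fin n) (x : E) :
    ⟪T (svb T hn i), T x⟫_ℂ = ((T.singularValues i : ℝ) : ℂ) ^ 2 * ⟪svb T hn i, x⟫_ℂ := by
  have h1 : (LinearMap.adjoint T ∘ₗ T) (svb T hn i) =
      ((T.isSymmetric_adjoint_comp_self.eigenvalues hn i : ℝ) : ℂ) • svb T hn i :=
    T.isSymmetric_adjoint_comp_self.apply_eigenvectorBasis hn i
  have h2 : ⟪T (svb T hn i), T x⟫_ℂ = ⟪(LinearMap.adjoint T ∘ₗ T) (svb T hn i), x⟫_ℂ := by
    rw [LinearMap.comp_apply, LinearMap.adjoint_inner_left]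
  rw [h2, h1, inner_smul_left, Complex.conj_ofReal, ← T.sq_singularValues_fin hn i]
  push_cast
  rfl

theorem norm_map_sq (x : E) :
    ‖T x‖ ^ 2 = ∑ i : Fin n, (T.singularValues i) ^ 2 * ‖⟪svb T hn i, x⟫_ℂ‖ ^ 2 := by
  have h1 : ((‖T x‖ ^ 2 : ℝ) : ℂ) = ⟪T x, T x⟫_ℂ := by
    rw [inner_self_eq_norm_sq_to_K]
    push_cast
    rfl
  have h2 : T x = ∑ i : Fin n, ⟪svb T hn i, x⟫_ℂ • T (svb T hn i) := by
    conv_lhs => rw [← (svb T hn).sum_repr' x]
    rw [map_sum]
    apply Finset.sum_congr rfl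
    intro i _
    rw [map_smul]
  have h3 : ⟪T x, T x⟫_ℂ = ∑ i : Fin n, (((T.singularValues i) ^ 2 *
      ‖⟪svb T hn i, x⟫_ℂ‖ ^ 2 : ℝ) : ℂ) := by
    have h4 : ⟪T x, T x⟫_ℂ = ⟪∑ i : Fin n, ⟪svb T hn i, x⟫_ℂ • T (svb T hn i), T x⟫_ℂ := by
      rw [← h2]
    rw [h4, sum_inner]
    apply Finset.sum_congr rfl
    intro i _
    rw [inner_smul_left, inner_map_svb]
    have : (starRingEnd ℂ) ⟪svb T hn i, x⟫_ℂ * ⟪svb T hn i, x⟫_ℂ =
        ((‖⟪svb T hn i, x⟫_ℂ‖ ^ 2 : ℝ) : ℂ) := by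
      rw [mul_comm, Complex.mul_conj, Complex.normSq_eq_norm_sq]
    push_cast at this ⊢
    rw [← this]
    ring
  rw [← Complex.ofReal_sum] at h3
  rw [h3] at h1
  exact_mod_cast h1

theorem norm_sq_svb (x : E) : ‖x‖ ^ 2 = ∑ i : Fin n, ‖⟪svb T hn i, x⟫_ℂ‖ ^ 2 :=
  ((svb T hn).sum_sq_norm_inner_right x).symm

theorem norm_map_le_of_orthogonal {k : ℕ} {x : E}
    (hx : ∀ i : Fin n, (i : ℕ) < k → ⟪svb T hn i, x⟫_ℂ = 0) :
    ‖T x‖ ≤ T.singularValues k * ‖x‖ := by
  have h0 := T.singularValues_nonneg k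
  refine le_of_sq_le_sq ?_ (by positivity)
  rw [mul_pow, norm_map_sq T hn, norm_sq_svb T hn, Finset.mul_sum]
  apply Finset.sum_le_sum
  intro i _
  by_cases hi : (i : ℕ) < k
  · rw [hx i hi]
    simp
  · have h1 : T.singularValues i ≤ T.singularValues k := T.singularValues_antitone (not_lt.1 hi)
    have h2 := T.singularValues_nonneg i
    gcongr

theorem le_norm_map_of_orthogonal {k : ℕ} {x : E}
    (hx : ∀ i : Fin n, k < (i : ℕ) → ⟪svb T hn i, x⟫_ℂ = 0) :
    T.singularValues k * ‖x‖ ≤ ‖T x‖ := by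
  have h0 := T.singularValues_nonneg k
  refine le_of_sq_le_sq ?_ (by positivity)
  rw [mul_pow, norm_map_sq T hn, norm_sq_svb T hn, Finset.mul_sum]
  apply Finset.sum_le_sum
  intro i _
  by_cases hi : k < (i : ℕ)
  · rw [hx i hi]
    simp
  · have h1 : T.singularValues k ≤ T.singularValues i := T.singularValues_antitone (not_lt.1 hi)
    gcongr

/-- in a subspace of dimension more than the number of conditions there is a nonzero vector
orthogonal to the given vectors -/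
theorem exists_orthogonal {ι : Type*} [Fintype ι] (b : ι → E) (W : Submodule ℂ E)
    (h : Fintype.card ι < finrank ℂ W) : ∃ x ∈ W, x ≠ 0 ∧ ∀ i, ⟪b i, x⟫_ℂ = 0 := by
  let f : W →ₗ[ℂ] (ι → ℂ) := LinearMap.pi fun i => (innerₛₗ ℂ (b i)).comp W.subtype
  have h1 : LinearMap.ker f ≠ ⊥ := by
    apply LinearMap.ker_ne_bot_of_finrank_lt
    simpa using h
  obtain ⟨x, hx, hx0⟩ := (Submodule.ne_bot_iff _).1 h1
  refine ⟨x, x.2, by simpa using hx0, fun i => ?_⟩
  have := congrFun (LinearMap.mem_ker.1 hx) i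
  simpa [f] using this

theorem le_singularValue {k : ℕ} (W : Submodule ℂ E) (hW : k < finrank ℂ W)
    {m : ℝ} (hm : ∀ x ∈ W, m * ‖x‖ ≤ ‖T x‖) : m ≤ T.singularValues k := by
  obtain ⟨x, hxW, hx0, hx⟩ := exists_orthogonal
    (fun i : {i : Fin (finrank ℂ E) // (i : ℕ) < k} => svb T rfl i.1) W (by
      refine lt_of_le_of_lt ?_ hW
      have hinj : Function.Injective
          (fun i : {i : Fin (finrank ℂ E) // (i : ℕ) < k} => (⟨i.1.1, i.2⟩ : Fin k)) := by
        intro i j hij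
        have h1 := congrArg Fin.val hij
        have : i.1.1 = j.1.1 := h1
        exact Subtype.ext (Fin.ext this)
      simpa using Fintype.card_le_of_injective _ hinj)
  have h1 := norm_map_le_of_orthogonal T rfl (k := k) (x := x) fun i hi => hx ⟨i, hi⟩
  have h2 := hm x hxW
  have h3 : 0 < ‖x‖ := norm_pos_iff.2 hx0
  exact le_of_mul_le_mul_right (h2.trans h1) h3

theorem singularValue_le {k : ℕ} (W : Submodule ℂ E) (hk : k < finrank ℂ E)
    (hW : finrank ℂ E ≤ finrank ℂ W + k)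
    {m : ℝ} (hm : ∀ x ∈ W, ‖T x‖ ≤ m * ‖x‖) : T.singularValues k ≤ m := by
  obtain ⟨x, hxW, hx0, hx⟩ := exists_orthogonal
    (fun i : {i : Fin (finrank ℂ E) // k < (i : ℕ)} => svb T rfl i.1) W (by
      have hinj : Function.Injective
          (fun i : {i : Fin (finrank ℂ E) // k < (i : ℕ)} =>
            (⟨i.1.1 - (k + 1), by
              have h1 := i.1.2
              have h2 := i.2
              omega⟩ : Fin (finrank ℂ E - (k + 1)))) := by
        intro i j hij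
        have h0 := congrArg Fin.val hij
        have h1 : i.1.1 - (k + 1) = j.1.1 - (k + 1) := h0
        have h2 := i.2
        have h3 := j.2
        exact Subtype.ext (Fin.ext (by omega))
      have := Fintype.card_le_of_injective _ hinj
      rw [Fintype.card_fin] at this
      omega)
  have h1 := le_norm_map_of_orthogonal T rfl (k := k) (x := x) fun i hi => hx ⟨i, hi⟩
  have h2 := hm x hxW
  have h3 : 0 < ‖x‖ := norm_pos_iff.2 hx0
  exact le_of_mul_le_mul_right (h1.trans h2) h3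

/-- The gap condition from the ratio of the first two singular values. -/
theorem gapLe_of_singularValues (B : E →L[ℂ] E) (hE : 0 < finrank ℂ E)
    (h0 : 0 < (B : E →ₗ[ℂ] E).singularValues 0) {ε : ℝ}
    (h : (B : E →ₗ[ℂ] E).singularValues 1 ≤ ε * (B : E →ₗ[ℂ] E).singularValues 0) :
    GapLe B ε := by
  set T : E →ₗ[ℂ] E := (B : E →ₗ[ℂ] E) with hT
  set b := svb T rfl with hb
  set i₀ : Fin (finrank ℂ E) := ⟨0, hE⟩ with hi₀
  have hTB : ∀ x, T x = B x := fun x => rfl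
  have hnorm : ‖T (b i₀)‖ = T.singularValues 0 := by
    have h1 := norm_map_sq T rfl (b i₀)
    rw [Finset.sum_eq_single i₀] at h1
    · rw [← hb, OrthonormalBasis.inner_eq_one] at h1
      simp only [norm_one, one_pow, mul_one] at h1
      exact (sq_eq_sq₀ (norm_nonneg _) (T.singularValues_nonneg _)).1 h1
    · intro j _ hj
      rw [← hb, (b.orthonormal).2 hj]
      simp
    · intro hcon
      exact absurd (Finset.mem_univ _) hcon
  have hσle : T.singularValues 0 ≤ ‖B‖ := by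
    rw [← hnorm, hTB]
    calc ‖B (b i₀)‖ ≤ ‖B‖ * ‖b i₀‖ := B.le_opNorm _
      _ = ‖B‖ := by rw [b.norm_eq_one, mul_one]
  set u : E := (((T.singularValues 0)⁻¹ : ℝ) : ℂ) • T (b i₀) with hu
  have hun : ‖u‖ = 1 := by
    rw [hu, norm_smul, Complex.norm_real, norm_inv, Real.norm_of_nonneg h0.le, hnorm,
      inv_mul_cancel₀ h0.ne']
  refine ⟨u, hun, fun x => ?_⟩
  have h1 : ⟪u, B x⟫_ℂ • u = ⟪b i₀, x⟫_ℂ • T (b i₀) := by
    rw [hu, inner_smul_left, Complex.conj_ofReal, ← hTB, inner_map_svb, smul_smul]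
    congr 1
    have hs : ((T.singularValues (i₀ : ℕ) : ℝ) : ℂ) ≠ 0 := by
      exact_mod_cast h0.ne'
    have hs' : T.singularValues 0 = T.singularValues (i₀ : ℕ) := rfl
    rw [hs']
    push_cast
    field_simp
    rfl
  have h2 : B x - ⟪u, B x⟫_ℂ • u = T (x - ⟪b i₀, x⟫_ℂ • b i₀) := by
    rw [h1, map_sub, map_smul]
    rfl
  have h3 : ‖T (x - ⟪b i₀, x⟫_ℂ • b i₀)‖ ≤
      T.singularValues 1 * ‖x - ⟪b i₀, x⟫_ℂ • b i₀‖ := by
    apply norm_map_le_of_orthogonal T rfl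
    intro i hi
    have : i = i₀ := by
      apply Fin.ext
      simp only [hi₀]
      omega
    rw [this]
    exact inner_perp (b.norm_eq_one i₀) x
  have h4 : ‖x - ⟪b i₀, x⟫_ℂ • b i₀‖ ≤ ‖x‖ := S_le_norm (b.norm_eq_one i₀) x
  unfold S
  rw [h2]
  have hs1 := T.singularValues_nonneg 1
  have hε : 0 ≤ ε := by
    by_contra hcon
    push Not at hcon
    nlinarith
  calc ‖T (x - ⟪b i₀, x⟫_ℂ • b i₀)‖ ≤ T.singularValues 1 * ‖x‖ := h3.trans (by gcongr)
    _ ≤ (ε * T.singularValues 0) * ‖x‖ := by gcongr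
    _ ≤ ε * ‖B‖ * ‖x‖ := by gcongr

end Pool.Agent.Hhelper63.Anosov
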