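import Pool.Agent.Hhelper63.Anosov.Setup

/-!
Separation of `ρ₃` and `ρ₂ ⊕ ρ₁` in the space of Anosov representations.
-/

namespace Pool.Agent.Hhelper63.Anosov

open scoped InnerProductSpace Pointwise Topology
open Matrix
open Pool.Agent.Hhelper67.Anosov (sv wordLen IsAnosov anosovSet rho3 rho21 sym2 block toC)

section Weight

variable {Γ : Type*} [Group Γ] (F : FlowData Γ SL2)
  {V : Type*} [NormedAddCommGroup V] [InnerProductSpace ℂ V]

/-- Top vectors of representations which factor through `SL(2, ℝ)`. -/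
theorem FlowData.isTop_of_weight [FiniteDimensional ℂ V] [Nontrivial V]
    (τ : SL2 →* (V →L[ℂ] V)) (hτ : Continuous τ) {e : V} (he : e ≠ 0) {μ C : ℝ} (hμ : 0 < μ)
    (h1 : ∀ n : ℕ, τ (F.a ^ n) e = ((μ ^ n : ℝ) : ℂ) • e)
    (h2 : ∀ n : ℕ, ‖τ (F.a ^ n)‖ ≤ C * μ ^ n)
    (hρ : F.Dom (τ.comp F.φ)) (g : SL2) : F.IsTop (τ.comp F.φ) g (τ g e) := by
  have hC : 0 ≤ C := by
    have := (norm_nonneg _).trans (h2 0)
    simpa using this
  obtain ⟨M₁, hM₁⟩ := (F.compact.image hτ.norm).bddAbove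
  obtain ⟨M₂, hM₂⟩ := (F.compact.image ((hτ.comp continuous_inv).norm)).bddAbove
  set M : ℝ := max (max M₁ M₂) 1 with hM
  have hM0 : 0 < M := lt_of_lt_of_le one_pos (le_max_right _ _)
  have hMd : ∀ d ∈ F.D, ‖τ d‖ ≤ M := fun d hd =>
    (hM₁ ⟨d, hd, rfl⟩).trans ((le_max_left _ _).trans (le_max_left _ _))
  have hMd' : ∀ d ∈ F.D, ‖τ d⁻¹‖ ≤ M := fun d hd =>
    (hM₂ ⟨d, hd, rfl⟩).trans ((le_max_right _ _).trans (le_max_left _ _))
  set v := F.topv hρ g with hv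
  have hvn : ‖v‖ = 1 := F.norm_topv hρ g
  have hge : τ g e ≠ 0 := rep_apply_ne_zero τ g he
  set L : ℝ := ‖τ g‖ * C * M * M * ‖e‖ with hL
  have hL0 : 0 ≤ L := by positivity
  have hS : S v (τ g e) = 0 := by
    apply le_antisymm _ (S_nonneg _ _)
    apply le_of_forall_pos_le_add
    intro ε hε
    rw [zero_add]
    obtain ⟨n₀, hn₀⟩ := (F.isTop_topv hρ g).2 (ε / (L + 1)) (by positivity)
    obtain ⟨γ, hγ⟩ := F.exists_Q g n₀
    set d := (F.φ γ)⁻¹ * g * F.a ^ n₀ with hd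
    have hdD : d ∈ F.D := hγ
    obtain ⟨c, hc⟩ := hn₀ n₀ le_rfl γ hγ (τ d e)
    have e1 : (τ.comp F.φ) γ (τ d e) = ((μ ^ n₀ : ℝ) : ℂ) • τ g e := by
      have : (τ.comp F.φ) γ (τ d e) = τ g (τ (F.a ^ n₀) e) := by
        rw [← rep_mul_apply τ g]
        change τ (F.φ γ) (τ d e) = _
        rw [← rep_mul_apply τ (F.φ γ)]
        congr 2
        rw [hd]
        group
      rw [this, h1, map_smul]
    have e2 : ‖(τ.comp F.φ) γ‖ ≤ ‖τ g‖ * (C * μ ^ n₀) * M := by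
      have : F.φ γ = g * F.a ^ n₀ * d⁻¹ := by rw [hd]; group
      change ‖τ (F.φ γ)‖ ≤ _
      rw [this, map_mul, map_mul]
      refine (norm_mul_le _ _).trans ?_
      refine mul_le_mul ?_ (hMd' d hdD) (norm_nonneg _) (by positivity)
      refine (norm_mul_le _ _).trans ?_
      exact mul_le_mul_of_nonneg_left (h2 n₀) (norm_nonneg _)
    have e3 : ‖τ d e‖ ≤ M * ‖e‖ := by
      refine ((τ d).le_opNorm e).trans ?_
      gcongr
      exact hMd d hdD
    have hμn : 0 < μ ^ n₀ := by positivity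
    have e4 : μ ^ n₀ * S v (τ g e) ≤ μ ^ n₀ * ε := by
      calc μ ^ n₀ * S v (τ g e) = S v (((μ ^ n₀ : ℝ) : ℂ) • τ g e) := by
            rw [S_smul, Complex.norm_real, Real.norm_of_nonneg hμn.le]
        _ = S v ((τ.comp F.φ) γ (τ d e)) := by rw [e1]
        _ ≤ ε / (L + 1) * ‖(τ.comp F.φ) γ‖ * ‖τ d e‖ := (S_le_of hvn _ c).trans hc
        _ ≤ ε / (L + 1) * (‖τ g‖ * (C * μ ^ n₀) * M) * (M * ‖e‖) := by gcongr
        _ = μ ^ n₀ * ε * (L / (L + 1)) := by rw [hL]; ring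
        _ ≤ μ ^ n₀ * ε * 1 := by
            gcongr
            rw [div_le_one (by positivity)]
            linarith
        _ = _ := mul_one _
    exact le_of_mul_le_mul_left e4 hμn
  have h3 := eq_smul_of_S_eq_zero hS
  rw [h3]
  refine (F.isTop_topv hρ g).smul F ?_
  intro h0
  rw [h0, zero_smul] at h3
  exact hge h3

/-- A representation through `SL(2, ℝ)` with even top weight has a trivial top line bundle. -/
theorem FlowData.triv_of_even [FiniteDimensional ℂ V] [Nontrivial V]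
    (τ : SL2 →* (V →L[ℂ] V)) (hτ : Continuous τ) {e : V} (he : e ≠ 0) {μ C : ℝ} (hμ : 0 < μ)
    (h1 : ∀ n : ℕ, τ (F.a ^ n) e = ((μ ^ n : ℝ) : ℂ) • e)
    (h2 : ∀ n : ℕ, ‖τ (F.a ^ n)‖ ≤ C * μ ^ n)
    (hρ : F.Dom (τ.comp F.φ)) (h3 : τ (F.w ^ 2) e = e) : F.Triv (τ.comp F.φ) := by
  refine ⟨fun g => τ g e, ?_, fun γ g => ?_, fun g => ?_, fun g =>
    F.isTop_of_weight τ hτ he hμ h1 h2 hρ g⟩
  · exact hτ.clm_apply continuous_const
  · simp only
    rw [rep_mul_apply]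
    rfl
  · simp only
    rw [rep_mul_apply, h3]

/-- A representation through `SL(2, ℝ)` with odd top weight has a nontrivial top line bundle. -/
theorem FlowData.not_triv_of_odd [FiniteDimensional ℂ V] [Nontrivial V]
    (hw : F.w ^ 2 = -1)
    (τ : SL2 →* (V →L[ℂ] V)) (hτ : Continuous τ) {e : V} (he : e ≠ 0) {μ C : ℝ} (hμ : 0 < μ)
    (h1 : ∀ n : ℕ, τ (F.a ^ n) e = ((μ ^ n : ℝ) : ℂ) • e)
    (h2 : ∀ n : ℕ, ‖τ (F.a ^ n)‖ ≤ C * μ ^ n)
    (hρ : F.Dom (τ.comp F.φ)) (h3 : τ (-1) e = -e) : ¬ F.Triv (τ.comp F.φ) := by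
  rintro ⟨s, hsc, hse, hsw, hst⟩
  have hne : ∀ g, τ g e ≠ 0 := fun g => rep_apply_ne_zero τ g he
  have htop := F.isTop_of_weight τ hτ he hμ h1 h2 hρ
  set f : SL2 → ℂ := fun g => ⟪τ g e, s g⟫_ℂ / ((‖τ g e‖ ^ 2 : ℝ) : ℂ) with hf
  have hcτ : Continuous fun g => τ g e := hτ.clm_apply continuous_const
  have hform : ∀ g, s g = f g • τ g e := by
    intro g
    have hn : 0 < ‖τ g e‖ := norm_pos_iff.2 (hne g)
    set u : V := ((‖τ g e‖⁻¹ : ℝ) : ℂ) • τ g e with hu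
    have hun : ‖u‖ = 1 := by
      rw [hu, norm_smul, Complex.norm_real, norm_inv, norm_norm, inv_mul_cancel₀ hn.ne']
    have hut : F.IsTop (τ.comp F.φ) g u := (htop g).smul F (by simpa using hn.ne')
    have h4 := hut.eq_smul F (hst g) hun
    rw [h4, hf]
    simp only
    rw [hu, inner_smul_left, smul_smul]
    congr 1
    rw [Complex.conj_ofReal]
    have hn' : ((‖τ g e‖ : ℝ) : ℂ) ≠ 0 := by exact_mod_cast hn.ne'
    push_cast
    field_simp
  have hf0 : ∀ g, f g ≠ 0 := by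
    intro g h0
    have := hform g
    rw [h0, zero_smul] at this
    exact (hst g).1 this
  refine no_odd F f ?_ hf0 ?_ ?_
  · refine Continuous.div (hcτ.inner hsc) ?_ ?_
    · exact Complex.continuous_ofReal.comp (hcτ.norm.pow 2)
    · intro g
      have hn : 0 < ‖τ g e‖ := norm_pos_iff.2 (hne g)
      exact_mod_cast (pow_pos hn 2).ne'
  · intro γ g
    have h4 : f (F.φ γ * g) • τ (F.φ γ * g) e = f g • τ (F.φ γ * g) e := by
      rw [← hform, hse, hform g, map_smul, rep_mul_apply]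
      rfl
    exact smul_left_injective ℂ (hne _) h4
  · intro g
    have h4 : f (g * -1) • τ g e = (-f g) • τ g e := by
      have h5 : s (g * -1) = s g := by rw [← hw, hsw]
      have h6 : τ (g * -1) e = - τ g e := by rw [rep_mul_apply, h3, map_neg]
      rw [hform (g * -1), h6, hform g] at h5
      rw [neg_smul, ← h5, smul_neg, neg_neg]
    exact smul_left_injective ℂ (hne _) h4

end Weight

/-- A locally constant property is constant on preconnected sets. -/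
theorem preconnected_const {X : Type*} [TopologicalSpace X] {A C : Set X}
    (hC : IsPreconnected C) (hCA : C ⊆ A) {P : X → Prop}
    (h : ∀ x ∈ A, ∃ O : Set X, IsOpen O ∧ x ∈ O ∧ ∀ y ∈ O ∩ A, (P y ↔ P x)) {x y : X}
    (hx : x ∈ C) (hy : y ∈ C) (hPx : P x) : P y := by
  by_contra hPy
  choose! O hO hxO hPO using h
  set U : Set X := ⋃ z ∈ {z | z ∈ A ∧ P z}, O z with hU
  set U' : Set X := ⋃ z ∈ {z | z ∈ A ∧ ¬ P z}, O z with hU'
  have hUo : IsOpen U := isOpen_biUnion fun z hz => hO z hz.1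
  have hUo' : IsOpen U' := isOpen_biUnion fun z hz => hO z hz.1
  have hcov : C ⊆ U ∪ U' := by
    intro z hz
    by_cases hPz : P z
    · left
      exact Set.mem_biUnion (show z ∈ {z | z ∈ A ∧ P z} from ⟨hCA hz, hPz⟩) (hxO z (hCA hz))
    · right
      exact Set.mem_biUnion (show z ∈ {z | z ∈ A ∧ ¬ P z} from ⟨hCA hz, hPz⟩) (hxO z (hCA hz))
  have h1 : (C ∩ U).Nonempty := ⟨x, hx,
    Set.mem_biUnion (show x ∈ {z | z ∈ A ∧ P z} from ⟨hCA hx, hPx⟩) (hxO x (hCA hx))⟩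
  have h2 : (C ∩ U').Nonempty := ⟨y, hy,
    Set.mem_biUnion (show y ∈ {z | z ∈ A ∧ ¬ P z} from ⟨hCA hy, hPy⟩) (hxO y (hCA hy))⟩
  obtain ⟨z, hzC, hzU, hzU'⟩ := hC U U' hUo hUo' hcov h1 h2
  simp only [hU, hU', Set.mem_iUnion] at hzU hzU'
  obtain ⟨p, hp, hzp⟩ := hzU
  obtain ⟨r, hr, hzr⟩ := hzU'
  have k1 := (hPO p hp.1 z ⟨hzp, hCA hzC⟩).2 hp.2
  have k2 := (hPO r hr.1 z ⟨hzr, hCA hzC⟩).1 k1
  exact hr.2 k2

theorem exists_chi {Γ : Type*} [Group Γ] (F : FlowData Γ SL2) (hw4 : F.w ^ 4 = 1) :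
    ∃ χ : SL2 → ℝ, Continuous χ ∧ HasCompactSupport χ ∧ (∀ g, 0 ≤ χ g) ∧
      (∀ g ∈ F.D, 0 < χ g) ∧ ∀ g, χ (g * F.w ^ 2) = χ g := by
  obtain ⟨χ₀, h1, -, hcs, h01⟩ := exists_continuous_one_zero_of_isCompact F.compact
    isClosed_empty (Set.disjoint_empty _)
  refine ⟨fun g => χ₀ g + χ₀ (g * F.w ^ 2), ?_, ?_, ?_, ?_, ?_⟩
  · exact χ₀.continuous.add (χ₀.continuous.comp (continuous_mul_const _))
  · have h2 : HasCompactSupport fun g => χ₀ (g * F.w ^ 2) :=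
      hcs.comp_homeomorph (Homeomorph.mulRight (F.w ^ 2))
    exact hcs.add h2
  · intro g
    exact add_nonneg (h01 _).1 (h01 _).1
  · intro g hg
    have := h1 hg
    have h3 := (h01 (g * F.w ^ 2)).1
    simp only
    rw [this]
    simp only [Pi.one_apply]
    linarith
  · intro g
    simp only
    rw [mul_assoc, ← pow_add, hw4, mul_one, add_comm]

/-- Local constancy on the Anosov locus, and separation of components. -/
theorem separation {Γ : Type*} [Group Γ] {S : Finset Γ}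
    (hS : Subgroup.closure (S : Set Γ) = ⊤) {d : ℕ} (hd : 0 < d) (F : FlowData Γ SL2)
    (ha : F.a = a0) (hw : F.w = w0) {θ : Set ℕ} (hθ : 1 ∈ θ)
    {ρ₁ ρ₂ : Γ →* SpecialLinearGroup (Fin d) ℂ}
    (h₁ : F.Triv ((toOp d).comp ρ₁)) (h₂ : ¬ F.Triv ((toOp d).comp ρ₂)) :
    (⇑ρ₂ : Γ → SpecialLinearGroup (Fin d) ℂ) ∉
      connectedComponentIn (anosovSet d S θ) (⇑ρ₁) := by
  intro hmem
  have hw4 : F.w ^ 4 = 1 := by
    have : F.w ^ 4 = (F.w ^ 2) ^ 2 := by rw [← pow_mul]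
    rw [this, hw, w0_sq]
    simp
  have hmem₁ : (⇑ρ₁ : Γ → SpecialLinearGroup (Fin d) ℂ) ∈ anosovSet d S θ := by
    by_contra hcon
    rw [connectedComponentIn_eq_empty hcon] at hmem
    exact hmem
  have hnt : Nontrivial (EuclideanSpace ℂ (Fin d)) := by
    have : Nonempty (Fin d) := ⟨⟨0, hd⟩⟩
    infer_instance
  obtain ⟨χ, hχ, hχs, hχ0, hχD, hχw⟩ := exists_chi F hw4
  let P : (Γ → SpecialLinearGroup (Fin d) ℂ) → Prop := fun f =>
    ∃ ρ : Γ →* SpecialLinearGroup (Fin d) ℂ, ⇑ρ = f ∧ F.Triv ((toOp d).comp ρ)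
  have hP : ∀ ρ : Γ →* SpecialLinearGroup (Fin d) ℂ,
      P ⇑ρ ↔ F.Triv ((toOp d).comp ρ) := by
    intro ρ
    constructor
    · rintro ⟨ρ', hρ', htr⟩
      rw [DFunLike.coe_fn_eq.1 hρ'] at htr
      exact htr
    · intro h
      exact ⟨ρ, rfl, h⟩
  have hfinal : P ⇑ρ₂ := by
    refine preconnected_const (A := anosovSet d S θ) isPreconnected_connectedComponentIn
      (connectedComponentIn_subset _ _) (P := P) ?_ (mem_connectedComponentIn hmem₁) hmem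
      ((hP ρ₁).2 h₁)
    rintro f₀ ⟨ρ₀, hρ₀, rfl⟩
    have hdom₀ := dom_of_isAnosov hS hd F ha hθ hρ₀
    obtain ⟨T, κ, hκ, hT⟩ := F.triv_locally_constant hdom₀ χ hχ hχs hχ0 hχD hχw
    refine ⟨⋂ γ ∈ T, {f | ‖toOp d (f γ) - toOp d (ρ₀ γ)‖ < κ}, ?_, ?_, ?_⟩
    · apply isOpen_biInter_finset
      intro γ _
      have hc : Continuous fun f : Γ → SpecialLinearGroup (Fin d) ℂ =>
          ‖toOp d (f γ) - toOp d (ρ₀ γ)‖ :=
        (((continuous_toOp d).comp (continuous_apply γ)).sub continuous_const).norm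
      exact isOpen_lt hc continuous_const
    · simp only [Set.mem_iInter, Set.mem_ofPred_eq]
      intro γ _
      simpa using hκ
    · rintro f ⟨hf, ρ, hρ, rfl⟩
      simp only [Set.mem_iInter, Set.mem_ofPred_eq] at hf
      rw [hP, hP]
      exact hT _ (dom_of_isAnosov hS hd F ha hθ hρ) fun γ hγ => (hf γ hγ).le
  exact h₂ ((hP ρ₂).1 hfinal)

/-! ### The two representations -/

/-- `ρ₃` as a representation by operators. -/
noncomputable def tau3 : SL2 →* (EuclideanSpace ℂ (Fin 3) →L[ℂ] EuclideanSpace ℂ (Fin 3)) :=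
  (toOp 3).comp (toC.comp sym2)

/-- `ρ₂ ⊕ ρ₁` as a representation by operators. -/
noncomputable def tau21 : SL2 →* (EuclideanSpace ℂ (Fin 3) →L[ℂ] EuclideanSpace ℂ (Fin 3)) :=
  (toOp 3).comp (toC.comp block)

theorem tau3_mat (A : SL2) : tau3 A = Matrix.toEuclideanCLM (𝕜 := ℂ)
    ((Pool.Agent.Hhelper67.Anosov.sym2Mat A).map Complex.ofRealHom) := rfl

theorem tau21_mat (A : SL2) : tau21 A = Matrix.toEuclideanCLM (𝕜 := ℂ)
    ((Pool.Agent.Hhelper67.Anosov.blockMat A).map Complex.ofRealHom) := rfl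

theorem continuous_CLM : Continuous fun A : Matrix (Fin 3) (Fin 3) ℂ =>
    (Matrix.toEuclideanCLM (𝕜 := ℂ) A : EuclideanSpace ℂ (Fin 3) →L[ℂ] _) :=
  LinearMap.continuous_of_finiteDimensional
    ((Matrix.toEuclideanCLM (𝕜 := ℂ) (n := Fin 3)).toAlgEquiv.toLinearMap)

theorem continuous_tau3 : Continuous tau3 := by
  have e : (tau3 : SL2 → _) = fun A => Matrix.toEuclideanCLM (𝕜 := ℂ)
    ((Pool.Agent.Hhelper67.Anosov.sym2Mat A).map Complex.ofRealHom) := funext tau3_mat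
  rw [e]
  refine continuous_CLM.comp ?_
  have h : ∀ i j, Continuous fun g : SL2 => g.1 i j := fun i j =>
    (continuous_apply_apply i j).comp continuous_subtype_val
  have h00 := h 0 0
  have h01 := h 0 1
  have h10 := h 1 0
  have h11 := h 1 1
  apply continuous_matrix
  intro i j
  fin_cases i <;> fin_cases j <;> simp [Pool.Agent.Hhelper67.Anosov.sym2Mat] <;> fun_prop

theorem continuous_tau21 : Continuous tau21 := by
  have e : (tau21 : SL2 → _) = fun A => Matrix.toEuclideanCLM (𝕜 := ℂ)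
    ((Pool.Agent.Hhelper67.Anosov.blockMat A).map Complex.ofRealHom) := funext tau21_mat
  rw [e]
  refine continuous_CLM.comp ?_
  have h : ∀ i j, Continuous fun g : SL2 => g.1 i j := fun i j =>
    (continuous_apply_apply i j).comp continuous_subtype_val
  have h00 := h 0 0
  have h01 := h 0 1
  have h10 := h 1 0
  have h11 := h 1 1
  apply continuous_matrix
  intro i j
  fin_cases i <;> fin_cases j <;> simp [Pool.Agent.Hhelper67.Anosov.blockMat] <;> fun_prop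

/-- first basis vector -/
noncomputable def e0 : EuclideanSpace ℂ (Fin 3) := EuclideanSpace.single 0 1

theorem e0_ne_zero : e0 ≠ 0 := by
  intro h
  have := congrArg norm h
  simp [e0] at this

theorem a0_pow_apply (n : ℕ) : ((a0 ^ n) 0 0 = 2 ^ n ∧ (a0 ^ n) 0 1 = 0) ∧
    ((a0 ^ n) 1 0 = 0 ∧ (a0 ^ n) 1 1 = (1 / 2) ^ n) := by
  have h := a0_pow n
  refine ⟨⟨?_, ?_⟩, ?_, ?_⟩
  · exact congrFun (congrFun h 0) 0
  · exact congrFun (congrFun h 0) 1
  · exact congrFun (congrFun h 1) 0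
  · exact congrFun (congrFun h 1) 1

theorem rho3_a0_pow (n : ℕ) : (Pool.Agent.Hhelper67.Anosov.sym2Mat (a0 ^ n)).map
    Complex.ofRealHom =
    Matrix.diagonal ![((4 ^ n : ℝ) : ℂ), 1, (((1 / 4) ^ n : ℝ) : ℂ)] := by
  obtain ⟨⟨h1, h2⟩, h3, h4⟩ := a0_pow_apply n
  have h5 : (2 : ℝ) ^ n * (1 / 2) ^ n = 1 := by rw [← mul_pow]; norm_num
  have h6 : ((2 : ℝ) ^ n) ^ 2 = 4 ^ n := by rw [← pow_mul, mul_comm, pow_mul]; norm_num
  have h7 : (((1 : ℝ) / 2) ^ n) ^ 2 = (1 / 4) ^ n := by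
    rw [← pow_mul, mul_comm, pow_mul]; norm_num
  rw [Pool.Agent.Hhelper67.Anosov.sym2Mat, h1, h2, h3, h4, h5, h6, h7]
  ext i j
  fin_cases i <;> fin_cases j <;> simp

theorem rho21_a0_pow (n : ℕ) : (Pool.Agent.Hhelper67.Anosov.blockMat (a0 ^ n)).map
    Complex.ofRealHom =
    Matrix.diagonal ![((2 ^ n : ℝ) : ℂ), (((1 / 2) ^ n : ℝ) : ℂ), 1] := by
  obtain ⟨⟨h1, h2⟩, h3, h4⟩ := a0_pow_apply n
  rw [Pool.Agent.Hhelper67.Anosov.blockMat, h1, h2, h3, h4]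
  ext i j
  fin_cases i <;> fin_cases j <;> simp

open scoped Matrix.Norms.L2Operator in
theorem norm_diag_le (v : Fin 3 → ℂ) {m : ℝ} (hm : 0 ≤ m) (h : ∀ i, ‖v i‖ ≤ m) :
    ‖(Matrix.toEuclideanCLM (𝕜 := ℂ) (Matrix.diagonal v) :
      EuclideanSpace ℂ (Fin 3) →L[ℂ] EuclideanSpace ℂ (Fin 3))‖ ≤ m := by
  rw [Matrix.l2_opNorm_toEuclideanCLM, Matrix.l2_opNorm_diagonal]
  exact (pi_norm_le_iff_of_nonneg hm).2 h

theorem diag_e0 (v : Fin 3 → ℂ) :
    (Matrix.toEuclideanCLM (𝕜 := ℂ) (Matrix.diagonal v) :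
      EuclideanSpace ℂ (Fin 3) →L[ℂ] EuclideanSpace ℂ (Fin 3)) e0 = v 0 • e0 := by
  ext i
  rw [Matrix.ofLp_toEuclideanCLM, Matrix.mulVec_diagonal]
  fin_cases i <;> simp [e0]

theorem tau3_weight (n : ℕ) : tau3 (a0 ^ n) e0 = (((4 : ℝ) ^ n : ℝ) : ℂ) • e0 := by
  rw [tau3_mat, rho3_a0_pow, diag_e0]
  rfl

theorem tau21_weight (n : ℕ) : tau21 (a0 ^ n) e0 = (((2 : ℝ) ^ n : ℝ) : ℂ) • e0 := by
  rw [tau21_mat, rho21_a0_pow, diag_e0]
  rfl

theorem tau3_norm (n : ℕ) : ‖tau3 (a0 ^ n)‖ ≤ 1 * 4 ^ n := by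
  rw [tau3_mat, rho3_a0_pow, one_mul]
  apply norm_diag_le _ (by positivity)
  have h1 : (1 : ℝ) ≤ 4 ^ n := one_le_pow₀ (by norm_num)
  have h2 : ((1 : ℝ) / 4) ^ n ≤ 1 := pow_le_one₀ (by norm_num) (by norm_num)
  have h3 : (0 : ℝ) ≤ (1 / 4) ^ n := by positivity
  intro i
  fin_cases i
  · simp
  · simpa using h1
  · change ‖(((1 / 4) ^ n : ℝ) : ℂ)‖ ≤ _
    rw [Complex.norm_real, Real.norm_of_nonneg h3]
    exact h2.trans h1

theorem tau21_norm (n : ℕ) : ‖tau21 (a0 ^ n)‖ ≤ 1 * 2 ^ n := by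
  rw [tau21_mat, rho21_a0_pow, one_mul]
  apply norm_diag_le _ (by positivity)
  have h1 : (1 : ℝ) ≤ 2 ^ n := one_le_pow₀ (by norm_num)
  have h2 : ((1 : ℝ) / 2) ^ n ≤ 1 := pow_le_one₀ (by norm_num) (by norm_num)
  have h3 : (0 : ℝ) ≤ (1 / 2) ^ n := by positivity
  intro i
  fin_cases i
  · simp
  · change ‖(((1 / 2) ^ n : ℝ) : ℂ)‖ ≤ _
    rw [Complex.norm_real, Real.norm_of_nonneg h3]
    exact h2.trans h1
  · simpa using h1

theorem tau3_neg_one : tau3 (-1) e0 = e0 := by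
  have h : (Pool.Agent.Hhelper67.Anosov.sym2Mat (-1 : SL2)).map Complex.ofRealHom =
      Matrix.diagonal ![1, 1, 1] := by
    ext i j
    fin_cases i <;> fin_cases j <;> simp [Pool.Agent.Hhelper67.Anosov.sym2Mat]
  rw [tau3_mat, h, diag_e0]
  simp

theorem tau21_neg_one : tau21 (-1) e0 = -e0 := by
  have h : (Pool.Agent.Hhelper67.Anosov.blockMat (-1 : SL2)).map Complex.ofRealHom =
      Matrix.diagonal ![-1, -1, 1] := by
    ext i j
    fin_cases i <;> fin_cases j <;> simp [Pool.Agent.Hhelper67.Anosov.blockMat]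
  rw [tau21_mat, h, diag_e0]
  simp

/-- `ρ₃` and `ρ₂ ⊕ ρ₁` lie in different components, provided they are Anosov. -/
theorem separation_rho {Γ : Type*} [Group Γ] {S : Finset Γ}
    (hS : Subgroup.closure (S : Set Γ) = ⊤) (φ : Γ →* SL2) (hinj : Function.Injective φ)
    (hdisc : DiscreteTopology φ.range) (hcomp : CompactSpace (SL2 ⧸ φ.range)) {θ : Set ℕ}
    (hθ : 1 ∈ θ) (h3 : IsAnosov S θ (rho3 φ)) (h21 : IsAnosov S θ (rho21 φ)) :
    (⇑(rho21 φ) : Γ → SpecialLinearGroup (Fin 3) ℂ) ∉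
      connectedComponentIn (anosovSet 3 S θ) (⇑(rho3 φ)) := by
  obtain ⟨F, hFφ, hFa, hFw⟩ := exists_flowData φ hinj hdisc hcomp
  subst hFφ
  have e3 : (toOp 3).comp (rho3 F.φ) = tau3.comp F.φ := rfl
  have e21 : (toOp 3).comp (rho21 F.φ) = tau21.comp F.φ := rfl
  refine separation hS (by norm_num) F hFa hFw hθ ?_ ?_
  · rw [e3]
    refine F.triv_of_even tau3 continuous_tau3 e0_ne_zero (μ := 4) (C := 1) (by norm_num)
      ?_ ?_ ?_ ?_
    · intro n
      rw [hFa]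
      exact tau3_weight n
    · intro n
      rw [hFa]
      exact tau3_norm n
    · rw [← e3]
      exact dom_of_isAnosov hS (by norm_num) F hFa hθ h3
    · rw [hFw, w0_sq]
      exact tau3_neg_one
  · rw [e21]
    refine F.not_triv_of_odd (by rw [hFw, w0_sq]) tau21 continuous_tau21 e0_ne_zero (μ := 2)
      (C := 1) (by norm_num) ?_ ?_ ?_ tau21_neg_one
    · intro n
      rw [hFa]
      exact tau21_weight n
    · intro n
      rw [hFa]
      exact tau21_norm n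
    · rw [← e21]
      exact dom_of_isAnosov hS (by norm_num) F hFa hθ h21

end Pool.Agent.Hhelper63.Anosov
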