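import Pool.Agent.Hhelper63.Anosov.Transverse

/-!
Continuity of the top lines, and closeness of the top lines of nearby dominated representations.
-/

namespace Pool.Agent.Hhelper63.Anosov

open scoped InnerProductSpace Pointwise Topology

variable {Γ G : Type*} [Group Γ] [Group G] [TopologicalSpace G] [IsTopologicalGroup G]
  (F : FlowData Γ G)
  {V : Type*} [NormedAddCommGroup V] [InnerProductSpace ℂ V]

/-- A chosen unit top vector. -/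
noncomputable def FlowData.topv [FiniteDimensional ℂ V] [Nontrivial V]
    {ρ : Γ →* (V →L[ℂ] V)} (hρ : F.Dom ρ) (g : G) : V :=
  Classical.choose (FlowData.Dom.exists_isTop F hρ g)

theorem FlowData.norm_topv [FiniteDimensional ℂ V] [Nontrivial V]
    {ρ : Γ →* (V →L[ℂ] V)} (hρ : F.Dom ρ) (g : G) : ‖F.topv hρ g‖ = 1 :=
  (Classical.choose_spec (FlowData.Dom.exists_isTop F hρ g)).1

theorem FlowData.isTop_topv [FiniteDimensional ℂ V] [Nontrivial V]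
    {ρ : Γ →* (V →L[ℂ] V)} (hρ : F.Dom ρ) (g : G) : F.IsTop ρ g (F.topv hρ g) :=
  (Classical.choose_spec (FlowData.Dom.exists_isTop F hρ g)).2

/-- A top vector is a multiple of any unit top vector. -/
theorem FlowData.IsTop.eq_smul [Nontrivial V] {ρ : Γ →* (V →L[ℂ] V)} {g : G} {u v : V}
    (hu : F.IsTop ρ g u) (hv : F.IsTop ρ g v) (hun : ‖u‖ = 1) : v = ⟪u, v⟫_ℂ • u := by
  have hvn : 0 < ‖v‖ := norm_pos_iff.2 hv.1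
  have h1 : S u (((‖v‖⁻¹ : ℝ) : ℂ) • v) = 0 := by
    refine hu.unique F (hv.smul F (by simpa using hvn.ne')) hun ?_
    rw [norm_smul, Complex.norm_real, norm_inv, norm_norm, inv_mul_cancel₀ hvn.ne']
  rw [S_smul] at h1
  have h2 : ‖((‖v‖⁻¹ : ℝ) : ℂ)‖ ≠ 0 := by
    rw [Complex.norm_real, norm_inv, norm_norm]
    exact inv_ne_zero hvn.ne'
  exact eq_smul_of_S_eq_zero ((mul_eq_zero.1 h1).resolve_left h2)

theorem S_map_le {A A' : V →L[ℂ] V} (hA : ∀ x, A' (A x) = x) {u v u' v' : V} (_hu : ‖u‖ = 1)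
    (hv : ‖v‖ = 1) (hu' : ‖u'‖ = 1) (hv' : ‖v'‖ = 1) {b c : ℂ} (hb : A u = b • u')
    (hc : v' = c • A v) : S u' v' ≤ ‖A‖ * ‖A'‖ * S u v := by
  have h1 : ‖c‖ ≤ ‖A'‖ := by
    have h2 : A' v' = c • v := by rw [hc, map_smul, hA]
    calc ‖c‖ = ‖c • v‖ := by rw [norm_smul, hv, mul_one]
      _ = ‖A' v'‖ := by rw [h2]
      _ ≤ ‖A'‖ * ‖v'‖ := A'.le_opNorm _
      _ = ‖A'‖ := by rw [hv', mul_one]
  have h3 := S_le_of hu' v' (c * ⟪u, v⟫_ℂ * b)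
  refine h3.trans ?_
  have h4 : v' - (c * ⟪u, v⟫_ℂ * b) • u' = c • A (v - ⟪u, v⟫_ℂ • u) := by
    rw [map_sub, map_smul, hb, smul_sub, ← hc]
    simp only [smul_smul, mul_assoc]
  rw [h4, norm_smul]
  calc ‖c‖ * ‖A (v - ⟪u, v⟫_ℂ • u)‖ ≤ ‖A'‖ * (‖A‖ * S u v) := by
        gcongr
        exact A.le_opNorm _
    _ = _ := by ring

theorem FlowData.tendsto_S_of_mem [FiniteDimensional ℂ V] [Nontrivial V]
    {ρ : Γ →* (V →L[ℂ] V)} (hρ : F.Dom ρ) {g₀ : G} (hg₀ : g₀ ∈ interior F.D) :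
    Filter.Tendsto (fun g => S (F.topv hρ g₀) (F.topv hρ g)) (𝓝 g₀) (𝓝 0) := by
  obtain ⟨q, C, hq0, hq1, hC, h⟩ := FlowData.Dom.uniform F hρ
  have hlim : Filter.Tendsto (fun n : ℕ => 4 * (C * q ^ n)) Filter.atTop (nhds 0) := by
    simpa using ((tendsto_pow_atTop_nhds_zero_of_lt_one hq0.le hq1).const_mul C).const_mul 4
  rw [Metric.tendsto_nhds]
  intro ε hε
  obtain ⟨n, hn⟩ := (hlim.eventually (gt_mem_nhds hε)).exists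
  obtain ⟨γ, hγ⟩ := F.cover (g₀ * F.a ^ n)
  have hev : ∀ᶠ g in 𝓝 g₀, (F.φ γ)⁻¹ * (g * F.a ^ n) ∈ interior F.D := by
    have hc : Continuous fun g : G => (F.φ γ)⁻¹ * (g * F.a ^ n) := by fun_prop
    exact hc.continuousAt.eventually (isOpen_interior.mem_nhds hγ)
  filter_upwards [hev, isOpen_interior.mem_nhds hg₀] with g hg1 hg2
  rw [Real.dist_eq, sub_zero, abs_of_nonneg (S_nonneg _ _)]
  have hQ0 : F.Q g₀ n γ := by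
    unfold FlowData.Q
    rw [mul_assoc]
    exact interior_subset hγ
  have hQ : F.Q g n γ := by
    unfold FlowData.Q
    rw [mul_assoc]
    exact interior_subset hg1
  obtain ⟨x, hx, hx'⟩ := exists_half (rep_ne_zero ρ γ)
  have hB : 0 < ‖ρ γ‖ := norm_pos_iff.2 (rep_ne_zero ρ γ)
  have hz : ρ γ x ≠ 0 := by
    intro h0
    rw [h0, norm_zero] at hx'
    linarith
  have e : C * q ^ n * ‖ρ γ‖ * ‖x‖ ≤ (2 * (C * q ^ n)) * ‖ρ γ x‖ := by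
    calc C * q ^ n * ‖ρ γ‖ * ‖x‖ ≤ C * q ^ n * (2 * ‖ρ γ x‖) * 1 := by
          gcongr
          linarith
      _ = _ := by ring
  have e1 := (h g₀ (interior_subset hg₀) _ (F.norm_topv hρ g₀) (F.isTop_topv hρ g₀) n γ hQ0
    x).trans e
  have e2 := (h g (interior_subset hg2) _ (F.norm_topv hρ g) (F.isTop_topv hρ g) n γ hQ
    x).trans e
  have := S_le_of_common (F.norm_topv hρ g₀) (F.norm_topv hρ g) hz e1 e2
  linarith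

theorem FlowData.tendsto_S [FiniteDimensional ℂ V] [Nontrivial V]
    {ρ : Γ →* (V →L[ℂ] V)} (hρ : F.Dom ρ) (g₀ : G) :
    Filter.Tendsto (fun g => S (F.topv hρ g₀) (F.topv hρ g)) (𝓝 g₀) (𝓝 0) := by
  obtain ⟨γ, hγ⟩ := F.cover g₀
  have h1 := F.tendsto_S_of_mem hρ hγ
  have hc : Continuous fun g : G => (F.φ γ)⁻¹ * g := by fun_prop
  have h2 := h1.comp (hc.tendsto g₀)
  have h3 : Filter.Tendsto (fun g => ‖ρ γ‖ * ‖ρ γ⁻¹‖ *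
      S (F.topv hρ ((F.φ γ)⁻¹ * g₀)) (F.topv hρ ((F.φ γ)⁻¹ * g))) (𝓝 g₀) (𝓝 0) := by
    simpa using h2.const_mul (‖ρ γ‖ * ‖ρ γ⁻¹‖)
  refine squeeze_zero (fun g => S_nonneg _ _) (fun g => ?_) h3
  -- comparison through the map `ρ γ`
  have k1 := (F.isTop_topv hρ ((F.φ γ)⁻¹ * g₀)).map F γ
  have k2 := (F.isTop_topv hρ ((F.φ γ)⁻¹ * g)).map F γ
  rw [mul_inv_cancel_left] at k1 k2
  have e1 := (F.isTop_topv hρ g₀).eq_smul F k1 (F.norm_topv hρ g₀)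
  have e2 := (F.isTop_topv hρ g).eq_smul F k2 (F.norm_topv hρ g)
  set b := ⟪F.topv hρ g₀, ρ γ (F.topv hρ ((F.φ γ)⁻¹ * g₀))⟫_ℂ with hb
  set c := ⟪F.topv hρ g, ρ γ (F.topv hρ ((F.φ γ)⁻¹ * g))⟫_ℂ with hc
  have hc0 : c ≠ 0 := by
    intro h0
    rw [h0, zero_smul] at e2
    exact k2.1 e2
  refine S_map_le (A := ρ γ) (A' := ρ γ⁻¹) (rep_inv_apply ρ γ) (F.norm_topv hρ _)
    (F.norm_topv hρ _) (F.norm_topv hρ _) (F.norm_topv hρ _) (b := b) (c := c⁻¹) e1 ?_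
  rw [eq_inv_smul_iff₀ hc0]
  exact e2.symm

/-- The pairing between top vectors of `ρ` and of its contragredient. -/
noncomputable def FlowData.pair [FiniteDimensional ℂ V] [Nontrivial V] [CompleteSpace V]
    {ρ : Γ →* (V →L[ℂ] V)} (hρ : F.Dom ρ) (g : G) : ℝ :=
  ‖⟪F.topv (FlowData.Dom.contra F hρ) (g * F.w), F.topv hρ g⟫_ℂ‖

theorem FlowData.pair_pos [FiniteDimensional ℂ V] [Nontrivial V] [CompleteSpace V]
    {ρ : Γ →* (V →L[ℂ] V)} (hρ : F.Dom ρ) (g : G) : 0 < F.pair hρ g :=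
  norm_pos_iff.2 (F.transverse hρ (F.isTop_topv hρ g) (F.isTop_topv _ _))

theorem FlowData.continuous_pair [FiniteDimensional ℂ V] [Nontrivial V] [CompleteSpace V]
    {ρ : Γ →* (V →L[ℂ] V)} (hρ : F.Dom ρ) : Continuous (F.pair hρ) := by
  rw [continuous_iff_continuousAt]
  intro g₀
  have h1 := F.tendsto_S hρ g₀
  have h2 : Filter.Tendsto (fun g => S (F.topv (FlowData.Dom.contra F hρ) (g₀ * F.w))
      (F.topv (FlowData.Dom.contra F hρ) (g * F.w))) (𝓝 g₀) (𝓝 0) := by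
    have hc : Continuous fun g : G => g * F.w := by fun_prop
    exact (F.tendsto_S (FlowData.Dom.contra F hρ) (g₀ * F.w)).comp (hc.tendsto g₀)
  have h3 : ∀ g, |F.pair hρ g - F.pair hρ g₀| ≤ S (F.topv hρ g₀) (F.topv hρ g) +
      S (F.topv (FlowData.Dom.contra F hρ) (g₀ * F.w))
      (F.topv (FlowData.Dom.contra F hρ) (g * F.w)) := by
    intro g
    set u₀ := F.topv hρ g₀
    set u := F.topv hρ g
    set t₀ := F.topv (FlowData.Dom.contra F hρ) (g₀ * F.w)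
    set t := F.topv (FlowData.Dom.contra F hρ) (g * F.w)
    have hu₀ : ‖u₀‖ = 1 := F.norm_topv hρ g₀
    have hu : ‖u‖ = 1 := F.norm_topv hρ g
    have ht₀ : ‖t₀‖ = 1 := F.norm_topv _ _
    have ht : ‖t‖ = 1 := F.norm_topv _ _
    have a1 : ‖⟪t, u⟫_ℂ‖ ≤ ‖⟪t, u₀⟫_ℂ‖ + S u₀ u := norm_inner_le_add hu hu₀ ht
    have a2 : ‖⟪u₀, t⟫_ℂ‖ ≤ ‖⟪u₀, t₀⟫_ℂ‖ + S t₀ t := norm_inner_le_add ht ht₀ hu₀
    have a3 : ‖⟪t₀, u₀⟫_ℂ‖ ≤ ‖⟪t₀, u⟫_ℂ‖ + S u u₀ := norm_inner_le_add hu₀ hu ht₀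
    have a4 : ‖⟪u, t₀⟫_ℂ‖ ≤ ‖⟪u, t⟫_ℂ‖ + S t t₀ := norm_inner_le_add ht₀ ht hu
    have b1 : ‖⟪u₀, t⟫_ℂ‖ = ‖⟪t, u₀⟫_ℂ‖ := norm_inner_symm _ _
    have b2 : ‖⟪u₀, t₀⟫_ℂ‖ = ‖⟪t₀, u₀⟫_ℂ‖ := norm_inner_symm _ _
    have b3 : ‖⟪u, t₀⟫_ℂ‖ = ‖⟪t₀, u⟫_ℂ‖ := norm_inner_symm _ _
    have b4 : ‖⟪u, t⟫_ℂ‖ = ‖⟪t, u⟫_ℂ‖ := norm_inner_symm _ _
    have s1 : S u u₀ = S u₀ u := S_symm hu hu₀
    have s2 : S t t₀ = S t₀ t := S_symm ht ht₀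
    have p1 : F.pair hρ g = ‖⟪t, u⟫_ℂ‖ := rfl
    have p2 : F.pair hρ g₀ = ‖⟪t₀, u₀⟫_ℂ‖ := rfl
    rw [p1, p2, abs_le]
    constructor <;> linarith
  have h4 : Filter.Tendsto (fun g => F.pair hρ g - F.pair hρ g₀) (𝓝 g₀) (𝓝 0) := by
    refine squeeze_zero_norm h3 ?_
    simpa using h1.add h2
  have h5 := h4.add_const (F.pair hρ g₀)
  simpa [ContinuousAt] using h5

theorem FlowData.exists_delta [FiniteDimensional ℂ V] [Nontrivial V] [CompleteSpace V]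
    {ρ : Γ →* (V →L[ℂ] V)} (hρ : F.Dom ρ) : ∃ δ > 0, δ ≤ 1 ∧ ∀ g ∈ F.D, δ ≤ F.pair hρ g := by
  by_cases hne : F.D.Nonempty
  · obtain ⟨g, hg, hmin⟩ := F.compact.exists_isMinOn hne (F.continuous_pair hρ).continuousOn
    exact ⟨min 1 (F.pair hρ g), lt_min one_pos (F.pair_pos hρ g), min_le_left _ _,
      fun g' hg' => (min_le_right _ _).trans (hmin hg')⟩
  · exact ⟨1, one_pos, le_rfl, fun g hg => absurd ⟨g, hg⟩ hne⟩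

/-- Uniform closeness of the top lines. -/
theorem FlowData.close [FiniteDimensional ℂ V] [Nontrivial V] [CompleteSpace V]
    {ρ₀ : Γ →* (V →L[ℂ] V)} (hρ₀ : F.Dom ρ₀) {δ : ℝ} (hδ : 0 < δ) :
    ∃ T : Finset Γ, ∃ κ > 0, ∀ ρ : Γ →* (V →L[ℂ] V), ∀ hρ : F.Dom ρ,
      (∀ γ ∈ T, ‖ρ γ - ρ₀ γ‖ ≤ κ) → ∀ g ∈ F.D, S (F.topv hρ₀ g) (F.topv hρ g) ≤ δ := by
  obtain ⟨δ₁, hδ₁, hδ₁1, hpair⟩ := F.exists_delta hρ₀
  obtain ⟨q, C, hq0, hq1, hC, hun1⟩ := FlowData.Dom.uniform F hρ₀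
  obtain ⟨q', C', hq0', hq1', hC', hun2⟩ := FlowData.Dom.uniform F (FlowData.Dom.contra F hρ₀)
  set δ' : ℝ := min δ (δ₁ / 4) with hδ'
  have hδ'0 : 0 < δ' := lt_min hδ (by positivity)
  have hδ'1 : δ' ≤ δ₁ / 4 := min_le_right _ _
  have hδ'4 : δ' ≤ 1 / 4 := by linarith
  set β : ℝ := δ₁ / 8 with hβ
  have hβ0 : 0 < β := by positivity
  -- choice of the time `n`
  have hlim1 : Filter.Tendsto (fun n : ℕ => C * q ^ n) Filter.atTop (nhds 0) := by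
    simpa using (tendsto_pow_atTop_nhds_zero_of_lt_one hq0.le hq1).const_mul C
  have hlim2 : Filter.Tendsto (fun n : ℕ => C' * q' ^ n) Filter.atTop (nhds 0) := by
    simpa using (tendsto_pow_atTop_nhds_zero_of_lt_one hq0'.le hq1').const_mul C'
  obtain ⟨n, hn1, hn2, hn3⟩ := ((hlim1.eventually (gt_mem_nhds
    (by positivity : 0 < β * δ' / 4))).and ((hlim2.eventually (gt_mem_nhds
    (by positivity : 0 < δ₁ / 16))).and (Filter.eventually_ge_atTop 1))).exists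
  -- finite set
  have hcomp : IsCompact (F.D * {F.a ^ n} * F.D⁻¹) :=
    (F.compact.mul isCompact_singleton).mul F.compact.inv
  have hfin := F.proper _ hcomp
  have hmemT : ∀ g ∈ F.D, ∀ γ, F.Q g n γ → γ ∈ hfin.toFinset := by
    intro g hg γ hγ
    rw [Set.Finite.mem_toFinset]
    have e : F.φ γ = g * F.a ^ n * ((F.φ γ)⁻¹ * g * F.a ^ n)⁻¹ := by group
    change F.φ γ ∈ F.D * {F.a ^ n} * F.D⁻¹
    rw [e]
    exact Set.mul_mem_mul (Set.mul_mem_mul hg rfl) (Set.inv_mem_inv.2 hγ)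
  -- lower bound of the norms on the finite set
  obtain ⟨m₀, hm₀, hm₀'⟩ : ∃ m₀ > 0, ∀ γ ∈ hfin.toFinset, m₀ ≤ ‖ρ₀ γ‖ := by
    by_cases hne : hfin.toFinset.Nonempty
    · obtain ⟨γ, hγ, hmin⟩ := hfin.toFinset.exists_min_image (fun γ => ‖ρ₀ γ‖) hne
      exact ⟨‖ρ₀ γ‖, norm_pos_iff.2 (rep_ne_zero ρ₀ γ), hmin⟩
    · exact ⟨1, one_pos, fun γ hγ => absurd ⟨γ, hγ⟩ hne⟩
  refine ⟨hfin.toFinset, β * δ' / 4 * m₀, by positivity, fun ρ hρ hclose => ?_⟩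
  -- the cone at a point
  let Cone : G → V → Prop := fun p v => v ≠ 0 ∧ S (F.topv hρ₀ p) v ≤ δ' * ‖v‖
  -- lower bound for `ρ₀ γ v`
  have hlow : ∀ g ∈ F.D, ∀ γ, F.Q g n γ → ∀ v, Cone ((F.φ γ)⁻¹ * g * F.a ^ n) v →
      β * ‖ρ₀ γ‖ * ‖v‖ ≤ ‖ρ₀ γ v‖ := by
    intro g hg γ hγ v hv
    set d := (F.φ γ)⁻¹ * g * F.a ^ n with hd
    have hdD : d ∈ F.D := hγ
    have hQ : F.Q (d * F.w) n γ⁻¹ := by
      unfold FlowData.Q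
      have e : (F.φ γ⁻¹)⁻¹ * (d * F.w) * F.a ^ n = g * F.w := by
        rw [map_inv, inv_inv, hd, mul_assoc, mul_assoc _ F.w, ← F.inv_a_w n]
        simp only [mul_assoc]
        rw [inv_pow, mul_inv_cancel_left, mul_inv_cancel_left]
      rw [e]
      exact F.right_w _ hg
    set θ := F.topv (FlowData.Dom.contra F hρ₀) (d * F.w) with hθ
    have hθn : ‖θ‖ = 1 := F.norm_topv _ _
    have hest := hun2 (d * F.w) (F.right_w _ hdD) θ hθn (F.isTop_topv _ _) n γ⁻¹ hQ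
    set ud := F.topv hρ₀ d with hud
    have hudn : ‖ud‖ = 1 := F.norm_topv _ _
    have hBn : 0 < ‖ρ₀ γ‖ := norm_pos_iff.2 (rep_ne_zero ρ₀ γ)
    -- the adjoint
    have hcn : ‖contra ρ₀ γ⁻¹‖ = ‖ρ₀ γ‖ := by rw [norm_contra, inv_inv]
    obtain ⟨x, hx, hx'⟩ := exists_half (rep_ne_zero (contra ρ₀) γ⁻¹)
    rw [hcn] at hx'
    have h1 := hest x
    rw [hcn] at h1
    have hin : ⟪contra ρ₀ γ⁻¹ x, v⟫_ℂ = ⟪x, ρ₀ γ v⟫_ℂ := by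
      rw [contra_apply, inv_inv, ContinuousLinearMap.adjoint_inner_left]
    set y := contra ρ₀ γ⁻¹ x with hy
    set c := ⟪θ, y⟫_ℂ with hc
    have h2 : ‖y - c • θ‖ ≤ δ₁ / 16 * ‖ρ₀ γ‖ := by
      refine h1.trans ?_
      calc C' * q' ^ n * ‖ρ₀ γ‖ * ‖x‖ ≤ δ₁ / 16 * ‖ρ₀ γ‖ * 1 := by gcongr
        _ = _ := by ring
    have h3 : ‖ρ₀ γ‖ / 2 - δ₁ / 16 * ‖ρ₀ γ‖ ≤ ‖c‖ := by
      have : ‖y‖ ≤ ‖y - c • θ‖ + ‖c • θ‖ := by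
        calc ‖y‖ = ‖(y - c • θ) + c • θ‖ := by rw [sub_add_cancel]
          _ ≤ _ := norm_add_le _ _
      rw [norm_smul, hθn, mul_one] at this
      linarith
    -- pairing of θ and v
    have h4 : δ₁ / 2 * ‖v‖ ≤ ‖⟪θ, v⟫_ℂ‖ := by
      have e1 : v = ⟪ud, v⟫_ℂ • ud + (v - ⟪ud, v⟫_ℂ • ud) := by abel
      have e2 : ‖v - ⟪ud, v⟫_ℂ • ud‖ ≤ δ' * ‖v‖ := hv.2
      have e3 : ‖v‖ ≤ ‖⟪ud, v⟫_ℂ‖ + δ' * ‖v‖ := by
        calc ‖v‖ = ‖⟪ud, v⟫_ℂ • ud + (v - ⟪ud, v⟫_ℂ • ud)‖ := by rw [← e1]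
          _ ≤ ‖⟪ud, v⟫_ℂ • ud‖ + ‖v - ⟪ud, v⟫_ℂ • ud‖ := norm_add_le _ _
          _ ≤ _ := by
              rw [norm_smul, hudn, mul_one]
              gcongr
      have e4 : ‖⟪ud, v⟫_ℂ * ⟪θ, ud⟫_ℂ‖ ≤ ‖⟪θ, v⟫_ℂ‖ + δ' * ‖v‖ := by
        have e5 : ⟪ud, v⟫_ℂ * ⟪θ, ud⟫_ℂ = ⟪θ, v⟫_ℂ - ⟪θ, v - ⟪ud, v⟫_ℂ • ud⟫_ℂ := by
          rw [inner_sub_right, inner_smul_right]
          ring
        rw [e5]
        refine (norm_sub_le _ _).trans ?_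
        gcongr
        refine (norm_inner_le_norm _ _).trans ?_
        rw [hθn, one_mul]
        exact e2
      have e6 : δ₁ ≤ ‖⟪θ, ud⟫_ℂ‖ := hpair d hdD
      rw [norm_mul] at e4
      have e7 : ‖⟪ud, v⟫_ℂ‖ * δ₁ ≤ ‖⟪ud, v⟫_ℂ‖ * ‖⟪θ, ud⟫_ℂ‖ := by gcongr
      have e8 : (1 - δ') * ‖v‖ * δ₁ ≤ ‖⟪ud, v⟫_ℂ‖ * δ₁ := by
        gcongr
        linarith
      have hv0 : 0 ≤ ‖v‖ := norm_nonneg v
      have e9 : δ' * ‖v‖ ≤ δ₁ / 4 * ‖v‖ := by gcongr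
      have e10 : 3 / 4 * ‖v‖ * δ₁ ≤ (1 - δ') * ‖v‖ * δ₁ := by
        gcongr
        linarith
      linarith
    have h5 : ‖c‖ * ‖⟪θ, v⟫_ℂ‖ ≤ ‖ρ₀ γ v‖ + δ₁ / 16 * ‖ρ₀ γ‖ * ‖v‖ := by
      have e1 : (starRingEnd ℂ) c * ⟪θ, v⟫_ℂ = ⟪y, v⟫_ℂ - ⟪y - c • θ, v⟫_ℂ := by
        rw [inner_sub_left, inner_smul_left]
        ring
      have e2 : ‖c‖ * ‖⟪θ, v⟫_ℂ‖ = ‖⟪y, v⟫_ℂ - ⟪y - c • θ, v⟫_ℂ‖ := by
        rw [← e1, norm_mul, RCLike.norm_conj]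
      rw [e2, hin]
      refine (norm_sub_le _ _).trans ?_
      have e3 : ‖⟪x, ρ₀ γ v⟫_ℂ‖ ≤ ‖ρ₀ γ v‖ := by
        refine (norm_inner_le_norm _ _).trans ?_
        have := norm_nonneg (ρ₀ γ v)
        nlinarith
      have e4 : ‖⟪y - c • θ, v⟫_ℂ‖ ≤ δ₁ / 16 * ‖ρ₀ γ‖ * ‖v‖ := by
        refine (norm_inner_le_norm _ _).trans ?_
        gcongr
      linarith
    have h6 : (‖ρ₀ γ‖ / 2 - δ₁ / 16 * ‖ρ₀ γ‖) * (δ₁ / 2 * ‖v‖) ≤ ‖c‖ * ‖⟪θ, v⟫_ℂ‖ := by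
      gcongr
    have hP : 0 ≤ ‖ρ₀ γ‖ * ‖v‖ := by positivity
    have h7 : δ₁ * δ₁ * (‖ρ₀ γ‖ * ‖v‖) ≤ δ₁ * (‖ρ₀ γ‖ * ‖v‖) := by
      apply mul_le_mul_of_nonneg_right _ hP
      nlinarith
    have h8 : 0 ≤ δ₁ * (‖ρ₀ γ‖ * ‖v‖) := by positivity
    rw [hβ]
    nlinarith
  -- invariance of cones
  have hinv : ∀ g ∈ F.D, ∀ γ, F.Q g n γ → ∀ v, Cone ((F.φ γ)⁻¹ * g * F.a ^ n) v →
      Cone g (ρ γ v) := by
    intro g hg γ hγ v hv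
    refine ⟨rep_apply_ne_zero ρ γ hv.1, ?_⟩
    have h1 := hlow g hg γ hγ v hv
    have h2 := hun1 g hg _ (F.norm_topv hρ₀ g) (F.isTop_topv hρ₀ g) n γ hγ v
    have h3 := hclose γ (hmemT g hg γ hγ)
    have h4 := hm₀' γ (hmemT g hg γ hγ)
    have hv0 : 0 ≤ ‖v‖ := norm_nonneg v
    have h5 : ‖ρ γ v - ρ₀ γ v‖ ≤ δ' / 4 * ‖ρ₀ γ v‖ := by
      calc ‖ρ γ v - ρ₀ γ v‖ = ‖(ρ γ - ρ₀ γ) v‖ := rfl
        _ ≤ ‖ρ γ - ρ₀ γ‖ * ‖v‖ := ContinuousLinearMap.le_opNorm _ _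
        _ ≤ (β * δ' / 4 * ‖ρ₀ γ‖) * ‖v‖ := by
            gcongr
            refine h3.trans ?_
            gcongr
        _ = δ' / 4 * (β * ‖ρ₀ γ‖ * ‖v‖) := by ring
        _ ≤ _ := by gcongr
    have h6 : S (F.topv hρ₀ g) (ρ₀ γ v) ≤ δ' / 4 * ‖ρ₀ γ v‖ := by
      refine h2.trans ?_
      calc C * q ^ n * ‖ρ₀ γ‖ * ‖v‖ ≤ β * δ' / 4 * ‖ρ₀ γ‖ * ‖v‖ := by gcongr
        _ = δ' / 4 * (β * ‖ρ₀ γ‖ * ‖v‖) := by ring
        _ ≤ _ := by gcongr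
    have h7 : S (F.topv hρ₀ g) (ρ γ v) ≤ δ' / 2 * ‖ρ₀ γ v‖ := by
      have e : ρ γ v = ρ₀ γ v + (ρ γ v - ρ₀ γ v) := by abel
      rw [e]
      refine (S_add_le _ _ _).trans ?_
      have := S_le_norm (F.norm_topv hρ₀ g) (ρ γ v - ρ₀ γ v)
      linarith
    have h8 : ‖ρ₀ γ v‖ ≤ ‖ρ γ v‖ + δ' / 4 * ‖ρ₀ γ v‖ := by
      have : ‖ρ₀ γ v‖ ≤ ‖ρ γ v‖ + ‖ρ γ v - ρ₀ γ v‖ := by
        calc ‖ρ₀ γ v‖ = ‖ρ γ v - (ρ γ v - ρ₀ γ v)‖ := by rw [sub_sub_cancel]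
          _ ≤ _ := norm_sub_le _ _
      linarith
    have h9 : 0 ≤ ‖ρ₀ γ v‖ := norm_nonneg _
    have h10 : ‖ρ₀ γ v‖ ≤ 2 * ‖ρ γ v‖ := by nlinarith
    calc S (F.topv hρ₀ g) (ρ γ v) ≤ δ' / 2 * ‖ρ₀ γ v‖ := h7
      _ ≤ δ' / 2 * (2 * ‖ρ γ v‖) := by gcongr
      _ = _ := by ring
  -- iteration
  have hiter : ∀ m : ℕ, ∀ g ∈ F.D, ∃ γ, F.Q g (n * m) γ ∧
      ∀ v, Cone ((F.φ γ)⁻¹ * g * F.a ^ (n * m)) v → Cone g (ρ γ v) := by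
    intro m
    induction m with
    | zero =>
      intro g hg
      refine ⟨1, ?_, ?_⟩
      · unfold FlowData.Q
        simpa using hg
      · intro v hv
        simpa using hv
    | succ m ih =>
      intro g hg
      obtain ⟨γ, hγ⟩ := F.exists_Q g n
      obtain ⟨η, hη, hη'⟩ := ih _ hγ
      have e : (F.φ (γ * η))⁻¹ * g * F.a ^ (n * (m + 1)) =
          (F.φ η)⁻¹ * ((F.φ γ)⁻¹ * g * F.a ^ n) * F.a ^ (n * m) := by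
        rw [mul_add, mul_one, add_comm, pow_add, map_mul, mul_inv_rev]
        simp only [mul_assoc]
      refine ⟨γ * η, ?_, fun v hv => ?_⟩
      · unfold FlowData.Q
        rw [e]
        exact hη
      · rw [e] at hv
        rw [rep_mul_apply]
        exact hinv g hg γ hγ _ (hη' v hv)
  -- conclusion
  intro g hg
  refine le_trans ?_ (min_le_left δ (δ₁ / 4))
  rw [← hδ']
  apply le_of_forall_pos_le_add
  intro ε hε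
  set τ : ℝ := δ' / 2 with hτ
  have hτ0 : 0 < τ := by positivity
  obtain ⟨n₀, hn₀⟩ := (F.isTop_topv hρ g).2 (ε * τ / 4) (by positivity)
  obtain ⟨γ, hγ, hcone⟩ := hiter n₀ g hg
  have hnn : n₀ ≤ n * n₀ := Nat.le_mul_of_pos_left _ hn3
  have hest := hn₀ _ hnn γ hγ
  set d := (F.φ γ)⁻¹ * g * F.a ^ (n * n₀) with hd
  set ud := F.topv hρ₀ d with hud
  have hudn : ‖ud‖ = 1 := F.norm_topv _ _
  have hBn : 0 < ‖ρ γ‖ := norm_pos_iff.2 (rep_ne_zero ρ γ)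
  obtain ⟨x, hx, hx'⟩ := exists_half (rep_ne_zero ρ γ)
  -- a cone vector with large image
  obtain ⟨s, hs, hlarge⟩ : ∃ s : ℂ, ‖s‖ = τ ∧ τ / 2 * ‖ρ γ‖ ≤ ‖ρ γ (ud + s • x)‖ := by
    by_contra hcon
    push Not at hcon
    have k1 := hcon (τ : ℂ) (by rw [Complex.norm_real, Real.norm_of_nonneg hτ0.le])
    have k2 := hcon (-(τ : ℂ)) (by
      rw [norm_neg, Complex.norm_real, Real.norm_of_nonneg hτ0.le])
    have k3 : (2 * (τ : ℂ)) • ρ γ x = ρ γ (ud + (τ : ℂ) • x) - ρ γ (ud + (-(τ : ℂ)) • x) := by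
      rw [← map_sub, ← map_smul]
      congr 1
      rw [two_mul, add_smul, neg_smul]
      abel
    have k4 : 2 * τ * ‖ρ γ x‖ = ‖(2 * (τ : ℂ)) • ρ γ x‖ := by
      rw [norm_smul, norm_mul, Complex.norm_real, Real.norm_of_nonneg hτ0.le]
      simp
    have k5 : 2 * τ * ‖ρ γ x‖ ≤ ‖ρ γ (ud + (τ : ℂ) • x)‖ + ‖ρ γ (ud + (-(τ : ℂ)) • x)‖ := by
      rw [k4, k3]
      exact norm_sub_le _ _
    have k6 : 2 * τ * (‖ρ γ‖ / 2) < 2 * τ * ‖ρ γ x‖ := by gcongr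
    linarith
  set v := ud + s • x with hv
  have hsx : ‖s • x‖ ≤ τ := by
    rw [norm_smul, hs]
    calc τ * ‖x‖ ≤ τ * 1 := by gcongr
      _ = τ := mul_one _
  have hvn1 : ‖v‖ ≤ 2 := by
    have : ‖v‖ ≤ ‖ud‖ + ‖s • x‖ := norm_add_le _ _
    rw [hudn] at this
    linarith
  have hvn2 : 1 / 2 ≤ ‖v‖ := by
    have : ‖ud‖ ≤ ‖v‖ + ‖s • x‖ := by
      calc ‖ud‖ = ‖v - s • x‖ := by rw [hv, add_sub_cancel_right]
        _ ≤ _ := norm_sub_le _ _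
    rw [hudn] at this
    linarith
  have hcv : Cone d v := by
    refine ⟨by
      intro h0
      rw [h0, norm_zero] at hvn2
      linarith, ?_⟩
    have h1 : S ud v ≤ τ := by
      have : S ud v ≤ S ud ud + S ud (s • x) := S_add_le _ _ _
      rw [S_self hudn, zero_add] at this
      exact this.trans ((S_le_norm hudn _).trans hsx)
    refine h1.trans ?_
    rw [hτ]
    nlinarith
  have hcz := hcone v hcv
  obtain ⟨c, hc⟩ := hest v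
  have hz2 : S (F.topv hρ g) (ρ γ v) ≤ ε * ‖ρ γ v‖ := by
    refine (S_le_of (F.norm_topv hρ g) _ c).trans (hc.trans ?_)
    calc ε * τ / 4 * ‖ρ γ‖ * ‖v‖ ≤ ε * τ / 4 * ‖ρ γ‖ * 2 := by gcongr
      _ = ε * (τ / 2 * ‖ρ γ‖) := by ring
      _ ≤ ε * ‖ρ γ v‖ := by gcongr
  exact S_le_of_common (F.norm_topv hρ₀ g) (F.norm_topv hρ g) hcz.1 hcz.2 hz2

end Pool.Agent.Hhelper63.Anosov
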