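import Mathlib

/-!
Distances between complex lines and the gap condition for operators.
-/

namespace Pool.Agent.Hhelper63.Anosov

open scoped InnerProductSpace

variable {V : Type*} [NormedAddCommGroup V] [InnerProductSpace ℂ V]

/-- The distance from `x` to the line spanned by the unit vector `u`. -/
noncomputable def S (u x : V) : ℝ := ‖x - ⟪u, x⟫_ℂ • u‖

theorem S_nonneg (u x : V) : 0 ≤ S u x := norm_nonneg _

theorem S_smul (u x : V) (c : ℂ) : S u (c • x) = ‖c‖ * S u x := by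
  unfold S
  rw [inner_smul_right, mul_smul, ← smul_sub, norm_smul]

theorem S_add_le (u x y : V) : S u (x + y) ≤ S u x + S u y := by
  unfold S
  rw [inner_add_right, add_smul]
  calc ‖x + y - (⟪u, x⟫_ℂ • u + ⟪u, y⟫_ℂ • u)‖
      = ‖(x - ⟪u, x⟫_ℂ • u) + (y - ⟪u, y⟫_ℂ • u)‖ := by congr 1; abel
    _ ≤ _ := norm_add_le _ _

theorem inner_perp {u : V} (hu : ‖u‖ = 1) (x : V) : ⟪u, x - ⟪u, x⟫_ℂ • u⟫_ℂ = 0 := by
  rw [inner_sub_right, inner_smul_right, inner_self_eq_norm_sq_to_K, hu]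
  simp

theorem S_sq {u : V} (hu : ‖u‖ = 1) (x : V) : S u x ^ 2 = ‖x‖ ^ 2 - ‖⟪u, x⟫_ℂ‖ ^ 2 := by
  have h : ‖x‖ ^ 2 = ‖⟪u, x⟫_ℂ • u‖ ^ 2 + ‖x - ⟪u, x⟫_ℂ • u‖ ^ 2 := by
    have h1 : ⟪⟪u, x⟫_ℂ • u, x - ⟪u, x⟫_ℂ • u⟫_ℂ = 0 := by
      rw [inner_smul_left, inner_perp hu, mul_zero]
    have h2 := norm_add_sq_eq_norm_sq_add_norm_sq_of_inner_eq_zero _ _ h1
    have h3 : ⟪u, x⟫_ℂ • u + (x - ⟪u, x⟫_ℂ • u) = x := by abel
    rw [h3] at h2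
    nlinarith [h2]
  rw [norm_smul, hu, mul_one] at h
  unfold S
  linarith

theorem S_le_norm {u : V} (hu : ‖u‖ = 1) (x : V) : S u x ≤ ‖x‖ := by
  have h := S_sq hu x
  have h1 : S u x ^ 2 ≤ ‖x‖ ^ 2 := by nlinarith [sq_nonneg ‖⟪u, x⟫_ℂ‖]
  exact le_of_sq_le_sq h1 (norm_nonneg _)

theorem S_self {u : V} (hu : ‖u‖ = 1) : S u u = 0 := by
  unfold S
  rw [inner_self_eq_norm_sq_to_K, hu]
  simp

theorem S_sub_smul {u : V} (hu : ‖u‖ = 1) (x : V) (c : ℂ) : S u (x - c • u) = S u x := by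
  unfold S
  rw [inner_sub_right, inner_smul_right, inner_self_eq_norm_sq_to_K, hu]
  congr 1
  simp only [Complex.coe_algebraMap, Complex.ofReal_one, one_pow, mul_one, sub_smul]
  abel

theorem S_le_of {u : V} (hu : ‖u‖ = 1) (x : V) (c : ℂ) : S u x ≤ ‖x - c • u‖ := by
  rw [← S_sub_smul hu x c]
  exact S_le_norm hu _

theorem S_symm {u v : V} (hu : ‖u‖ = 1) (hv : ‖v‖ = 1) : S u v = S v u := by
  have h1 := S_sq hu v
  have h2 := S_sq hv u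
  rw [hv] at h1
  rw [hu] at h2
  have h3 : ‖⟪u, v⟫_ℂ‖ = ‖⟪v, u⟫_ℂ‖ := norm_inner_symm _ _
  rw [h3] at h1
  exact (sq_eq_sq₀ (S_nonneg _ _) (S_nonneg _ _)).1 (h1.trans h2.symm)

theorem S_triangle {u v : V} (hu : ‖u‖ = 1) (hv : ‖v‖ = 1) (x : V) :
    S u x ≤ S v x + ‖x‖ * S u v := by
  have h1 : x = (x - ⟪v, x⟫_ℂ • v) + ⟪v, x⟫_ℂ • v := by abel
  have h2 : S u x ≤ S u (x - ⟪v, x⟫_ℂ • v) + S u (⟪v, x⟫_ℂ • v) := by
    conv_lhs => rw [h1]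
    exact S_add_le _ _ _
  have h3 : S u (x - ⟪v, x⟫_ℂ • v) ≤ S v x := S_le_norm hu _
  have h4 : S u (⟪v, x⟫_ℂ • v) ≤ ‖x‖ * S u v := by
    rw [S_smul]
    apply mul_le_mul_of_nonneg_right _ (S_nonneg _ _)
    calc ‖⟪v, x⟫_ℂ‖ ≤ ‖v‖ * ‖x‖ := norm_inner_le_norm _ _
      _ = ‖x‖ := by rw [hv, one_mul]
  linarith

/-- if a nonzero vector `z` is close to both lines then the lines are close. -/
theorem S_le_of_common {u v z : V} (hu : ‖u‖ = 1) (hv : ‖v‖ = 1) (hz : z ≠ 0) {α β : ℝ}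
    (h1 : S u z ≤ α * ‖z‖) (h2 : S v z ≤ β * ‖z‖) : S u v ≤ α + β := by
  have hz' : 0 < ‖z‖ := norm_pos_iff.2 hz
  set y : V := ((‖z‖⁻¹ : ℝ) : ℂ) • z with hy
  have hyn : ‖y‖ = 1 := by
    rw [hy, norm_smul, Complex.norm_real, norm_inv, norm_norm, inv_mul_cancel₀ hz'.ne']
  have h3 : S u y ≤ α := by
    rw [hy, S_smul, Complex.norm_real, norm_inv, norm_norm, inv_mul_le_iff₀ hz', mul_comm]
    exact h1
  have h4 : S v y ≤ β := by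
    rw [hy, S_smul, Complex.norm_real, norm_inv, norm_norm, inv_mul_le_iff₀ hz', mul_comm]
    exact h2
  have h5 := S_triangle hu hyn v
  rw [hv, one_mul, S_symm hyn hv] at h5
  linarith

theorem S_triangle' {u v w : V} (hu : ‖u‖ = 1) (hv : ‖v‖ = 1) (hw : ‖w‖ = 1) :
    S u w ≤ S u v + S v w := by
  have := S_triangle hu hv w
  rw [hw, one_mul] at this
  linarith

/-- The inner product with a unit vector changes little along close lines. -/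
theorem norm_inner_le_add {u v x : V} (hu : ‖u‖ = 1) (hv : ‖v‖ = 1) (hx : ‖x‖ = 1) :
    ‖⟪x, u⟫_ℂ‖ ≤ ‖⟪x, v⟫_ℂ‖ + S v u := by
  have h1 : u = ⟪v, u⟫_ℂ • v + (u - ⟪v, u⟫_ℂ • v) := by abel
  calc ‖⟪x, u⟫_ℂ‖ = ‖⟪x, ⟪v, u⟫_ℂ • v + (u - ⟪v, u⟫_ℂ • v)⟫_ℂ‖ := by rw [← h1]
    _ = ‖⟪v, u⟫_ℂ * ⟪x, v⟫_ℂ + ⟪x, u - ⟪v, u⟫_ℂ • v⟫_ℂ‖ := by
        rw [inner_add_right, inner_smul_right]
    _ ≤ ‖⟪v, u⟫_ℂ * ⟪x, v⟫_ℂ‖ + ‖⟪x, u - ⟪v, u⟫_ℂ • v⟫_ℂ‖ := norm_add_le _ _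
    _ ≤ ‖⟪x, v⟫_ℂ‖ + S v u := by
        gcongr
        · rw [norm_mul]
          have : ‖⟪v, u⟫_ℂ‖ ≤ 1 := by
            calc ‖⟪v, u⟫_ℂ‖ ≤ ‖v‖ * ‖u‖ := norm_inner_le_norm _ _
              _ = 1 := by rw [hu, hv, one_mul]
          nlinarith [norm_nonneg ⟪x, v⟫_ℂ]
        · calc ‖⟪x, u - ⟪v, u⟫_ℂ • v⟫_ℂ‖ ≤ ‖x‖ * ‖u - ⟪v, u⟫_ℂ • v‖ := norm_inner_le_norm _ _
            _ = S v u := by rw [hx, one_mul]; rfl

/-- The gap condition: the image of `B` is close to a line, relative to the norm of `B`. -/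
def GapLe (B : V →L[ℂ] V) (ε : ℝ) : Prop :=
  ∃ u : V, ‖u‖ = 1 ∧ ∀ x, S u (B x) ≤ ε * ‖B‖ * ‖x‖

theorem GapLe.mono {B : V →L[ℂ] V} {ε ε' : ℝ} (h : GapLe B ε) (he : ε ≤ ε') : GapLe B ε' := by
  obtain ⟨u, hu, hx⟩ := h
  refine ⟨u, hu, fun x => (hx x).trans ?_⟩
  gcongr

theorem exists_half {B : V →L[ℂ] V} (hB : B ≠ 0) : ∃ x : V, ‖x‖ ≤ 1 ∧ ‖B‖ / 2 < ‖B x‖ := by
  have hB' : 0 < ‖B‖ := norm_pos_iff.2 hB
  obtain ⟨x, hx, hx'⟩ := B.exists_lt_apply_of_lt_opNorm (by linarith : ‖B‖ / 2 < ‖B‖)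
  exact ⟨x, hx.le, hx'⟩

/-- Comparison of the top directions of `B` and `B ∘ A`. -/
theorem dirs_close {B A : V →L[ℂ] V} {K ε ε' : ℝ} {u u' : V} (hu : ‖u‖ = 1) (hu' : ‖u'‖ = 1)
    (hBA : B ∘L A ≠ 0) (hA : ‖A‖ ≤ K) (hB : ‖B‖ ≤ K * ‖B ∘L A‖) (hε : 0 ≤ ε)
    (hε' : 0 ≤ ε')
    (h : ∀ x, S u (B x) ≤ ε * ‖B‖ * ‖x‖)
    (h' : ∀ x, S u' ((B ∘L A) x) ≤ ε' * ‖B ∘L A‖ * ‖x‖) : S u u' ≤ 2 * (ε' + K ^ 2 * ε) := by
  obtain ⟨x, hx, hx'⟩ := exists_half hBA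
  set z := (B ∘L A) x with hz
  have hn : 0 < ‖B ∘L A‖ := norm_pos_iff.2 hBA
  have hz0 : z ≠ 0 := by
    intro h0
    rw [h0, norm_zero] at hx'
    linarith
  have hK : 0 ≤ K := (norm_nonneg _).trans hA
  have h1 : S u z ≤ (2 * K ^ 2 * ε) * ‖z‖ := by
    calc S u z = S u (B (A x)) := rfl
      _ ≤ ε * ‖B‖ * ‖A x‖ := h _
      _ ≤ ε * (K * ‖B ∘L A‖) * (K * 1) := by
          gcongr
          exact (A.le_opNorm x).trans (mul_le_mul hA hx (norm_nonneg _) hK)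
      _ = K ^ 2 * ε * ‖B ∘L A‖ := by ring
      _ ≤ K ^ 2 * ε * (2 * ‖z‖) := by
          gcongr
          linarith
      _ = _ := by ring
  have h2 : S u' z ≤ (2 * ε') * ‖z‖ := by
    calc S u' z ≤ ε' * ‖B ∘L A‖ * ‖x‖ := h' _
      _ ≤ ε' * (2 * ‖z‖) * 1 := by
          gcongr
          linarith
      _ = _ := by ring
  have := S_le_of_common hu hu' hz0 h1 h2
  linarith

/-- Transfer of the gap estimate from `u` to a nearby `v`. -/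
theorem gap_transfer {B : V →L[ℂ] V} {ε δ : ℝ} {u v : V} (hu : ‖u‖ = 1) (hv : ‖v‖ = 1)
    (h : ∀ x, S u (B x) ≤ ε * ‖B‖ * ‖x‖) (hδ : S u v ≤ δ) (x : V) :
    S v (B x) ≤ (ε + δ) * ‖B‖ * ‖x‖ := by
  have h1 := S_triangle hv hu (B x)
  have h2 : ‖B x‖ * S v u ≤ (‖B‖ * ‖x‖) * δ := by
    rw [S_symm hv hu]
    exact mul_le_mul (B.le_opNorm x) hδ (S_nonneg _ _) (by positivity)
  have h3 := h x
  nlinarith

theorem GapLe.adjoint [CompleteSpace V] {B : V →L[ℂ] V} {ε : ℝ}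
    (h : GapLe B ε) : GapLe (ContinuousLinearMap.adjoint B) ε := by
  obtain ⟨u, hu, hx⟩ := h
  have hnorm : ‖ContinuousLinearMap.adjoint B‖ = ‖B‖ :=
    LinearIsometryEquiv.norm_map _ _
  -- key estimate
  have key : ∀ x : V, ‖ContinuousLinearMap.adjoint B x - ⟪u, x⟫_ℂ •
      ContinuousLinearMap.adjoint B u‖ ≤ ε * ‖B‖ * ‖x‖ := by
    intro x
    set y := ContinuousLinearMap.adjoint B x - ⟪u, x⟫_ℂ • ContinuousLinearMap.adjoint B u with hy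
    have h1 : ⟪y, y⟫_ℂ = ⟪x, B y - ⟪u, B y⟫_ℂ • u⟫_ℂ := by
      conv_lhs => rw [hy]
      rw [inner_sub_left, inner_smul_left, ContinuousLinearMap.adjoint_inner_left,
        ContinuousLinearMap.adjoint_inner_left, inner_sub_right, inner_smul_right]
      rw [inner_conj_symm]
      ring
    have h2 : ‖y‖ ^ 2 ≤ ‖x‖ * (ε * ‖B‖ * ‖y‖) := by
      calc ‖y‖ ^ 2 = ‖⟪y, y⟫_ℂ‖ := by rw [inner_self_eq_norm_sq_to_K]; simp
        _ = ‖⟪x, B y - ⟪u, B y⟫_ℂ • u⟫_ℂ‖ := by rw [h1]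
        _ ≤ ‖x‖ * ‖B y - ⟪u, B y⟫_ℂ • u‖ := norm_inner_le_norm _ _
        _ ≤ ‖x‖ * (ε * ‖B‖ * ‖y‖) := by
            gcongr
            exact hx y
    by_cases hy0 : y = 0
    · rw [hy0, norm_zero]
      have h3 := (S_nonneg u (B x)).trans (hx x)
      exact h3
    · have hyp : 0 < ‖y‖ := norm_pos_iff.2 hy0
      nlinarith
  by_cases hz : ContinuousLinearMap.adjoint B u = 0
  · refine ⟨u, hu, fun x => (S_le_norm hu _).trans ?_⟩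
    have := key x
    rw [hz, smul_zero, sub_zero] at this
    rw [hnorm]
    exact this
  · have hzp : 0 < ‖ContinuousLinearMap.adjoint B u‖ := norm_pos_iff.2 hz
    set v : V := ((‖ContinuousLinearMap.adjoint B u‖⁻¹ : ℝ) : ℂ) • ContinuousLinearMap.adjoint B u
      with hv
    have hvn : ‖v‖ = 1 := by
      rw [hv, norm_smul, Complex.norm_real, norm_inv, norm_norm, inv_mul_cancel₀ hzp.ne']
    refine ⟨v, hvn, fun x => ?_⟩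
    have h5 : ⟪u, x⟫_ℂ • ContinuousLinearMap.adjoint B u =
        (⟪u, x⟫_ℂ * ((‖ContinuousLinearMap.adjoint B u‖ : ℝ) : ℂ)) • v := by
      rw [hv, smul_smul, mul_assoc, ← Complex.ofReal_mul, mul_inv_cancel₀ hzp.ne']
      simp
    have h6 := key x
    rw [h5] at h6
    rw [hnorm]
    exact (S_le_of hvn _ _).trans h6

end Pool.Agent.Hhelper63.Anosov
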