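import Pool.Agent.Hhelper63.Anosov.Top

/-!
Invariant mean on continuous `Γ`-invariant functions on `G`, for a discrete cocompact `φ`.
-/

namespace Pool.Agent.Hhelper63.Anosov

open scoped Pointwise Topology
open MeasureTheory

variable {Γ G : Type*} [Group Γ] [Group G] [TopologicalSpace G] [IsTopologicalGroup G]
  (F : FlowData Γ G)

theorem FlowData.locallyFinite_of_hasCompactSupport {χ : G → ℝ} (hχs : HasCompactSupport χ) :
    LocallyFinite fun γ : Γ => Function.support fun g : G => χ ((F.φ γ)⁻¹ * g) := by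
  intro g₀
  obtain ⟨γ₀, hγ₀⟩ := F.cover g₀
  refine ⟨{g | (F.φ γ₀)⁻¹ * g ∈ interior F.D}, ?_, ?_⟩
  · have hc : Continuous fun g : G => (F.φ γ₀)⁻¹ * g := by fun_prop
    exact (isOpen_interior.preimage hc).mem_nhds hγ₀
  · have hfin := F.proper _ (F.compact.mul hχs.isCompact.inv)
    refine (hfin.image (fun η => γ₀ * η)).subset ?_
    rintro γ ⟨g, hg1, hg2⟩
    refine ⟨γ₀⁻¹ * γ, ?_, by simp⟩
    change F.φ (γ₀⁻¹ * γ) ∈ F.D * (tsupport χ)⁻¹
    have e : F.φ (γ₀⁻¹ * γ) = ((F.φ γ₀)⁻¹ * g) * ((F.φ γ)⁻¹ * g)⁻¹ := by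
      rw [map_mul, map_inv]; group
    rw [e]
    exact Set.mul_mem_mul (interior_subset hg2)
      (Set.inv_mem_inv.2 (subset_tsupport _ hg1))

theorem FlowData.exists_partition [T2Space G] [LocallyCompactSpace G] :
    ∃ χ : G → ℝ, Continuous χ ∧ HasCompactSupport χ ∧ (∀ g, 0 ≤ χ g) ∧
      ∀ g, ∑ᶠ γ : Γ, χ ((F.φ γ)⁻¹ * g) = 1 := by
  obtain ⟨χ₀, h1, -, hcs, h01⟩ := exists_continuous_one_zero_of_isCompact F.compact
    isClosed_empty (Set.disjoint_empty _)
  have hlf := F.locallyFinite_of_hasCompactSupport hcs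
  set Z : G → ℝ := fun g => ∑ᶠ γ : Γ, χ₀ ((F.φ γ)⁻¹ * g) with hZ
  have hZc : Continuous Z := by
    apply continuous_finsum
    · intro γ
      have hc : Continuous fun g : G => (F.φ γ)⁻¹ * g := by fun_prop
      exact χ₀.continuous.comp hc
    · exact hlf
  have hZe : ∀ η g, Z ((F.φ η)⁻¹ * g) = Z g := by
    intro η g
    rw [hZ]
    simp only
    rw [← finsum_comp_equiv (Equiv.mulLeft η) (f := fun γ : Γ => χ₀ ((F.φ γ)⁻¹ * g))]
    apply finsum_congr
    intro γ
    rw [Equiv.coe_mulLeft]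
    congr 1
    rw [map_mul]
    group
  have hZpos : ∀ g, 0 < Z g := by
    intro g
    obtain ⟨γ, hγ⟩ := F.cover g
    rw [← hZe γ g]
    have h2 : χ₀ ((F.φ 1)⁻¹ * ((F.φ γ)⁻¹ * g)) ≤ Z ((F.φ γ)⁻¹ * g) :=
      single_le_finsum 1 (hlf.point_finite _) (fun η => (h01 _).1)
    rw [map_one, inv_one, one_mul, h1 (interior_subset hγ)] at h2
    exact one_pos.trans_le h2
  refine ⟨fun g => χ₀ g / Z g, χ₀.continuous.div hZc fun g => (hZpos g).ne', ?_,
    fun g => div_nonneg (h01 g).1 (hZpos g).le, fun g => ?_⟩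
  · have : (fun g => χ₀ g / Z g) = fun g => χ₀ g * (Z g)⁻¹ := by
      ext g
      rw [div_eq_mul_inv]
    rw [this]
    exact hcs.mul_right
  · have e : ∀ γ : Γ, χ₀ ((F.φ γ)⁻¹ * g) / Z ((F.φ γ)⁻¹ * g) =
        χ₀ ((F.φ γ)⁻¹ * g) * (Z g)⁻¹ := by
      intro γ
      rw [hZe, div_eq_mul_inv]
    rw [finsum_congr e, ← finsum_mul (fun γ : Γ => χ₀ ((F.φ γ)⁻¹ * g)) (Z g)⁻¹]
    exact mul_inv_cancel₀ (hZpos g).ne'

/-- Invariant mean. -/
theorem FlowData.exists_mean [T2Space G] [LocallyCompactSpace G] :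
    ∃ J : (G → ℝ) → ℝ, (∀ c : ℝ, J (fun _ => c) = c) ∧
      (∀ f₁ f₂ : G → ℝ, Continuous f₁ → Continuous f₂ →
        J (fun g => f₁ g + f₂ g) = J f₁ + J f₂) ∧
      (∀ f : G → ℝ, Continuous f → (∀ γ g, f (F.φ γ * g) = f g) →
        ∀ h, J (fun g => f (g * h)) = J f) := by
  borelize G
  obtain ⟨χ, hχ, hχs, hχ0, hχ1⟩ := F.exists_partition
  let μ : Measure G := Measure.haar
  have hlf := F.locallyFinite_of_hasCompactSupport hχs
  -- positivity
  have hne : χ ≠ 0 := by
    intro h0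
    have := hχ1 1
    rw [h0] at this
    simp at this
  have hpos : 0 < ∫ g, χ g ∂μ := by
    have : ∃ x, χ x ≠ 0 := by
      by_contra hcon
      push Not at hcon
      exact hne (funext hcon)
    obtain ⟨x, hx⟩ := this
    exact hχ.integral_pos_of_hasCompactSupport_nonneg_nonzero hχs hχ0 hx
  have hint : ∀ f : G → ℝ, Continuous f → Integrable (fun g => χ g * f g) μ := fun f hf =>
    (hχ.mul hf).integrable_of_hasCompactSupport hχs.mul_right
  -- unfolding
  have key : ∀ f : G → ℝ, Continuous f → (∀ γ g, f (F.φ γ * g) = f g) → ∀ h,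
      ∫ g, χ (g * h⁻¹) * f g ∂μ = ∫ g, χ g * f g ∂μ := by
    intro f hf hfi h
    have hfin := F.proper _ ((hχs.isCompact.mul (isCompact_singleton (x := h))).mul
      hχs.isCompact.inv)
    set T := hfin.toFinset with hT
    have hmem : ∀ γ, F.φ γ ∈ tsupport χ * {h} * (tsupport χ)⁻¹ → γ ∈ T := fun γ hγ => by
      rw [hT, Set.Finite.mem_toFinset]
      exact hγ
    have e1 : ∀ g, χ (g * h⁻¹) * f g =
        ∑ γ ∈ T, χ (g * h⁻¹) * χ ((F.φ γ)⁻¹ * g) * f g := by
      intro g
      by_cases h0 : χ (g * h⁻¹) = 0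
      · simp [h0]
      · have : ∑ᶠ γ : Γ, χ ((F.φ γ)⁻¹ * g) = ∑ γ ∈ T, χ ((F.φ γ)⁻¹ * g) := by
          apply finsum_eq_sum_of_support_subset
          intro γ hγ
          rw [Finset.mem_coe]
          apply hmem
          have e : F.φ γ = (g * h⁻¹) * h * ((F.φ γ)⁻¹ * g)⁻¹ := by group
          rw [e]
          exact Set.mul_mem_mul (Set.mul_mem_mul (subset_tsupport _ h0) rfl)
            (Set.inv_mem_inv.2 (subset_tsupport _ hγ))
        rw [← Finset.sum_mul, ← Finset.mul_sum, ← this, hχ1, mul_one]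
    have e2 : ∀ g, χ g * f g =
        ∑ γ ∈ T, χ (F.φ γ * g * h⁻¹) * χ g * f g := by
      intro g
      by_cases h0 : χ g = 0
      · simp [h0]
      · have h3 : ∑ᶠ γ : Γ, χ (F.φ γ * g * h⁻¹) = 1 := by
          rw [← hχ1 (g * h⁻¹), ← finsum_comp_equiv (Equiv.inv Γ)]
          apply finsum_congr
          intro γ
          rw [Equiv.inv_apply, map_inv, mul_assoc]
        have : ∑ᶠ γ : Γ, χ (F.φ γ * g * h⁻¹) = ∑ γ ∈ T, χ (F.φ γ * g * h⁻¹) := by
          apply finsum_eq_sum_of_support_subset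
          intro γ hγ
          rw [Finset.mem_coe]
          apply hmem
          have e : F.φ γ = (F.φ γ * g * h⁻¹) * h * g⁻¹ := by group
          rw [e]
          exact Set.mul_mem_mul (Set.mul_mem_mul (subset_tsupport _ hγ) rfl)
            (Set.inv_mem_inv.2 (subset_tsupport _ h0))
        rw [← Finset.sum_mul, ← Finset.sum_mul, ← this, h3, one_mul]
    have c1 : ∀ γ : Γ, Continuous fun g : G => (F.φ γ)⁻¹ * g := fun γ => by fun_prop
    have c2 : Continuous fun g : G => g * h⁻¹ := by fun_prop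
    have hcs2 : HasCompactSupport fun g => χ (g * h⁻¹) :=
      hχs.comp_homeomorph (Homeomorph.mulRight h⁻¹)
    calc ∫ g, χ (g * h⁻¹) * f g ∂μ
        = ∫ g, ∑ γ ∈ T, χ (g * h⁻¹) * χ ((F.φ γ)⁻¹ * g) * f g ∂μ :=
          integral_congr_ae (Filter.Eventually.of_forall e1)
      _ = ∑ γ ∈ T, ∫ g, χ (g * h⁻¹) * χ ((F.φ γ)⁻¹ * g) * f g ∂μ := by
          apply integral_finset_sum
          intro γ _
          have hcont : Continuous fun g => χ (g * h⁻¹) * χ ((F.φ γ)⁻¹ * g) * f g :=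
            ((hχ.comp c2).mul (hχ.comp (c1 γ))).mul hf
          refine hcont.integrable_of_hasCompactSupport ?_
          exact (hcs2.mul_right (f' := fun g => χ ((F.φ γ)⁻¹ * g))).mul_right
      _ = ∑ γ ∈ T, ∫ g, χ (F.φ γ * g * h⁻¹) * χ g * f g ∂μ := by
          apply Finset.sum_congr rfl
          intro γ _
          rw [← integral_mul_left_eq_self
            (fun g => χ (g * h⁻¹) * χ ((F.φ γ)⁻¹ * g) * f g) (F.φ γ)]
          apply integral_congr_ae (Filter.Eventually.of_forall fun g => ?_)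
          simp only [inv_mul_cancel_left, hfi]
      _ = ∫ g, ∑ γ ∈ T, χ (F.φ γ * g * h⁻¹) * χ g * f g ∂μ := by
          symm
          apply integral_finset_sum
          intro γ _
          have c3 : Continuous fun g : G => F.φ γ * g * h⁻¹ := by fun_prop
          have hcont : Continuous fun g => χ (F.φ γ * g * h⁻¹) * χ g * f g :=
            ((hχ.comp c3).mul hχ).mul hf
          refine hcont.integrable_of_hasCompactSupport ?_
          exact (hχs.mul_left (f := fun g => χ (F.φ γ * g * h⁻¹))).mul_right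
      _ = ∫ g, χ g * f g ∂μ :=
          (integral_congr_ae (Filter.Eventually.of_forall e2)).symm
  -- scaling
  have scale : ∀ h : G, ∃ c : ℝ, ∀ f : G → ℝ, Continuous f → (∀ γ g, f (F.φ γ * g) = f g) →
      ∫ g, χ g * f (g * h) ∂μ = c * ∫ g, χ g * f g ∂μ := by
    intro h
    refine ⟨(Measure.haarScalarFactor (Measure.map (fun x => x * h) μ) μ : ℝ),
      fun f hf hfi => ?_⟩
    have hcs2 : HasCompactSupport fun g => χ (g * h⁻¹) :=
      hχs.comp_homeomorph (Homeomorph.mulRight h⁻¹)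
    have c2 : Continuous fun g : G => g * h⁻¹ := by fun_prop
    have hH : Continuous fun g => χ (g * h⁻¹) * f g := (hχ.comp c2).mul hf
    have hHs : HasCompactSupport fun g => χ (g * h⁻¹) * f g := hcs2.mul_right
    have a1 := Measure.integral_isMulLeftInvariant_eq_smul_of_hasCompactSupport
      (Measure.map (fun x => x * h) μ) μ hH hHs
    have a2 : ∫ x, χ (x * h⁻¹) * f x ∂(Measure.map (fun x => x * h) μ) =
        ∫ g, χ g * f (g * h) ∂μ := by
      have hme : MeasurableEmbedding (fun x : G => x * h) :=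
        (Homeomorph.mulRight h).measurableEmbedding
      rw [hme.integral_map]
      apply integral_congr_ae (Filter.Eventually.of_forall fun g => ?_)
      simp only [mul_inv_cancel_right]
    rw [← a2, a1, ← key f hf hfi h]
    rw [integral_smul_nnreal_measure]
    rfl
  have scale1 : ∀ h : G, ∀ f : G → ℝ, Continuous f → (∀ γ g, f (F.φ γ * g) = f g) →
      ∫ g, χ g * f (g * h) ∂μ = ∫ g, χ g * f g ∂μ := by
    intro h f hf hfi
    obtain ⟨c, hc⟩ := scale h
    have h1 := hc (fun _ => 1) continuous_const (fun _ _ => rfl)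
    simp only [mul_one] at h1
    have hc1 : c = 1 := by
      have : (c - 1) * ∫ g, χ g ∂μ = 0 := by linarith
      rcases mul_eq_zero.1 this with h2 | h2
      · linarith
      · exact absurd h2 hpos.ne'
    rw [hc f hf hfi, hc1, one_mul]
  refine ⟨fun f => (∫ g, χ g * f g ∂μ) / ∫ g, χ g ∂μ, fun c => ?_, fun f₁ f₂ hf₁ hf₂ => ?_,
    fun f hf hfi h => ?_⟩
  · simp only
    rw [integral_mul_const, mul_comm, mul_div_assoc, div_self hpos.ne', mul_one]
  · simp only
    rw [← add_div, ← integral_add (hint f₁ hf₁) (hint f₂ hf₂)]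
    congr 1
    apply integral_congr_ae (Filter.Eventually.of_forall fun g => ?_)
    simp only [mul_add]
  · simp only
    rw [scale1 h f hf hfi]

end Pool.Agent.Hhelper63.Anosov
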