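import Pool.Agent.Hhelper63.Anosov.Mean

/-!
There is no continuous nowhere vanishing function on `SL(2, ℝ)` which is invariant under a
discrete cocompact group on the left and odd.
-/

namespace Pool.Agent.Hhelper63.Anosov

open scoped Pointwise Topology
open Matrix

/-- The group `SL(2, ℝ)`. -/
abbrev SL2 := Matrix.SpecialLinearGroup (Fin 2) ℝ

instance : LocallyCompactSpace SL2 := by
  haveI : LocallyCompactSpace (Matrix (Fin 2) (Fin 2) ℝ) :=
    inferInstanceAs (LocallyCompactSpace (Fin 2 → Fin 2 → ℝ))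
  exact (SpecialLinearGroup.isClosedEmbedding_val (n := Fin 2) (R := ℝ)).locallyCompactSpace

instance : T2Space SL2 :=
  (SpecialLinearGroup.isClosedEmbedding_val (n := Fin 2) (R := ℝ)).isEmbedding.t2Space

theorem continuous_SL2_of {X : Type*} [TopologicalSpace X] {f : X → SL2}
    (h : ∀ i j, Continuous fun x => (f x).1 i j) : Continuous f :=
  continuous_induced_rng.2 (continuous_matrix h)

/-- upper unipotent -/
def upper (s : ℝ) : SL2 := ⟨!![1, s; 0, 1], by simp [Matrix.det_fin_two]⟩

/-- lower unipotent -/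
def lower (s : ℝ) : SL2 := ⟨!![1, 0; s, 1], by simp [Matrix.det_fin_two]⟩

/-- diagonal -/
noncomputable def dgt (t : ℝ) : SL2 := ⟨!![Real.exp t, 0; 0, Real.exp (-t)], by
  simp [Matrix.det_fin_two, ← Real.exp_add]⟩

/-- rotation -/
noncomputable def rot (t : ℝ) : SL2 := ⟨!![Real.cos t, -Real.sin t; Real.sin t, Real.cos t], by
  have := Real.cos_sq_add_sin_sq t
  simp [Matrix.det_fin_two]
  nlinarith⟩

theorem continuous_upper : Continuous upper := by
  apply continuous_SL2_of
  intro i j
  fin_cases i <;> fin_cases j <;> simp [upper] <;> fun_prop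

theorem continuous_lower : Continuous lower := by
  apply continuous_SL2_of
  intro i j
  fin_cases i <;> fin_cases j <;> simp [lower] <;> fun_prop

theorem continuous_dgt : Continuous dgt := by
  apply continuous_SL2_of
  intro i j
  fin_cases i <;> fin_cases j <;> simp [dgt] <;> fun_prop

theorem continuous_rot : Continuous rot := by
  apply continuous_SL2_of
  intro i j
  fin_cases i <;> fin_cases j <;> simp [rot] <;> fun_prop

theorem upper_zero : upper 0 = 1 := by
  ext i j
  fin_cases i <;> fin_cases j <;> simp [upper]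

theorem lower_zero : lower 0 = 1 := by
  ext i j
  fin_cases i <;> fin_cases j <;> simp [lower]

theorem dgt_zero : dgt 0 = 1 := by
  ext i j
  fin_cases i <;> fin_cases j <;> simp [dgt]

theorem rot_zero : rot 0 = 1 := by
  ext i j
  fin_cases i <;> fin_cases j <;> simp [rot]

theorem upper_add (s t : ℝ) : upper (s + t) = upper s * upper t := by
  ext i j
  fin_cases i <;> fin_cases j <;> simp [upper, Matrix.mul_apply, Fin.sum_univ_two, add_comm]

theorem lower_add (s t : ℝ) : lower (s + t) = lower s * lower t := by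
  ext i j
  fin_cases i <;> fin_cases j <;> simp [lower, Matrix.mul_apply, Fin.sum_univ_two]

theorem dgt_mul_neg (t : ℝ) : dgt t * dgt (-t) = 1 := by
  ext i j
  fin_cases i <;> fin_cases j <;> simp [dgt, Matrix.mul_apply, Fin.sum_univ_two, ← Real.exp_add]

theorem rot_add (s t : ℝ) : rot (s + t) = rot s * rot t := by
  ext i j
  fin_cases i <;> fin_cases j <;>
    simp [rot, Matrix.mul_apply, Fin.sum_univ_two, Real.cos_add, Real.sin_add] <;> ring

theorem rot_pi : rot Real.pi = -1 := by
  ext i j
  fin_cases i <;> fin_cases j <;> simp [rot]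

theorem dgt_conj_upper (t s : ℝ) :
    dgt t * upper s * dgt (-t) = upper (Real.exp (2 * t) * s) := by
  have h : Real.exp (2 * t) = Real.exp t * Real.exp t := by rw [← Real.exp_add]; ring_nf
  ext i j
  fin_cases i <;> fin_cases j <;>
    simp [dgt, upper, Matrix.mul_apply, Fin.sum_univ_two, ← Real.exp_add]
  rw [h]
  ring

theorem dgt_conj_lower (t s : ℝ) :
    dgt (-t) * lower s * dgt t = lower (Real.exp (2 * t) * s) := by
  have h : Real.exp (2 * t) = Real.exp t * Real.exp t := by rw [← Real.exp_add]; ring_nf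
  ext i j
  fin_cases i <;> fin_cases j <;>
    simp [dgt, lower, Matrix.mul_apply, Fin.sum_univ_two, ← Real.exp_add]
  rw [h]
  ring

theorem rot_decomp {t : ℝ} (ht : Real.cos (t / 2) ≠ 0) :
    rot t = upper (-Real.tan (t / 2)) * lower (Real.sin t) * upper (-Real.tan (t / 2)) := by
  have h1 : Real.sin t = 2 * Real.sin (t / 2) * Real.cos (t / 2) := by
    rw [← Real.sin_two_mul]; ring_nf
  have h2 : Real.cos t = 2 * Real.cos (t / 2) ^ 2 - 1 := by
    rw [← Real.cos_two_mul]; ring_nf
  have h3 := Real.sin_sq_add_cos_sq (t / 2)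
  have h4 : Real.sin (t / 2) ^ 2 = 1 - Real.cos (t / 2) ^ 2 := by linarith
  rw [Real.tan_eq_sin_div_cos]
  ext i j
  fin_cases i <;> fin_cases j <;>
    simp [rot, upper, lower, Matrix.mul_apply, Fin.sum_univ_two, h1, h2]
  · field_simp
    rw [h4]; ring
  · field_simp
    rw [h4]; ring
  · field_simp
    rw [h4]; ring

theorem upper_lower_upper {g : SL2} (hc : g.1 1 0 ≠ 0) :
    g = upper ((g.1 0 0 - 1) / g.1 1 0) * lower (g.1 1 0) * upper ((g.1 1 1 - 1) / g.1 1 0) := by
  have hdet := g.2
  rw [Matrix.det_fin_two] at hdet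
  ext i j
  fin_cases i <;> fin_cases j <;>
    simp [upper, lower, Matrix.mul_apply, Fin.sum_univ_two]
  · field_simp
    ring
  · field_simp
    linarith
  · field_simp
    ring

/-- a function constant along the unipotent one-parameter groups is constant -/
theorem const_of_unipotent {f : SL2 → ℝ} (hu : ∀ g s, f (g * upper s) = f g)
    (hl : ∀ g s, f (g * lower s) = f g) (g : SL2) : f g = f 1 := by
  have h1 : ∀ g : SL2, g.1 1 0 ≠ 0 → f g = f 1 := by
    intro g hc
    rw [upper_lower_upper hc, hu, hl]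
    conv_lhs => rw [← one_mul (upper _)]
    rw [hu]
  by_cases hc : g.1 1 0 = 0
  · have hdet := g.2
    rw [Matrix.det_fin_two, hc, mul_zero, sub_zero] at hdet
    have h2 : (g * lower 1).1 1 0 ≠ 0 := by
      have : (g * lower 1).1 1 0 = g.1 1 1 := by
        simp [lower, Matrix.mul_apply, Fin.sum_univ_two, hc]
      rw [this]
      intro h0
      rw [h0, mul_zero] at hdet
      exact zero_ne_one hdet
    rw [← hl g 1]
    exact h1 _ h2
  · exact h1 g hc

/-- A continuous real function with `exp (i f) = -1` is constant. -/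
theorem const_of_exp {c : ℝ → ℝ} (hc : Continuous c)
    (h : ∀ s, Complex.exp (Complex.I * c s) = -1) (s : ℝ) : c s = c 0 := by
  by_contra hne
  -- intermediate value
  set ε : ℝ := min (|c s - c 0|) 1 with hε
  have hpos : 0 < |c s - c 0| := abs_pos.2 (sub_ne_zero.2 hne)
  have hε0 : 0 < ε := lt_min hpos one_pos
  have hε1 : ε ≤ 1 := min_le_right _ _
  have hd : Continuous fun x => |c x - c 0| := (hc.sub continuous_const).abs
  have hmem : ε ∈ Set.Icc (|c 0 - c 0|) (|c s - c 0|) := by
    simp only [sub_self, abs_zero]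
    exact ⟨hε0.le, min_le_left _ _⟩
  have himg : ∃ x, |c x - c 0| = ε := by
    have := mem_range_of_exists_le_of_exists_ge hd ⟨0, hmem.1⟩ ⟨s, hmem.2⟩
    exact this
  obtain ⟨x, hx⟩ := himg
  have h1 : Complex.exp (Complex.I * c x) = Complex.exp (Complex.I * c 0) := by
    rw [h x, h 0]
  rw [Complex.exp_eq_exp_iff_exists_int] at h1
  obtain ⟨n, hn⟩ := h1
  have h2 : ((c x : ℝ) : ℂ) = c 0 + n * (2 * Real.pi) := by
    have hI : Complex.I ≠ 0 := Complex.I_ne_zero
    apply mul_left_cancel₀ hI
    rw [hn]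
    ring
  have h3 : c x = c 0 + n * (2 * Real.pi) := by exact_mod_cast h2
  have h4 : |(n : ℝ) * (2 * Real.pi)| = ε := by
    rw [← hx, h3]
    congr 1
    ring
  rw [abs_mul, abs_of_pos (by positivity : (0 : ℝ) < 2 * Real.pi)] at h4
  by_cases hn0 : n = 0
  · rw [hn0] at h4
    simp at h4
    linarith
  · have h5 : (1 : ℝ) ≤ |(n : ℝ)| := by
      have : 1 ≤ |n| := Int.one_le_abs hn0
      exact_mod_cast this
    have := Real.pi_gt_three
    nlinarith

/-- The main non-existence result. -/
theorem no_odd {Γ : Type*} [Group Γ] (F : FlowData Γ SL2) (f : SL2 → ℂ) (hf : Continuous f)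
    (h0 : ∀ g, f g ≠ 0) (hinv : ∀ γ g, f (F.φ γ * g) = f g) (hodd : ∀ g, f (g * (-1)) = -f g) :
    False := by
  obtain ⟨J, hJc, hJa, hJi⟩ := F.exists_mean
  -- the small neighbourhood
  have hU : ∃ U ∈ 𝓝 (1 : SL2), ∀ g, ∀ h ∈ U, 0 < (f (g * h) / f g).re := by
    have hcont : Continuous fun p : SL2 × SL2 => (f (p.2 * p.1) / f p.2).re := by
      refine Complex.continuous_re.comp (Continuous.div ?_ ?_ fun p => h0 _)
      · exact hf.comp (continuous_snd.mul continuous_fst)
      · exact hf.comp continuous_snd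
    have hev : ∀ᶠ h in 𝓝 (1 : SL2), ∀ g ∈ F.D, 0 < (f (g * h) / f g).re := by
      apply F.compact.eventually_forall_of_forall_eventually
      intro g _
      have h1 : 0 < (f (g * 1) / f g).re := by
        rw [mul_one, div_self (h0 g)]
        simp
      exact hcont.continuousAt.eventually (lt_mem_nhds h1)
    refine ⟨_, hev, fun g h hh => ?_⟩
    obtain ⟨γ, hγ⟩ := F.cover g
    have h2 := hh _ (interior_subset hγ)
    rw [mul_assoc, ← map_inv, hinv, hinv] at h2
    exact h2
  obtain ⟨U, hU1, hU⟩ := hU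
  have harg : ∀ g, ∀ h ∈ U, |(f (g * h) / f g).arg| < Real.pi / 2 := by
    intro g h hh
    rw [Complex.abs_arg_lt_pi_div_two_iff]
    exact Or.inl (hU g h hh)
  set δ : SL2 → SL2 → ℝ := fun h g => (f (g * h) / f g).arg with hδ
  have hδc : ∀ h ∈ U, Continuous (δ h) := by
    intro h hh
    rw [continuous_iff_continuousAt]
    intro g
    have h1 : Continuous fun g => f (g * h) / f g :=
      Continuous.div (hf.comp (continuous_mul_const h)) hf h0
    have h2 : f (g * h) / f g ∈ Complex.slitPlane := Or.inl (hU g h hh)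
    exact (Complex.continuousAt_arg h2).comp (f := fun g => f (g * h) / f g) h1.continuousAt
  have hδi : ∀ h γ g, δ h (F.φ γ * g) = δ h g := by
    intro h γ g
    rw [hδ]
    simp only
    rw [mul_assoc, hinv, hinv]
  have hδm : ∀ h ∈ U, ∀ k ∈ U, ∀ g, δ (h * k) g = δ h g + δ k (g * h) := by
    intro h hh k hk g
    rw [hδ]
    simp only
    have e : f (g * (h * k)) / f g = (f (g * h) / f g) * (f (g * h * k) / f (g * h)) := by
      have := h0 (g * h)
      rw [← mul_assoc]
      field_simp
    rw [e]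
    apply Complex.arg_mul
    · exact div_ne_zero (h0 _) (h0 _)
    · exact div_ne_zero (h0 _) (h0 _)
    · have a1 := abs_lt.1 (harg g h hh)
      have a2 := abs_lt.1 (harg (g * h) k hk)
      constructor <;> linarith [a1.1, a1.2, a2.1, a2.2]
  set ψ : SL2 → ℝ := fun h => J (δ h) with hψ
  have hψm : ∀ h ∈ U, ∀ k ∈ U, ψ (h * k) = ψ h + ψ k := by
    intro h hh k hk
    rw [hψ]
    simp only
    have e : δ (h * k) = fun g => δ h g + δ k (g * h) := funext (hδm h hh k hk)
    have hc2 : Continuous fun g => δ k (g * h) := (hδc k hk).comp (continuous_mul_const h)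
    rw [e, hJa _ _ (hδc h hh) hc2, hJi (δ k) (hδc k hk) (fun γ g => hδi k γ g) h]
  have hψ1 : ψ 1 = 0 := by
    rw [hψ]
    simp only
    have e : δ 1 = fun _ => (0 : ℝ) := by
      funext g
      rw [hδ]
      simp only
      rw [mul_one, div_self (h0 g), Complex.arg_one]
    rw [e, hJc]
  -- smaller neighbourhood
  obtain ⟨W, hWo, hW1, hWW⟩ := exists_open_nhds_one_mul_subset hU1
  have hWU : ∀ x ∈ W, x ∈ U := fun x hx => by
    have : x * 1 ∈ W * W := Set.mul_mem_mul hx hW1
    rw [mul_one] at this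
    exact hWW this
  have hWWU : ∀ x ∈ W, ∀ y ∈ W, x * y ∈ U := fun x hx y hy => hWW (Set.mul_mem_mul hx hy)
  have hW : W ∈ 𝓝 (1 : SL2) := hWo.mem_nhds hW1
  have hup : ∀ᶠ s in 𝓝 (0 : ℝ), upper s ∈ W := by
    have := continuous_upper.tendsto 0
    rw [upper_zero] at this
    exact this hW
  have hlo : ∀ᶠ s in 𝓝 (0 : ℝ), lower s ∈ W := by
    have := continuous_lower.tendsto 0
    rw [lower_zero] at this
    exact this hW
  have hdg : ∀ᶠ s in 𝓝 (0 : ℝ), dgt s ∈ W := by
    have := continuous_dgt.tendsto 0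
    rw [dgt_zero] at this
    exact this hW
  have hdgn : ∀ᶠ s in 𝓝 (0 : ℝ), dgt (-s) ∈ W := by
    have h1 : Filter.Tendsto (fun s : ℝ => -s) (𝓝 0) (𝓝 0) := by
      simpa using (continuous_neg.tendsto (0 : ℝ))
    exact h1.eventually hdg
  obtain ⟨t, ⟨ht1, ht2⟩, ht0⟩ : ∃ t : ℝ, (dgt t ∈ W ∧ dgt (-t) ∈ W) ∧ 0 < t := by
    have h1 : ∀ᶠ s in 𝓝[>] (0 : ℝ), dgt s ∈ W ∧ dgt (-s) ∈ W :=
      ((hdg.and hdgn).filter_mono nhdsWithin_le_nhds)
    have h2 : ∀ᶠ s in 𝓝[>] (0 : ℝ), 0 < s := self_mem_nhdsWithin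
    exact (h1.and h2).exists
  have hdd : ψ (dgt t) + ψ (dgt (-t)) = 0 := by
    rw [← hψm _ (hWU _ ht1) _ (hWU _ ht2), dgt_mul_neg, hψ1]
  set L : ℝ := Real.exp (2 * t) with hL
  have hL1 : 1 < L := by
    rw [hL]
    exact Real.one_lt_exp_iff.2 (by positivity)
  have hLm : 0 < L - 1 := by linarith
  -- vanishing on small upper unipotents
  have hvu : ∀ᶠ x in 𝓝 (0 : ℝ), ψ (upper x) = 0 := by
    have h1 : ∀ᶠ s in 𝓝 (0 : ℝ), ψ (upper ((L - 1) * s)) = 0 := by
      have h2 : ∀ᶠ s in 𝓝 (0 : ℝ), upper ((L - 1) * s) ∈ W := by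
        have : Filter.Tendsto (fun s : ℝ => (L - 1) * s) (𝓝 0) (𝓝 0) := by
          simpa using (continuous_const_mul (L - 1)).tendsto (0 : ℝ)
        exact this.eventually hup
      filter_upwards [hup, h2] with s hs hs2
      have e1 : ψ (upper (L * s)) = ψ (upper s) := by
        rw [hL, ← dgt_conj_upper, hψm _ (hWWU _ ht1 _ hs) _ (hWU _ ht2),
          hψm _ (hWU _ ht1) _ (hWU _ hs)]
        linarith
      have e2 : upper (L * s) = upper s * upper ((L - 1) * s) := by
        rw [← upper_add]
        congr 1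
        ring
      rw [e2, hψm _ (hWU _ hs) _ (hWU _ hs2)] at e1
      linarith
    have h3 : Filter.Tendsto (fun x : ℝ => x / (L - 1)) (𝓝 0) (𝓝 0) := by
      simpa using (continuous_id.div_const (L - 1)).tendsto (0 : ℝ)
    filter_upwards [h3.eventually h1] with x hx
    rwa [mul_div_cancel₀ _ hLm.ne'] at hx
  have hvl : ∀ᶠ x in 𝓝 (0 : ℝ), ψ (lower x) = 0 := by
    have h1 : ∀ᶠ s in 𝓝 (0 : ℝ), ψ (lower ((L - 1) * s)) = 0 := by
      have h2 : ∀ᶠ s in 𝓝 (0 : ℝ), lower ((L - 1) * s) ∈ W := by
        have : Filter.Tendsto (fun s : ℝ => (L - 1) * s) (𝓝 0) (𝓝 0) := by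
          simpa using (continuous_const_mul (L - 1)).tendsto (0 : ℝ)
        exact this.eventually hlo
      filter_upwards [hlo, h2] with s hs hs2
      have e1 : ψ (lower (L * s)) = ψ (lower s) := by
        rw [hL, ← dgt_conj_lower, hψm _ (hWWU _ ht2 _ hs) _ (hWU _ ht1),
          hψm _ (hWU _ ht2) _ (hWU _ hs)]
        linarith
      have e2 : lower (L * s) = lower s * lower ((L - 1) * s) := by
        rw [← lower_add]
        congr 1
        ring
      rw [e2, hψm _ (hWU _ hs) _ (hWU _ hs2)] at e1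
      linarith
    have h3 : Filter.Tendsto (fun x : ℝ => x / (L - 1)) (𝓝 0) (𝓝 0) := by
      simpa using (continuous_id.div_const (L - 1)).tendsto (0 : ℝ)
    filter_upwards [h3.eventually h1] with x hx
    rwa [mul_div_cancel₀ _ hLm.ne'] at hx
  -- rotations
  have hvr : ∀ᶠ x in 𝓝 (0 : ℝ), ψ (rot x) = 0 ∧ rot x ∈ U := by
    have t1 : Filter.Tendsto (fun x : ℝ => -Real.tan (x / 2)) (𝓝 0) (𝓝 0) := by
      have hc : ContinuousAt (fun x : ℝ => -Real.tan (x / 2)) 0 := by
        apply ContinuousAt.neg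
        have h1 : ContinuousAt Real.tan ((0 : ℝ) / 2) := by
          rw [Real.continuousAt_tan]
          simp
        exact ContinuousAt.comp (f := fun x : ℝ => x / 2) (g := Real.tan) h1 (by fun_prop)
      simpa [ContinuousAt] using hc
    have t2 : Filter.Tendsto (fun x : ℝ => Real.sin x) (𝓝 0) (𝓝 0) := by
      simpa using Real.continuous_sin.tendsto 0
    have t3 : ∀ᶠ x in 𝓝 (0 : ℝ), Real.cos (x / 2) ≠ 0 := by
      have hc : Continuous fun x : ℝ => Real.cos (x / 2) := by fun_prop
      have := hc.tendsto 0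
      simp only [zero_div, Real.cos_zero] at this
      exact this.eventually (isOpen_ne.mem_nhds one_ne_zero)
    filter_upwards [t1.eventually hup, t1.eventually hvu, t2.eventually hlo,
      t2.eventually hvl, t3, (continuous_rot.tendsto 0).eventually (by
        rw [rot_zero]; exact hU1)] with x a1 a2 a3 a4 a5 a6
    refine ⟨?_, a6⟩
    rw [rot_decomp a5, hψm _ (hWWU _ a1 _ a3) _ (hWU _ a1), hψm _ (hWU _ a1) _ (hWU _ a3),
      a2, a4]
    ring
  -- choose `N`
  obtain ⟨N, hN1, hN0, hN2⟩ : ∃ N : ℕ, (ψ (rot (Real.pi / N)) = 0 ∧ rot (Real.pi / N) ∈ U) ∧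
      0 < N ∧ True := by
    have h1 : Filter.Tendsto (fun n : ℕ => Real.pi / n) Filter.atTop (𝓝 0) :=
      tendsto_const_div_atTop_nhds_zero_nat _
    obtain ⟨N, hN⟩ := ((h1.eventually hvr).and (Filter.eventually_gt_atTop 0)).exists
    exact ⟨N, hN.1, hN.2, trivial⟩
  set k : SL2 := rot (Real.pi / N) with hk
  have hkpow : ∀ j : ℕ, k ^ j = rot (j * (Real.pi / N)) := by
    intro j
    induction j with
    | zero => simp [rot_zero]
    | succ j ih =>
      rw [pow_succ, ih, hk, ← rot_add]
      congr 1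
      push_cast
      ring
  have hkN : k ^ N = -1 := by
    rw [hkpow, mul_div_cancel₀ _ (by exact_mod_cast hN0.ne'), rot_pi]
  set Sg : SL2 → ℝ := fun g => ∑ j ∈ Finset.range N, δ k (g * k ^ j) with hSg
  have hSc : Continuous Sg := by
    apply continuous_finsetSum
    intro j _
    exact (hδc k hN1.2).comp (continuous_mul_const _)
  have hJsum : ∀ n : ℕ, J (fun g => ∑ j ∈ Finset.range n, δ k (g * k ^ j)) = n * ψ k := by
    intro n
    induction n with
    | zero => simp [hJc]
    | succ n ih =>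
      have e : (fun g => ∑ j ∈ Finset.range (n + 1), δ k (g * k ^ j)) =
          fun g => (∑ j ∈ Finset.range n, δ k (g * k ^ j)) + δ k (g * k ^ n) := by
        funext g
        rw [Finset.sum_range_succ]
      rw [e, hJa, ih, hJi (δ k) (hδc k hN1.2) (fun γ g => hδi k γ g)]
      · push_cast
        ring
      · apply continuous_finsetSum
        intro j _
        exact (hδc k hN1.2).comp (continuous_mul_const _)
      · exact (hδc k hN1.2).comp (continuous_mul_const _)
  have hJS : J Sg = 0 := by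
    rw [hSg, hJsum, hN1.1, mul_zero]
  -- exponential
  have hexp : ∀ g, Complex.exp (Complex.I * Sg g) = -1 := by
    intro g
    have hpart : ∀ n : ℕ, Complex.exp (Complex.I *
        ((∑ j ∈ Finset.range n, δ k (g * k ^ j) : ℝ) : ℂ)) * ‖f (g * k ^ n) / f g‖ =
        f (g * k ^ n) / f g := by
      intro n
      induction n with
      | zero => simp [h0 g]
      | succ n ih =>
        rw [Finset.sum_range_succ]
        push_cast
        push_cast at ih
        have e : f (g * k ^ (n + 1)) / f g =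
            (f (g * k ^ n) / f g) * (f (g * k ^ n * k) / f (g * k ^ n)) := by
          have := h0 (g * k ^ n)
          rw [pow_succ, ← mul_assoc]
          field_simp
        have e2 : Complex.exp (Complex.I * (δ k (g * k ^ n) : ℂ)) *
            ‖f (g * k ^ n * k) / f (g * k ^ n)‖ = f (g * k ^ n * k) / f (g * k ^ n) := by
          rw [mul_comm, mul_comm Complex.I]
          exact Complex.norm_mul_exp_arg_mul_I _
        rw [e, norm_mul, mul_add, Complex.exp_add]
        push_cast
        calc _ = (Complex.exp (Complex.I * ∑ x ∈ Finset.range n, (δ k (g * k ^ x) : ℂ)) *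
            ‖f (g * k ^ n) / f g‖) * (Complex.exp (Complex.I * (δ k (g * k ^ n) : ℂ)) *
            ‖f (g * k ^ n * k) / f (g * k ^ n)‖) := by ring
          _ = _ := by rw [ih, e2]
    have h1 := hpart N
    rw [hkN, hodd, neg_div, div_self (h0 g), norm_neg, norm_one, Complex.ofReal_one,
      mul_one] at h1
    exact h1
  -- constancy
  have hconst : ∀ g, Sg g = Sg 1 := by
    apply const_of_unipotent
    · intro g s
      have hc : Continuous fun s => Sg (g * upper s) :=
        hSc.comp (continuous_const.mul continuous_upper)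
      have := const_of_exp hc (fun s => hexp _) s
      rw [this, upper_zero, mul_one]
    · intro g s
      have hc : Continuous fun s => Sg (g * lower s) :=
        hSc.comp (continuous_const.mul continuous_lower)
      have := const_of_exp hc (fun s => hexp _) s
      rw [this, lower_zero, mul_one]
  have h1 : Sg = fun _ => Sg 1 := funext hconst
  rw [h1, hJc] at hJS
  have h2 := hexp 1
  rw [hJS] at h2
  simp at h2
  norm_num at h2

end Pool.Agent.Hhelper63.Anosov
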