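import Pool.Agent.Hhelper63.Anosov.Close

/-!
Existence of equivariant nowhere vanishing sections of the top line bundle is locally constant
on the space of dominated representations.
-/

namespace Pool.Agent.Hhelper63.Anosov

open scoped InnerProductSpace Pointwise Topology

variable {Γ G : Type*} [Group Γ] [Group G] [TopologicalSpace G] [IsTopologicalGroup G]
  (F : FlowData Γ G)
  {V : Type*} [NormedAddCommGroup V] [InnerProductSpace ℂ V]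

/-- the orthogonal projection to the line of the unit vector `u`. -/
noncomputable def pr (u : V) : V →L[ℂ] V := (innerSL ℂ u).smulRight u

theorem pr_apply (u x : V) : pr u x = ⟪u, x⟫_ℂ • u := rfl

theorem norm_pr_sub_le {u v : V} (hu : ‖u‖ = 1) (hv : ‖v‖ = 1) :
    ‖pr u - pr v‖ ≤ 2 * S u v := by
  refine ContinuousLinearMap.opNorm_le_bound _ (by have := S_nonneg u v; linarith) fun x => ?_
  have e : (pr u - pr v) x = (⟪u, x⟫_ℂ • u - ⟪v, ⟪u, x⟫_ℂ • u⟫_ℂ • v) -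
      ⟪v - ⟪u, v⟫_ℂ • u, x⟫_ℂ • v := by
    change pr u x - pr v x = _
    rw [pr_apply, pr_apply, inner_sub_left, inner_smul_left, inner_smul_right, inner_conj_symm,
      sub_smul]
    rw [mul_comm ⟪u, x⟫_ℂ ⟪v, u⟫_ℂ]
    abel
  rw [e]
  refine (norm_sub_le _ _).trans ?_
  have h1 : ‖⟪u, x⟫_ℂ • u - ⟪v, ⟪u, x⟫_ℂ • u⟫_ℂ • v‖ ≤ ‖x‖ * S u v := by
    have : ‖⟪u, x⟫_ℂ • u - ⟪v, ⟪u, x⟫_ℂ • u⟫_ℂ • v‖ = S v (⟪u, x⟫_ℂ • u) := rfl
    rw [this, S_smul, S_symm hv hu]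
    gcongr
    · exact S_nonneg _ _
    · refine (norm_inner_le_norm _ _).trans ?_
      rw [hu, one_mul]
  have h2 : ‖⟪v - ⟪u, v⟫_ℂ • u, x⟫_ℂ • v‖ ≤ ‖x‖ * S u v := by
    rw [norm_smul, hv, mul_one, mul_comm]
    exact norm_inner_le_norm _ _
  linarith

theorem FlowData.continuous_pr [FiniteDimensional ℂ V] [Nontrivial V]
    {ρ : Γ →* (V →L[ℂ] V)} (hρ : F.Dom ρ) : Continuous fun g => pr (F.topv hρ g) := by
  rw [continuous_iff_continuousAt]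
  intro g₀
  have h1 : Filter.Tendsto (fun g => 2 * S (F.topv hρ g₀) (F.topv hρ g)) (𝓝 g₀) (𝓝 0) := by
    simpa using (F.tendsto_S hρ g₀).const_mul 2
  have h2 : Filter.Tendsto (fun g => pr (F.topv hρ g) - pr (F.topv hρ g₀)) (𝓝 g₀) (𝓝 0) := by
    refine squeeze_zero_norm (fun g => ?_) h1
    rw [norm_sub_rev]
    exact norm_pr_sub_le (F.norm_topv hρ _) (F.norm_topv hρ _)
  have h3 := h2.add_const (pr (F.topv hρ g₀))
  simpa [ContinuousAt] using h3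

/-- Triviality of the top line bundle over the quotient of `G` by `Γ` and `w ^ 2`. -/
def FlowData.Triv (ρ : Γ →* (V →L[ℂ] V)) : Prop :=
  ∃ s : G → V, Continuous s ∧ (∀ γ g, s (F.φ γ * g) = ρ γ (s g)) ∧
    (∀ g, s (g * F.w ^ 2) = s g) ∧ ∀ g, F.IsTop ρ g (s g)

/-- uniqueness of the oblique projection -/
theorem FlowData.proj_unique [FiniteDimensional ℂ V] [Nontrivial V] [CompleteSpace V]
    {ρ : Γ →* (V →L[ℂ] V)} (hρ : F.Dom ρ) {g : G} {u θ z z' : V} (hu : F.IsTop ρ g u)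
    (hun : ‖u‖ = 1) (hθ : F.IsTop (contra ρ) (g * F.w) θ)
    {c c' : ℂ} (hz : z = c • u) (hz' : z' = c' • u) (h : ⟪θ, z⟫_ℂ = ⟪θ, z'⟫_ℂ) : z = z' := by
  have h0 := F.transverse hρ hu hθ
  rw [hz, hz', inner_smul_right, inner_smul_right] at h
  rw [hz, hz', mul_right_cancel₀ h0 h]

/-- Averaging transfer. -/
theorem FlowData.Triv.transfer [FiniteDimensional ℂ V] [Nontrivial V] [CompleteSpace V]
    {ρ₁ ρ₂ : Γ →* (V →L[ℂ] V)} (h₁ : F.Dom ρ₁) (h₂ : F.Dom ρ₂)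
    (χ : G → ℝ) (hχ : Continuous χ) (hχs : HasCompactSupport χ) (hχ0 : ∀ g, 0 ≤ χ g)
    (hχD : ∀ g ∈ F.D, 0 < χ g) (hχw : ∀ g, χ (g * F.w ^ 2) = χ g)
    {δ : ℝ} (hδ : 0 < δ)
    (H1 : ∀ g ∈ F.D, δ ≤ ‖⟪F.topv (FlowData.Dom.contra F h₁) (g * F.w), F.topv h₂ g⟫_ℂ‖)
    (H2 : ∀ γ, F.φ γ ∈ F.D * (tsupport χ)⁻¹ → ‖ρ₁ γ - ρ₂ γ‖ * ‖ρ₂ γ⁻¹‖ ≤ δ / 2)
    (htriv : F.Triv ρ₂) : F.Triv ρ₁ := by
  obtain ⟨s₂, hs₂c, hs₂e, hs₂w, hs₂t⟩ := htriv
  -- local finiteness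
  have hlf : LocallyFinite fun γ : Γ => Function.support fun g : G => χ ((F.φ γ)⁻¹ * g) := by
    intro g₀
    obtain ⟨γ₀, hγ₀⟩ := F.cover g₀
    refine ⟨{g | (F.φ γ₀)⁻¹ * g ∈ interior F.D}, ?_, ?_⟩
    · have hc : Continuous fun g : G => (F.φ γ₀)⁻¹ * g := by fun_prop
      exact (isOpen_interior.preimage hc).mem_nhds hγ₀
    · have hfin := F.proper _ (F.compact.mul hχs.isCompact.inv)
      refine (hfin.image (fun η => γ₀ * η)).subset ?_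
      rintro γ ⟨g, hg1, hg2⟩
      refine ⟨γ₀⁻¹ * γ, ?_, by simp⟩
      change F.φ (γ₀⁻¹ * γ) ∈ F.D * (tsupport χ)⁻¹
      have e : F.φ (γ₀⁻¹ * γ) = ((F.φ γ₀)⁻¹ * g) * ((F.φ γ)⁻¹ * g)⁻¹ := by
        rw [map_mul, map_inv]; group
      rw [e]
      exact Set.mul_mem_mul (interior_subset hg2)
        (Set.inv_mem_inv.2 (subset_tsupport _ hg1))
  have hfs : ∀ g, (Function.support fun γ : Γ => χ ((F.φ γ)⁻¹ * g)).Finite := by
    intro g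
    exact hlf.point_finite g
  set Z : G → ℝ := fun g => ∑ᶠ γ : Γ, χ ((F.φ γ)⁻¹ * g) with hZ
  set s' : G → V := fun g => ∑ᶠ γ : Γ, ((χ ((F.φ γ)⁻¹ * g) : ℝ) : ℂ) •
    ρ₁ γ (s₂ ((F.φ γ)⁻¹ * g)) with hs'
  have hfs' : ∀ g, (Function.support fun γ : Γ => ((χ ((F.φ γ)⁻¹ * g) : ℝ) : ℂ) •
      ρ₁ γ (s₂ ((F.φ γ)⁻¹ * g))).Finite := by
    intro g
    refine (hfs g).subset ?_
    intro γ hγ
    rw [Function.mem_support] at hγ ⊢
    intro h0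
    apply hγ
    rw [h0]
    simp
  have hs'c : Continuous s' := by
    apply continuous_finsum
    · intro γ
      have hc : Continuous fun g : G => (F.φ γ)⁻¹ * g := by fun_prop
      exact (Complex.continuous_ofReal.comp (hχ.comp hc)).smul
        ((ρ₁ γ).continuous.comp (hs₂c.comp hc))
    · refine hlf.subset fun γ => ?_
      intro g hg
      rw [Function.mem_support] at hg ⊢
      intro h0
      apply hg
      rw [h0]
      simp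
  have hs'e : ∀ η g, s' (F.φ η * g) = ρ₁ η (s' g) := by
    intro η g
    rw [hs']
    simp only
    rw [map_finsum (ρ₁ η) (hfs' g), ← finsum_comp_equiv (Equiv.mulLeft η)]
    apply finsum_congr
    intro γ
    rw [Equiv.coe_mulLeft, map_smul, rep_mul_apply]
    have e : (F.φ (η * γ))⁻¹ * (F.φ η * g) = (F.φ γ)⁻¹ * g := by rw [map_mul]; group
    rw [e]
  have hs'w : ∀ g, s' (g * F.w ^ 2) = s' g := by
    intro g
    rw [hs']
    simp only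
    apply finsum_congr
    intro γ
    rw [← mul_assoc, hχw, hs₂w]
  -- comparison on `D`
  have hZpos : ∀ g ∈ F.D, 0 < Z g := by
    intro g hg
    have h1 : χ ((F.φ 1)⁻¹ * g) ≤ Z g :=
      single_le_finsum 1 (hfs g) (fun γ => hχ0 _)
    rw [map_one, inv_one, one_mul] at h1
    exact (hχD g hg).trans_le h1
  have hcmp : ∀ g ∈ F.D, ‖s' g - ((Z g : ℝ) : ℂ) • s₂ g‖ ≤ Z g * (δ / 2 * ‖s₂ g‖) := by
    intro g hg
    have e1 : ((Z g : ℝ) : ℂ) • s₂ g = ∑ᶠ γ : Γ, ((χ ((F.φ γ)⁻¹ * g) : ℝ) : ℂ) • s₂ g := by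
      rw [hZ]
      simp only
      rw [← Complex.coe_algebraMap, map_finsum _ (hfs g), finsum_smul]
    have hfs'' : (Function.support fun γ : Γ =>
        ((χ ((F.φ γ)⁻¹ * g) : ℝ) : ℂ) • s₂ g).Finite := by
      refine (hfs g).subset ?_
      intro γ hγ
      rw [Function.mem_support] at hγ ⊢
      intro h0
      apply hγ
      rw [h0]
      simp
    rw [e1, hs', ← finsum_sub_distrib (hfs' g) hfs'']
    have hsup : (Function.support fun γ : Γ => ((χ ((F.φ γ)⁻¹ * g) : ℝ) : ℂ) •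
        ρ₁ γ (s₂ ((F.φ γ)⁻¹ * g)) - ((χ ((F.φ γ)⁻¹ * g) : ℝ) : ℂ) • s₂ g) ⊆
        (hfs g).toFinset := by
      intro γ hγ
      rw [Set.Finite.coe_toFinset, Function.mem_support]
      rw [Function.mem_support] at hγ
      intro h0
      apply hγ
      rw [h0]
      simp
    rw [finsum_eq_sum_of_support_subset _ hsup]
    have hZs : Z g = ∑ γ ∈ (hfs g).toFinset, χ ((F.φ γ)⁻¹ * g) := by
      rw [hZ]
      simp only
      rw [finsum_eq_sum_of_support_subset]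
      rw [Set.Finite.coe_toFinset]
    rw [hZs, Finset.sum_mul]
    refine (norm_sum_le _ _).trans (Finset.sum_le_sum fun γ hγ => ?_)
    have hsup' : χ ((F.φ γ)⁻¹ * g) ≠ 0 := by
      rw [Set.Finite.mem_toFinset] at hγ
      exact hγ
    have hmem : F.φ γ ∈ F.D * (tsupport χ)⁻¹ := by
      have e : F.φ γ = g * ((F.φ γ)⁻¹ * g)⁻¹ := by group
      rw [e]
      exact Set.mul_mem_mul hg (Set.inv_mem_inv.2 (subset_tsupport _ hsup'))
    have e2 : s₂ ((F.φ γ)⁻¹ * g) = ρ₂ γ⁻¹ (s₂ g) := by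
      rw [← map_inv, hs₂e]
    have e3 : ((χ ((F.φ γ)⁻¹ * g) : ℝ) : ℂ) • ρ₁ γ (s₂ ((F.φ γ)⁻¹ * g)) -
        ((χ ((F.φ γ)⁻¹ * g) : ℝ) : ℂ) • s₂ g =
        ((χ ((F.φ γ)⁻¹ * g) : ℝ) : ℂ) • ((ρ₁ γ - ρ₂ γ) (ρ₂ γ⁻¹ (s₂ g))) := by
      rw [← smul_sub]
      congr 1
      rw [ContinuousLinearMap.sub_apply, rep_apply_inv, e2]
    rw [e3, norm_smul, Complex.norm_real, Real.norm_of_nonneg (hχ0 _)]
    refine mul_le_mul_of_nonneg_left ?_ (hχ0 _)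
    calc ‖(ρ₁ γ - ρ₂ γ) (ρ₂ γ⁻¹ (s₂ g))‖ ≤ ‖ρ₁ γ - ρ₂ γ‖ * ‖ρ₂ γ⁻¹ (s₂ g)‖ :=
          ContinuousLinearMap.le_opNorm _ _
      _ ≤ ‖ρ₁ γ - ρ₂ γ‖ * (‖ρ₂ γ⁻¹‖ * ‖s₂ g‖) := by
          gcongr
          exact ContinuousLinearMap.le_opNorm _ _
      _ = (‖ρ₁ γ - ρ₂ γ‖ * ‖ρ₂ γ⁻¹‖) * ‖s₂ g‖ := by ring
      _ ≤ _ := by
          gcongr
          exact H2 γ hmem
  -- abbreviations
  set u : G → V := F.topv h₁ with hu
  set θ : G → V := fun g => F.topv (FlowData.Dom.contra F h₁) (g * F.w) with hθ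
  have hun : ∀ g, ‖u g‖ = 1 := F.norm_topv h₁
  have hθn : ∀ g, ‖θ g‖ = 1 := fun g => F.norm_topv _ _
  have hut : ∀ g, F.IsTop ρ₁ g (u g) := F.isTop_topv h₁
  have hθt : ∀ g, F.IsTop (contra ρ₁) (g * F.w) (θ g) := fun g => F.isTop_topv _ _
  have hpair : ∀ g, F.pair h₁ g = ‖⟪θ g, u g⟫_ℂ‖ := fun g => rfl
  -- nonvanishing of the pairing with `θ`
  have hnz : ∀ g, ⟪θ g, s' g⟫_ℂ ≠ 0 := by
    have hD : ∀ g ∈ F.D, ⟪θ g, s' g⟫_ℂ ≠ 0 := by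
      intro g hg h0
      have h3 := hcmp g hg
      have hs0 : 0 < ‖s₂ g‖ := norm_pos_iff.2 (hs₂t g).1
      have hZ0 := hZpos g hg
      have h4 : s₂ g = ⟪F.topv h₂ g, s₂ g⟫_ℂ • F.topv h₂ g :=
        (F.isTop_topv h₂ g).eq_smul F (hs₂t g) (F.norm_topv h₂ g)
      have h5 : ‖⟪F.topv h₂ g, s₂ g⟫_ℂ‖ = ‖s₂ g‖ := by
        conv_rhs => rw [h4]
        rw [norm_smul, F.norm_topv h₂ g, mul_one]
      have h6 : δ * ‖s₂ g‖ ≤ ‖⟪θ g, s₂ g⟫_ℂ‖ := by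
        rw [h4, inner_smul_right, norm_mul, h5, mul_comm]
        have h7 := H1 g hg
        have h8 : ‖⟪F.topv h₂ g, s₂ g⟫_ℂ • F.topv h₂ g‖ = ‖s₂ g‖ := by rw [← h4]
        rw [h8]
        gcongr
      have h7 : ⟪θ g, ((Z g : ℝ) : ℂ) • s₂ g⟫_ℂ =
          - ⟪θ g, s' g - ((Z g : ℝ) : ℂ) • s₂ g⟫_ℂ := by
        rw [inner_sub_right, h0]
        ring
      have h8 : Z g * ‖⟪θ g, s₂ g⟫_ℂ‖ ≤ Z g * (δ / 2 * ‖s₂ g‖) := by
        calc Z g * ‖⟪θ g, s₂ g⟫_ℂ‖ = ‖⟪θ g, ((Z g : ℝ) : ℂ) • s₂ g⟫_ℂ‖ := by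
              rw [inner_smul_right, norm_mul, Complex.norm_real, Real.norm_of_nonneg hZ0.le]
          _ = ‖⟪θ g, s' g - ((Z g : ℝ) : ℂ) • s₂ g⟫_ℂ‖ := by rw [h7, norm_neg]
          _ ≤ ‖θ g‖ * ‖s' g - ((Z g : ℝ) : ℂ) • s₂ g‖ := norm_inner_le_norm _ _
          _ ≤ _ := by
              rw [hθn, one_mul]
              exact h3
      have h9 : ‖⟪θ g, s₂ g⟫_ℂ‖ ≤ δ / 2 * ‖s₂ g‖ := le_of_mul_le_mul_left h8 hZ0
      nlinarith
    intro g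
    obtain ⟨γ, hγ⟩ := F.cover g
    have h1 := hD _ (interior_subset hγ)
    intro h0
    apply h1
    have e1 : s' ((F.φ γ)⁻¹ * g) = ρ₁ γ⁻¹ (s' g) := by rw [← map_inv, hs'e]
    have t1 := (hθt g).map F γ⁻¹
    rw [map_inv, ← mul_assoc] at t1
    have e2 := (t1.smul F (c := 1) one_ne_zero)
    have e3 := (FlowData.IsTop.eq_smul F t1 (hθt ((F.φ γ)⁻¹ * g)))
    -- write θ at the translated point as a multiple of the transported one
    have hn1 : 0 < ‖contra ρ₁ γ⁻¹ (θ g)‖ := norm_pos_iff.2 t1.1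
    have t2 := (hθt ((F.φ γ)⁻¹ * g)).eq_smul F t1 (hθn _)
    set b := ⟪θ ((F.φ γ)⁻¹ * g), contra ρ₁ γ⁻¹ (θ g)⟫_ℂ with hb
    have hb0 : b ≠ 0 := by
      intro hb0
      rw [hb0, zero_smul] at t2
      exact t1.1 t2
    have t3 : θ ((F.φ γ)⁻¹ * g) = b⁻¹ • contra ρ₁ γ⁻¹ (θ g) := by
      rw [t2, smul_smul, inv_mul_cancel₀ hb0, one_smul]
    rw [t3, e1, inner_smul_left, inner_contra, h0, mul_zero]
  -- the section
  set s : G → V := fun g => ((((F.pair h₁ g) ^ 2)⁻¹ : ℝ) : ℂ) • pr (u g) (pr (θ g) (s' g))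
    with hs
  have hsform : ∀ g, s g = (⟪θ g, s' g⟫_ℂ / ⟪θ g, u g⟫_ℂ) • u g := by
    intro g
    have hp0 : ⟪θ g, u g⟫_ℂ ≠ 0 := F.transverse h₁ (hut g) (hθt g)
    rw [hs]
    simp only
    rw [pr_apply, pr_apply, inner_smul_right, smul_smul]
    congr 1
    rw [hpair]
    have e : (((‖⟪θ g, u g⟫_ℂ‖ ^ 2)⁻¹ : ℝ) : ℂ) = (⟪θ g, u g⟫_ℂ * ⟪u g, θ g⟫_ℂ)⁻¹ := by
      have : ⟪u g, θ g⟫_ℂ = (starRingEnd ℂ) ⟪θ g, u g⟫_ℂ := (inner_conj_symm _ _).symm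
      rw [this, Complex.mul_conj, Complex.normSq_eq_norm_sq]
      push_cast
      rfl
    rw [e]
    have hp1 : ⟪u g, θ g⟫_ℂ ≠ 0 := by
      rw [← inner_conj_symm]
      exact (map_ne_zero _).2 hp0
    field_simp
  have hsinner : ∀ g, ⟪θ g, s g⟫_ℂ = ⟪θ g, s' g⟫_ℂ := by
    intro g
    have hp0 : ⟪θ g, u g⟫_ℂ ≠ 0 := F.transverse h₁ (hut g) (hθt g)
    rw [hsform, inner_smul_right, div_mul_cancel₀ _ hp0]
  have hst : ∀ g, F.IsTop ρ₁ g (s g) := by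
    intro g
    rw [hsform]
    exact (hut g).smul F (div_ne_zero (hnz g) (F.transverse h₁ (hut g) (hθt g)))
  refine ⟨s, ?_, ?_, ?_, hst⟩
  · -- continuity
    have c1 : Continuous fun g => ((((F.pair h₁ g) ^ 2)⁻¹ : ℝ) : ℂ) := by
      refine Complex.continuous_ofReal.comp (Continuous.inv₀ ?_ ?_)
      · exact (F.continuous_pair h₁).pow 2
      · intro g
        exact pow_ne_zero _ (F.pair_pos h₁ g).ne'
    have c2 : Continuous fun g => pr (u g) := F.continuous_pr h₁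
    have c3 : Continuous fun g => pr (θ g) := by
      have hc : Continuous fun g : G => g * F.w := by fun_prop
      exact (F.continuous_pr (FlowData.Dom.contra F h₁)).comp hc
    exact c1.smul (c2.clm_apply (c3.clm_apply hs'c))
  · -- equivariance
    intro η g
    have a1 := (hut (F.φ η * g)).eq_smul F (hst (F.φ η * g)) (hun _)
    have a2 := (hut (F.φ η * g)).eq_smul F ((hst g).map F η) (hun _)
    refine F.proj_unique h₁ (hut _) (hun _) (hθt _) a1 a2 ?_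
    rw [hsinner, hs'e]
    have t1 := (hθt g).map F η
    rw [← mul_assoc] at t1
    have t2 := (hθt (F.φ η * g)).eq_smul F t1 (hθn _)
    set b := ⟪θ (F.φ η * g), contra ρ₁ η (θ g)⟫_ℂ with hb
    have hb0 : b ≠ 0 := by
      intro hb0
      rw [hb0, zero_smul] at t2
      exact t1.1 t2
    have t3 : θ (F.φ η * g) = b⁻¹ • contra ρ₁ η (θ g) := by
      rw [t2, smul_smul, inv_mul_cancel₀ hb0, one_smul]
    rw [t3, inner_smul_left, inner_smul_left, inner_contra, inner_contra, hsinner]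
  · -- evenness
    intro g
    have a1 := (hut g).eq_smul F (FlowData.IsTop.of_w_sq F (hst (g * F.w ^ 2))) (hun _)
    have a2 := (hut g).eq_smul F (hst g) (hun _)
    refine F.proj_unique h₁ (hut _) (hun _) (hθt _) a1 a2 ?_
    have t0 : F.IsTop (contra ρ₁) (g * F.w) (θ (g * F.w ^ 2)) := by
      have := hθt (g * F.w ^ 2)
      have e : g * F.w ^ 2 * F.w = g * F.w * F.w ^ 2 := by
        rw [mul_assoc, mul_assoc, ← pow_succ, ← pow_succ']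
      rw [e] at this
      exact FlowData.IsTop.of_w_sq F this
    have t2 := (hθt g).eq_smul F t0 (hθn _)
    set b := ⟪θ g, θ (g * F.w ^ 2)⟫_ℂ with hb
    have hb0 : b ≠ 0 := by
      intro hb0
      rw [hb0, zero_smul] at t2
      exact t0.1 t2
    have t3 : θ g = b⁻¹ • θ (g * F.w ^ 2) := by
      rw [t2, smul_smul, inv_mul_cancel₀ hb0, one_smul]
    rw [hsinner g]
    rw [t3, inner_smul_left, inner_smul_left, hsinner, hs'w]

/-- Local constancy of triviality. -/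
theorem FlowData.triv_locally_constant [FiniteDimensional ℂ V] [Nontrivial V] [CompleteSpace V]
    {ρ₀ : Γ →* (V →L[ℂ] V)} (h₀ : F.Dom ρ₀)
    (χ : G → ℝ) (hχ : Continuous χ) (hχs : HasCompactSupport χ) (hχ0 : ∀ g, 0 ≤ χ g)
    (hχD : ∀ g ∈ F.D, 0 < χ g) (hχw : ∀ g, χ (g * F.w ^ 2) = χ g) :
    ∃ T : Finset Γ, ∃ κ > 0, ∀ ρ : Γ →* (V →L[ℂ] V), F.Dom ρ →
      (∀ γ ∈ T, ‖ρ γ - ρ₀ γ‖ ≤ κ) → (F.Triv ρ ↔ F.Triv ρ₀) := by
  classical
  obtain ⟨δ, hδ, hδ1, hpair⟩ := F.exists_delta h₀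
  obtain ⟨T₁, κ₁, hκ₁, hT₁⟩ := F.close h₀ (by positivity : 0 < δ / 4)
  obtain ⟨T₂, κ₂, hκ₂, hT₂⟩ := F.close (FlowData.Dom.contra F h₀) (by positivity : 0 < δ / 4)
  have hfin := F.proper _ (F.compact.mul hχs.isCompact.inv)
  set T₃ := hfin.toFinset with hT₃
  obtain ⟨M, hM⟩ := (T₃.finite_toSet.image (fun γ => ‖ρ₀ γ⁻¹‖)).bddAbove
  have hM' : ∀ γ ∈ T₃, ‖ρ₀ γ⁻¹‖ ≤ max M 1 := fun γ hγ =>
    (hM ⟨γ, hγ, rfl⟩).trans (le_max_left _ _)
  set M' : ℝ := max M 1 with hM'def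
  have hM1 : 1 ≤ M' := le_max_right _ _
  refine ⟨T₁ ∪ T₂.image (fun γ => γ⁻¹) ∪ T₃ ∪ T₃.image (fun γ => γ⁻¹),
    min (min κ₁ κ₂) (min 1 (δ / (8 * M'))), by positivity, fun ρ hρ hclose => ?_⟩
  have hc1 : ∀ γ ∈ T₁, ‖ρ γ - ρ₀ γ‖ ≤ κ₁ := fun γ hγ =>
    (hclose γ (by simp [hγ])).trans ((min_le_left _ _).trans (min_le_left _ _))
  have hc2 : ∀ γ ∈ T₂, ‖contra ρ γ - contra ρ₀ γ‖ ≤ κ₂ := fun γ hγ => by
    have h1 : ‖ρ γ⁻¹ - ρ₀ γ⁻¹‖ ≤ κ₂ :=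
      (hclose γ⁻¹ (by simp [hγ])).trans ((min_le_left _ _).trans (min_le_right _ _))
    have h2 : contra ρ γ - contra ρ₀ γ = ContinuousLinearMap.adjoint (ρ γ⁻¹ - ρ₀ γ⁻¹) := by
      rw [contra_apply, contra_apply, map_sub]
    rw [h2, LinearIsometryEquiv.norm_map]
    exact h1
  have hc3 : ∀ γ ∈ T₃, ‖ρ γ - ρ₀ γ‖ ≤ δ / (8 * M') := fun γ hγ =>
    (hclose γ (by simp [hγ])).trans ((min_le_right _ _).trans (min_le_right _ _))
  have hc4 : ∀ γ ∈ T₃, ‖ρ γ⁻¹ - ρ₀ γ⁻¹‖ ≤ 1 := fun γ hγ =>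
    (hclose γ⁻¹ (by simp [hγ])).trans ((min_le_right _ _).trans (min_le_left _ _))
  have k1 := hT₁ ρ hρ hc1
  have k2 := hT₂ (contra ρ) (FlowData.Dom.contra F hρ) hc2
  constructor
  · -- from `ρ` to `ρ₀`
    intro htriv
    refine FlowData.Triv.transfer F h₀ hρ χ hχ hχs hχ0 hχD hχw (δ := δ / 2) (by positivity)
      (fun g hg => ?_) (fun γ hγ => ?_) htriv
    · have p1 : δ ≤ ‖⟪F.topv (FlowData.Dom.contra F h₀) (g * F.w), F.topv h₀ g⟫_ℂ‖ :=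
        hpair g hg
      have p2 := norm_inner_le_add (F.norm_topv h₀ g) (F.norm_topv hρ g)
        (F.norm_topv (FlowData.Dom.contra F h₀) (g * F.w))
      have p3 := k1 g hg
      rw [S_symm (F.norm_topv h₀ g) (F.norm_topv hρ g)] at p3
      linarith
    · have hγ' : γ ∈ T₃ := by rw [hT₃, Set.Finite.mem_toFinset]; exact hγ
      have q1 := hc3 γ hγ'
      have q2 := hc4 γ hγ'
      have q3 := hM' γ hγ'
      have q4 : ‖ρ γ⁻¹‖ ≤ 2 * M' := by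
        have : ‖ρ γ⁻¹‖ ≤ ‖ρ γ⁻¹ - ρ₀ γ⁻¹‖ + ‖ρ₀ γ⁻¹‖ := by
          calc ‖ρ γ⁻¹‖ = ‖(ρ γ⁻¹ - ρ₀ γ⁻¹) + ρ₀ γ⁻¹‖ := by rw [sub_add_cancel]
            _ ≤ _ := norm_add_le _ _
        linarith
      rw [norm_sub_rev]
      calc ‖ρ γ - ρ₀ γ‖ * ‖ρ γ⁻¹‖ ≤ δ / (8 * M') * (2 * M') := by gcongr
        _ = δ / 2 / 2 := by field_simp; norm_num
  · intro htriv
    refine FlowData.Triv.transfer F hρ h₀ χ hχ hχs hχ0 hχD hχw (δ := δ / 2) (by positivity)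
      (fun g hg => ?_) (fun γ hγ => ?_) htriv
    · have p1 : δ ≤ ‖⟪F.topv (FlowData.Dom.contra F h₀) (g * F.w), F.topv h₀ g⟫_ℂ‖ :=
        hpair g hg
      have p2 := norm_inner_le_add (F.norm_topv (FlowData.Dom.contra F h₀) (g * F.w))
        (F.norm_topv (FlowData.Dom.contra F hρ) (g * F.w)) (F.norm_topv h₀ g)
      have p3 := k2 (g * F.w) (F.right_w _ hg)
      rw [S_symm (F.norm_topv (FlowData.Dom.contra F h₀) (g * F.w))
        (F.norm_topv (FlowData.Dom.contra F hρ) (g * F.w))] at p3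
      rw [norm_inner_symm] at p1
      rw [norm_inner_symm]
      linarith
    · have hγ' : γ ∈ T₃ := by rw [hT₃, Set.Finite.mem_toFinset]; exact hγ
      have q1 := hc3 γ hγ'
      have q3 := hM' γ hγ'
      calc ‖ρ γ - ρ₀ γ‖ * ‖ρ₀ γ⁻¹‖ ≤ δ / (8 * M') * M' := by gcongr
        _ ≤ δ / 2 / 2 := by
          have : δ / (8 * M') * M' = δ / 8 := by field_simp
          rw [this]
          linarith

end Pool.Agent.Hhelper63.Anosov
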