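import Pool.Agent.Hhelper63.Anosov.NoOdd
import Pool.Agent.Hhelper67.Anosov.Defs
import Pool.Agent.Hhelper63.Anosov.Singular
import Pool.Agent.Hhelper63.Anosov.Sections

/-!
From Fuchsian representations to flow data, and from the Anosov condition to domination.
-/

namespace Pool.Agent.Hhelper63.Anosov

open scoped InnerProductSpace Pointwise Topology
open Matrix
open Pool.Agent.Hhelper67.Anosov (sv wordLen IsAnosov anosovSet rho3 rho21)

/-- the flow element -/
noncomputable def a0 : SL2 := ⟨!![2, 0; 0, 1 / 2], by simp [Matrix.det_fin_two]⟩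

/-- the flow-reversing element -/
def w0 : SL2 := ⟨!![0, -1; 1, 0], by simp [Matrix.det_fin_two]⟩

theorem a0_mul_w0 : a0 * w0 = w0 * a0⁻¹ := by
  ext i j
  fin_cases i <;> fin_cases j <;>
    simp [a0, w0, Matrix.mul_apply, Fin.sum_univ_two, Matrix.adjugate_fin_two]

theorem w0_sq : w0 ^ 2 = -1 := by
  rw [sq]
  ext i j
  fin_cases i <;> fin_cases j <;> simp [w0, Matrix.mul_apply, Fin.sum_univ_two]

theorem a0_pow (n : ℕ) : (a0 ^ n).1 = !![2 ^ n, 0; 0, (1 / 2) ^ n] := by
  induction n with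
  | zero =>
    ext i j
    fin_cases i <;> fin_cases j <;> simp
  | succ n ih =>
    have : (a0 ^ (n + 1)).1 = (a0 ^ n).1 * a0.1 := by rw [pow_succ]; rfl
    rw [this, ih]
    ext i j
    fin_cases i <;> fin_cases j <;> simp [a0, Matrix.mul_apply, Fin.sum_univ_two, pow_succ]

/-- sum of the absolute values of the entries -/
def N1 (g : SL2) : ℝ := |g.1 0 0| + |g.1 0 1| + |g.1 1 0| + |g.1 1 1|

theorem N1_nonneg (g : SL2) : 0 ≤ N1 g := by unfold N1; positivity

theorem N1_mul_le (g h : SL2) : N1 (g * h) ≤ N1 g * N1 h := by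
  unfold N1
  have e : ∀ i j, (g * h).1 i j = g.1 i 0 * h.1 0 j + g.1 i 1 * h.1 1 j := by
    intro i j
    change (g.1 * h.1) i j = _
    rw [Matrix.mul_apply, Fin.sum_univ_two]
  have key : ∀ i j, |(g * h).1 i j| ≤ |g.1 i 0| * |h.1 0 j| + |g.1 i 1| * |h.1 1 j| := by
    intro i j
    rw [e, ← abs_mul, ← abs_mul]
    exact abs_add_le _ _
  have k1 := key 0 0
  have k2 := key 0 1
  have k3 := key 1 0
  have k4 := key 1 1
  have p1 := abs_nonneg (g.1 0 0)
  have p2 := abs_nonneg (g.1 0 1)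
  have p3 := abs_nonneg (g.1 1 0)
  have p4 := abs_nonneg (g.1 1 1)
  have q1 := abs_nonneg (h.1 0 0)
  have q2 := abs_nonneg (h.1 0 1)
  have q3 := abs_nonneg (h.1 1 0)
  have q4 := abs_nonneg (h.1 1 1)
  have r1 := mul_nonneg p1 q3
  have r2 := mul_nonneg p1 q4
  have r3 := mul_nonneg p2 q1
  have r4 := mul_nonneg p2 q2
  have r5 := mul_nonneg p3 q3
  have r6 := mul_nonneg p3 q4
  have r7 := mul_nonneg p4 q1
  have r8 := mul_nonneg p4 q2
  nlinarith

theorem N1_inv (g : SL2) : N1 g⁻¹ = N1 g := by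
  unfold N1
  rw [Matrix.SpecialLinearGroup.coe_inv, Matrix.adjugate_fin_two]
  simp only [Matrix.of_apply, Matrix.cons_val', Matrix.cons_val_zero, Matrix.cons_val_one,
    Matrix.cons_val_fin_one, abs_neg]
  ring

theorem N1_one : N1 1 = 2 := by
  unfold N1
  simp
  norm_num

theorem continuous_N1 : Continuous N1 := by
  have h : ∀ i j, Continuous fun g : SL2 => g.1 i j := fun i j =>
    (continuous_apply_apply i j).comp continuous_subtype_val
  unfold N1
  exact (((h 0 0).abs.add (h 0 1).abs).add (h 1 0).abs).add (h 1 1).abs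

theorem two_pow_le_N1 (n : ℕ) : 2 ^ n ≤ N1 (a0 ^ n) := by
  unfold N1
  rw [a0_pow]
  simp only [Matrix.of_apply, Matrix.cons_val', Matrix.cons_val_zero, Matrix.cons_val_one,
    Matrix.cons_val_fin_one]
  rw [abs_of_pos (by positivity : (0 : ℝ) < 2 ^ n), abs_of_pos (by positivity : (0:ℝ) < (1/2)^n)]
  have : (0 : ℝ) < (1 / 2) ^ n := by positivity
  simp only [abs_zero]
  linarith

/-- Flow data from a discrete cocompact representation. -/
theorem exists_flowData {Γ : Type*} [Group Γ] (φ : Γ →* SL2) (hinj : Function.Injective φ)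
    (hdisc : DiscreteTopology φ.range) (hcomp : CompactSpace (SL2 ⧸ φ.range)) :
    ∃ F : FlowData Γ SL2, F.φ = φ ∧ F.a = a0 ∧ F.w = w0 := by
  -- a compact set meeting every orbit
  obtain ⟨V, hV, hV1⟩ := exists_compact_mem_nhds (1 : SL2)
  have hcover : (Set.univ : Set (SL2 ⧸ φ.range)) ⊆
      ⋃ g : SL2, (QuotientGroup.mk : SL2 → SL2 ⧸ φ.range) '' ((fun x => g * x) '' interior V) := by
    intro y _
    obtain ⟨g, rfl⟩ := QuotientGroup.mk_surjective y
    refine Set.mem_iUnion.2 ⟨g, g, ⟨1, mem_interior_iff_mem_nhds.2 hV1, mul_one g⟩, rfl⟩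
  obtain ⟨t, ht⟩ := isCompact_univ.elim_finite_subcover _
    (fun g => QuotientGroup.isOpenMap_coe _ ((isOpenMap_mul_left g) _ isOpen_interior)) hcover
  set K : Set SL2 := (⋃ g ∈ t, (fun x => g * x) '' V)⁻¹ with hK
  have hKc : IsCompact K := by
    apply IsCompact.inv
    apply t.isCompact_biUnion
    intro g _
    exact hV.image (continuous_const_mul g)
  have hKcov : ∀ g : SL2, ∃ γ : Γ, (φ γ)⁻¹ * g ∈ K := by
    intro g
    have h1 := ht (Set.mem_univ (QuotientGroup.mk g⁻¹))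
    simp only [Set.mem_iUnion] at h1
    obtain ⟨x, hx, y, ⟨v, hv, rfl⟩, hy⟩ := h1
    rw [QuotientGroup.eq] at hy
    obtain ⟨γ, hγ⟩ := hy
    -- `φ γ = (x * v)⁻¹ * g⁻¹`
    refine ⟨γ⁻¹, ?_⟩
    rw [hK, Set.mem_inv]
    simp only [Set.mem_iUnion]
    refine ⟨x, hx, v, interior_subset hv, ?_⟩
    rw [map_inv, inv_inv, hγ]
    group
  obtain ⟨D₀, hD₀, hKD⟩ := exists_compact_superset hKc
  set D : Set SL2 := D₀ ∪ (fun x => x * w0) '' D₀ ∪ (fun x => x * w0 ^ 2) '' D₀ ∪
    (fun x => x * w0 ^ 3) '' D₀ with hD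
  have hw4 : w0 ^ 3 * w0 = 1 := by
    rw [← pow_succ]
    have : w0 ^ 4 = (w0 ^ 2) ^ 2 := by rw [← pow_mul]
    rw [this, w0_sq]
    simp
  refine ⟨⟨φ, a0, w0, D, ?_, ?_, ?_, a0_mul_w0, ?_⟩, rfl, rfl, rfl⟩
  · exact ((hD₀.union (hD₀.image (continuous_mul_const _))).union
      (hD₀.image (continuous_mul_const _))).union (hD₀.image (continuous_mul_const _))
  · intro g
    obtain ⟨γ, hγ⟩ := hKcov g
    refine ⟨γ, ?_⟩
    have h1 : D₀ ⊆ D := fun x hx => Or.inl (Or.inl (Or.inl hx))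
    exact interior_mono h1 (hKD hγ)
  · intro d hd
    rcases hd with ((hd | ⟨x, hx, rfl⟩) | ⟨x, hx, rfl⟩) | ⟨x, hx, rfl⟩
    · exact Or.inl (Or.inl (Or.inr ⟨d, hd, rfl⟩))
    · exact Or.inl (Or.inr ⟨x, hx, by simp only [sq, mul_assoc]⟩)
    · exact Or.inr ⟨x, hx, by simp only [pow_succ, pow_zero, one_mul, mul_assoc]⟩
    · refine Or.inl (Or.inl (Or.inl ?_))
      simp only [mul_assoc, hw4, mul_one]
      exact hx
  · intro K' hK'
    have hcl : IsClosed (φ.range : Set SL2) := Subgroup.isClosed_of_discrete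
    have h1 : IsCompact (K' ∩ (φ.range : Set SL2)) := hK'.inter_right hcl
    have h2 : (K' ∩ (φ.range : Set SL2)).Finite := by
      apply h1.finite
      have hd : IsDiscrete (φ.range : Set SL2) := ⟨hdisc⟩
      exact hd.mono Set.inter_subset_right
    have h3 : {γ : Γ | φ γ ∈ K'} = φ ⁻¹' (K' ∩ (φ.range : Set SL2)) := by
      ext γ
      simp
    rw [h3]
    exact h2.preimage hinj.injOn

/-! ### Word length -/

section Word

variable {Γ : Type*} [Group Γ] {S : Finset Γ}

theorem exists_word (hS : Subgroup.closure (S : Set Γ) = ⊤) (γ : Γ) : ∃ l : List Γ,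
    (∀ x ∈ l, x ∈ S ∨ x⁻¹ ∈ S) ∧ l.prod = γ := by
  have hγ : γ ∈ Subgroup.closure (S : Set Γ) := by
    rw [hS]
    trivial
  induction hγ using Subgroup.closure_induction with
  | mem x hx =>
    refine ⟨[x], fun y hy => Or.inl ?_, by simp⟩
    rw [List.mem_singleton] at hy
    rw [hy]
    exact hx
  | one => exact ⟨[], by simp, by simp⟩
  | mul x y _ _ hx hy =>
    obtain ⟨l, hl, rfl⟩ := hx
    obtain ⟨m, hm, rfl⟩ := hy
    refine ⟨l ++ m, fun z hz => ?_, by simp⟩
    rcases List.mem_append.1 hz with h | h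
    · exact hl z h
    · exact hm z h
  | inv x _ hx =>
    obtain ⟨l, hl, rfl⟩ := hx
    refine ⟨(l.map fun x => x⁻¹).reverse, fun z hz => ?_, by rw [← List.prod_inv_reverse]⟩
    rw [List.mem_reverse, List.mem_map] at hz
    obtain ⟨y, hy, rfl⟩ := hz
    rcases hl y hy with h | h
    · right
      rwa [inv_inv]
    · exact Or.inl h

theorem exists_word_length (hS : Subgroup.closure (S : Set Γ) = ⊤) (γ : Γ) : ∃ l : List Γ,
    l.length = wordLen S γ ∧ (∀ x ∈ l, x ∈ S ∨ x⁻¹ ∈ S) ∧ l.prod = γ := by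
  obtain ⟨l, hl, hl'⟩ := exists_word hS γ
  exact Nat.sInf_mem (s := {n | ∃ l : List Γ, l.length = n ∧
    (∀ x ∈ l, x ∈ S ∨ x⁻¹ ∈ S) ∧ l.prod = γ}) ⟨l.length, l, rfl, hl, hl'⟩

/-- upper bound of the norm by the word length -/
theorem exists_N1_le (hS : Subgroup.closure (S : Set Γ) = ⊤) (φ : Γ →* SL2) :
    ∃ κ : ℝ, 1 < κ ∧ ∀ γ, N1 (φ γ) ≤ 2 * κ ^ wordLen S γ := by
  classical
  set M : ℝ := ∑ s ∈ S, N1 (φ s) with hM
  have hM0 : 0 ≤ M := Finset.sum_nonneg fun i _ => N1_nonneg _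
  have hle : ∀ s ∈ S, N1 (φ s) ≤ M := fun s hs =>
    Finset.single_le_sum (f := fun s => N1 (φ s)) (fun j _ => N1_nonneg _) hs
  refine ⟨M + 2, by linarith, fun γ => ?_⟩
  obtain ⟨l, hl, hl', rfl⟩ := exists_word_length hS γ
  rw [← hl]
  have key : ∀ l : List Γ, (∀ x ∈ l, x ∈ S ∨ x⁻¹ ∈ S) →
      N1 (φ l.prod) ≤ 2 * (M + 2) ^ l.length := by
    intro l
    induction l with
    | nil =>
      intro _
      simp [N1_one]
    | cons x l ih =>
      intro hx
      have h1 := ih fun y hy => hx y (List.mem_cons_of_mem _ hy)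
      have h2 : N1 (φ x) ≤ M + 2 := by
        rcases hx x List.mem_cons_self with h | h
        · linarith [hle x h]
        · have := hle _ h
          rw [map_inv, N1_inv] at this
          linarith
      rw [List.prod_cons, map_mul, List.length_cons, pow_succ]
      calc N1 (φ x * φ l.prod) ≤ N1 (φ x) * N1 (φ l.prod) := N1_mul_le _ _
        _ ≤ (M + 2) * (2 * (M + 2) ^ l.length) := by
            gcongr
            exact N1_nonneg _
        _ = _ := by ring
  exact key l hl'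

/-- lower bound of the word length along the flow -/
theorem exists_wordLength_ge (hS : Subgroup.closure (S : Set Γ) = ⊤) (F : FlowData Γ SL2)
    (ha : F.a = a0) :
    ∃ A B : ℝ, 0 < A ∧ ∀ h ∈ F.D, ∀ n γ, F.Q h n γ →
      A * n - B ≤ wordLen S γ ∧ A * n - B ≤ wordLen S γ⁻¹ := by
  obtain ⟨κ, hκ, hN⟩ := exists_N1_le hS F.φ
  obtain ⟨M, hM⟩ := (F.compact.image continuous_N1).bddAbove
  have hM' : ∀ d ∈ F.D, N1 d ≤ max M 1 := fun d hd =>
    (hM ⟨d, hd, rfl⟩).trans (le_max_left _ _)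
  set M' := max M 1 with hM'def
  have hM1 : 1 ≤ M' := le_max_right _ _
  have hlogκ : 0 < Real.log κ := Real.log_pos hκ
  have hlog2 : 0 < Real.log 2 := Real.log_pos one_lt_two
  refine ⟨Real.log 2 / Real.log κ, Real.log (2 * M' ^ 2) / Real.log κ, by positivity,
    fun h hh n γ hγ => ?_⟩
  have key : ∀ η : Γ, N1 (F.φ η) = N1 (F.φ γ) →
      Real.log 2 / Real.log κ * n - Real.log (2 * M' ^ 2) / Real.log κ ≤ wordLen S η := by
    intro η hη
    have e : a0 ^ n = h⁻¹ * F.φ γ * ((F.φ γ)⁻¹ * h * a0 ^ n) := by group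
    have h1 : N1 (a0 ^ n) ≤ M' * N1 (F.φ γ) * M' := by
      rw [e]
      have hγ' : (F.φ γ)⁻¹ * h * a0 ^ n ∈ F.D := by
        have := hγ
        unfold FlowData.Q at this
        rwa [ha] at this
      calc _ ≤ N1 (h⁻¹ * F.φ γ) * N1 ((F.φ γ)⁻¹ * h * a0 ^ n) := N1_mul_le _ _
        _ ≤ (N1 h⁻¹ * N1 (F.φ γ)) * M' := by
            gcongr
            · exact N1_nonneg _
            · exact mul_nonneg (N1_nonneg _) (N1_nonneg _)
            · exact N1_mul_le _ _
            · exact hM' _ hγ'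
        _ ≤ _ := by
            rw [N1_inv]
            have h5 := hM' h hh
            have h6 := N1_nonneg (F.φ γ)
            gcongr
    have h2 : (2 : ℝ) ^ n ≤ 2 * M' ^ 2 * κ ^ wordLen S η := by
      calc (2 : ℝ) ^ n ≤ N1 (a0 ^ n) := two_pow_le_N1 n
        _ ≤ M' * N1 (F.φ γ) * M' := h1
        _ = M' ^ 2 * N1 (F.φ η) := by rw [hη]; ring
        _ ≤ M' ^ 2 * (2 * κ ^ wordLen S η) := by
            gcongr
            exact hN η
        _ = _ := by ring
    have h3 := Real.log_le_log (by positivity) h2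
    rw [Real.log_pow, Real.log_mul (by positivity) (by positivity), Real.log_pow] at h3
    rw [div_mul_eq_mul_div, ← sub_div, div_le_iff₀ hlogκ]
    linarith
  exact ⟨key γ rfl, key γ⁻¹ (by rw [map_inv, N1_inv])⟩

end Word

/-! ### Operators -/

/-- The operator of a matrix in `SL(d, ℂ)`. -/
noncomputable def toOp (d : ℕ) : SpecialLinearGroup (Fin d) ℂ →*
    (EuclideanSpace ℂ (Fin d) →L[ℂ] EuclideanSpace ℂ (Fin d)) where
  toFun A := Matrix.toEuclideanCLM (𝕜 := ℂ) A.1
  map_one' := by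
    rw [Matrix.SpecialLinearGroup.coe_one, map_one]
  map_mul' A B := by
    rw [Matrix.SpecialLinearGroup.coe_mul, map_mul]

theorem toOp_coe (d : ℕ) (A : SpecialLinearGroup (Fin d) ℂ) :
    ((toOp d A : EuclideanSpace ℂ (Fin d) →L[ℂ] EuclideanSpace ℂ (Fin d)) :
      EuclideanSpace ℂ (Fin d) →ₗ[ℂ] EuclideanSpace ℂ (Fin d)) = Matrix.toEuclideanLin A.1 := rfl

theorem continuous_toOp (d : ℕ) : Continuous (toOp d) := by
  have h1 : Continuous fun A : Matrix (Fin d) (Fin d) ℂ =>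
      (Matrix.toEuclideanCLM (𝕜 := ℂ) A : EuclideanSpace ℂ (Fin d) →L[ℂ] _) :=
    LinearMap.continuous_of_finiteDimensional
      ((Matrix.toEuclideanCLM (𝕜 := ℂ) (n := Fin d)).toAlgEquiv.toLinearMap)
  exact h1.comp continuous_subtype_val

/-- Anosov representations are dominated. -/
theorem dom_of_isAnosov {Γ : Type*} [Group Γ] {S : Finset Γ}
    (hS : Subgroup.closure (S : Set Γ) = ⊤) {d : ℕ} (hd : 0 < d) (F : FlowData Γ SL2)
    (ha : F.a = a0) {θ : Set ℕ} (hθ : 1 ∈ θ)
    {ρ : Γ →* SpecialLinearGroup (Fin d) ℂ} (hρ : IsAnosov S θ ρ) :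
    F.Dom ((toOp d).comp ρ) := by
  obtain ⟨A, B, hA, hAB⟩ := exists_wordLength_ge hS F ha
  obtain ⟨C, c, hC, hc, hgap⟩ := hρ
  refine ⟨Real.exp (-(c * A)), C⁻¹ * Real.exp (c * B), Real.exp_pos _, ?_, by positivity,
    fun h hh n γ hγ => ?_⟩
  · rw [Real.exp_lt_one_iff]
    have := mul_pos hc hA
    linarith
  have key : ∀ η : Γ, A * n - B ≤ wordLen S η →
      GapLe (((toOp d).comp ρ) η) (C⁻¹ * Real.exp (c * B) * Real.exp (-(c * A)) ^ n) := by
    intro η hη
    have h1 := hgap η 1 hθ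
    unfold Pool.Agent.Hhelper67.Anosov.sv at h1
    simp only [Nat.sub_self, Nat.add_sub_cancel] at h1
    have hn0 := (Matrix.toEuclideanLin (ρ η).1).singularValues_nonneg 0
    have hn1 := (Matrix.toEuclideanLin (ρ η).1).singularValues_nonneg 1
    have hpos : 0 < (Matrix.toEuclideanLin (ρ η).1).singularValues 0 /
        (Matrix.toEuclideanLin (ρ η).1).singularValues 1 :=
      lt_of_lt_of_le (by positivity) h1
    have hp1 : 0 < (Matrix.toEuclideanLin (ρ η).1).singularValues 1 := by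
      rcases hn1.lt_or_eq with h | h
      · exact h
      · rw [← h, div_zero] at hpos
        exact absurd hpos (lt_irrefl 0)
    have hp0 : 0 < (Matrix.toEuclideanLin (ρ η).1).singularValues 0 := by
      rcases hn0.lt_or_eq with h | h
      · exact h
      · rw [← h, zero_div] at hpos
        exact absurd hpos (lt_irrefl 0)
    have hfin : 0 < Module.finrank ℂ (EuclideanSpace ℂ (Fin d)) := by
      rw [finrank_euclideanSpace_fin]
      exact hd
    refine gapLe_of_singularValues (((toOp d).comp ρ) η) hfin hp0 ?_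
    rw [le_div_iff₀ hp1] at h1
    have h2 : C⁻¹ * Real.exp (c * B) * Real.exp (-(c * A)) ^ n =
        C⁻¹ * Real.exp (-(c * (A * n - B))) := by
      rw [← Real.exp_nat_mul, mul_assoc, ← Real.exp_add]
      congr 2
      ring
    have h3 : Real.exp (-(c * wordLen S η)) ≤ Real.exp (-(c * (A * n - B))) := by
      apply Real.exp_le_exp.2
      have := mul_le_mul_of_nonneg_left hη hc.le
      linarith
    rw [h2]
    have h4 : (Matrix.toEuclideanLin (ρ η).1).singularValues 1 ≤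
        C⁻¹ * Real.exp (-(c * wordLen S η)) *
          (Matrix.toEuclideanLin (ρ η).1).singularValues 0 := by
      have h5 : C⁻¹ * Real.exp (-(c * wordLen S η)) * (C * Real.exp (c * wordLen S η) *
          (Matrix.toEuclideanLin (ρ η).1).singularValues 1) =
          (Matrix.toEuclideanLin (ρ η).1).singularValues 1 := by
        rw [Real.exp_neg]
        field_simp
      calc _ = C⁻¹ * Real.exp (-(c * wordLen S η)) * (C * Real.exp (c * wordLen S η) *
          (Matrix.toEuclideanLin (ρ η).1).singularValues 1) := h5.symm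
        _ ≤ _ := by gcongr
    refine h4.trans ?_
    have h6 : C⁻¹ * Real.exp (-(c * wordLen S η)) ≤ C⁻¹ * Real.exp (-(c * (A * n - B))) := by
      gcongr
    exact mul_le_mul_of_nonneg_right h6 hp0.le
  obtain ⟨h1, h2⟩ := hAB h hh n γ hγ
  exact ⟨key γ h1, key γ⁻¹ h2⟩

end Pool.Agent.Hhelper63.Anosov
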