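import Pool.Agent.Hhelper63.Anosov.Line

/-!
Top lines of dominated representations along the orbits of a flow.
-/

namespace Pool.Agent.Hhelper63.Anosov

open scoped InnerProductSpace Pointwise

/-- A discrete cocompact `φ : Γ → G`, with an element `a` (the flow), an element `w` reversing the
flow, and a compact set `D` whose interior meets every orbit. -/
structure FlowData (Γ G : Type*) [Group Γ] [Group G] [TopologicalSpace G]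
    [IsTopologicalGroup G] where
  φ : Γ →* G
  a : G
  w : G
  D : Set G
  compact : IsCompact D
  cover : ∀ g : G, ∃ γ : Γ, (φ γ)⁻¹ * g ∈ interior D
  right_w : ∀ d ∈ D, d * w ∈ D
  w_a : a * w = w * a⁻¹
  proper : ∀ K : Set G, IsCompact K → {γ : Γ | φ γ ∈ K}.Finite

variable {Γ G : Type*} [Group Γ] [Group G] [TopologicalSpace G] [IsTopologicalGroup G]
  (F : FlowData Γ G)
  {V : Type*} [NormedAddCommGroup V] [InnerProductSpace ℂ V]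

/-- `γ` follows the orbit of `g` at time `n`. -/
def FlowData.Q (g : G) (n : ℕ) (γ : Γ) : Prop := (F.φ γ)⁻¹ * g * F.a ^ n ∈ F.D

theorem FlowData.exists_Q (g : G) (n : ℕ) : ∃ γ, F.Q g n γ := by
  obtain ⟨γ, hγ⟩ := F.cover (g * F.a ^ n)
  refine ⟨γ, ?_⟩
  unfold FlowData.Q
  rw [mul_assoc]
  exact interior_subset hγ

theorem FlowData.Q_mul_left {g : G} {n : ℕ} {γ η : Γ} :
    F.Q (F.φ η * g) n γ ↔ F.Q g n (η⁻¹ * γ) := by
  unfold FlowData.Q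
  rw [map_mul, map_inv, mul_inv_rev, inv_inv]
  constructor <;> intro h <;> convert h using 1 <;> group

theorem FlowData.Q_mul_a {g : G} {n : ℕ} {γ : Γ} :
    F.Q (g * F.a) n γ ↔ F.Q g (n + 1) γ := by
  unfold FlowData.Q
  rw [pow_succ']
  simp only [mul_assoc]

theorem FlowData.a_w (n : ℕ) : F.a ^ n * F.w = F.w * (F.a⁻¹) ^ n := by
  induction n with
  | zero => simp
  | succ n ih =>
    rw [pow_succ, mul_assoc, F.w_a, ← mul_assoc, ih, mul_assoc, ← pow_succ]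

theorem FlowData.w_inv_a : F.a⁻¹ * F.w = F.w * F.a := by
  have h := F.w_a
  rw [inv_mul_eq_iff_eq_mul, ← mul_assoc, h, mul_assoc, inv_mul_cancel, mul_one]

theorem FlowData.inv_a_w (n : ℕ) : (F.a⁻¹) ^ n * F.w = F.w * F.a ^ n := by
  induction n with
  | zero => simp
  | succ n ih =>
    rw [pow_succ, mul_assoc, F.w_inv_a, ← mul_assoc, ih, mul_assoc, ← pow_succ]

theorem FlowData.Q_w_sq {g : G} {n : ℕ} {γ : Γ} (h : F.Q g n γ) :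
    F.Q (g * F.w ^ 2) n γ := by
  unfold FlowData.Q at *
  have h1 : F.w ^ 2 * F.a ^ n = F.a ^ n * F.w ^ 2 := by
    rw [sq, ← mul_assoc (F.a ^ n), F.a_w, mul_assoc F.w ((F.a⁻¹) ^ n), F.inv_a_w, mul_assoc]
  have h2 : (F.φ γ)⁻¹ * (g * F.w ^ 2) * F.a ^ n = (F.φ γ)⁻¹ * g * F.a ^ n * F.w * F.w := by
    rw [mul_assoc, mul_assoc, h1, sq]
    simp only [mul_assoc]
  rw [h2]
  exact F.right_w _ (F.right_w _ h)

/-- The top line property. -/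
def FlowData.IsTop (ρ : Γ →* (V →L[ℂ] V)) (g : G) (v : V) : Prop :=
  v ≠ 0 ∧ ∀ ε > 0, ∃ n₀ : ℕ, ∀ n ≥ n₀, ∀ γ, F.Q g n γ →
    ∀ x, ∃ c : ℂ, ‖ρ γ x - c • v‖ ≤ ε * ‖ρ γ‖ * ‖x‖

/-- A representation is dominated (over the compact set `D`). -/
def FlowData.Dom (ρ : Γ →* (V →L[ℂ] V)) : Prop :=
  ∃ q C : ℝ, 0 < q ∧ q < 1 ∧ 0 ≤ C ∧ ∀ g ∈ F.D, ∀ n γ, F.Q g n γ →
    GapLe (ρ γ) (C * q ^ n) ∧ GapLe (ρ γ⁻¹) (C * q ^ n)

theorem rep_ne_zero [Nontrivial V] (ρ : Γ →* (V →L[ℂ] V)) (γ : Γ) : ρ γ ≠ 0 := by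
  intro h
  have h1 : ρ γ * ρ γ⁻¹ = 1 := by rw [← map_mul, mul_inv_cancel, map_one]
  rw [h, zero_mul] at h1
  exact zero_ne_one h1

theorem rep_inv_apply (ρ : Γ →* (V →L[ℂ] V)) (γ : Γ) (x : V) : ρ γ⁻¹ (ρ γ x) = x := by
  have h1 : ρ γ⁻¹ * ρ γ = 1 := by rw [← map_mul, inv_mul_cancel, map_one]
  calc ρ γ⁻¹ (ρ γ x) = (ρ γ⁻¹ * ρ γ) x := rfl
    _ = x := by rw [h1]; rfl

theorem rep_apply_inv (ρ : Γ →* (V →L[ℂ] V)) (γ : Γ) (x : V) : ρ γ (ρ γ⁻¹ x) = x := by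
  have := rep_inv_apply ρ γ⁻¹ x
  rwa [inv_inv] at this

theorem rep_mul_apply (ρ : Γ →* (V →L[ℂ] V)) (γ η : Γ) (x : V) : ρ (γ * η) x = ρ γ (ρ η x) := by
  rw [map_mul]; rfl

theorem rep_apply_ne_zero (ρ : Γ →* (V →L[ℂ] V)) (γ : Γ) {x : V} (hx : x ≠ 0) : ρ γ x ≠ 0 := by
  intro h
  apply hx
  rw [← rep_inv_apply ρ γ x, h, map_zero]

theorem FlowData.IsTop.smul {ρ : Γ →* (V →L[ℂ] V)} {g : G} {v : V} (h : F.IsTop ρ g v)
    {c : ℂ} (hc : c ≠ 0) : F.IsTop ρ g (c • v) := by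
  refine ⟨smul_ne_zero hc h.1, fun ε hε => ?_⟩
  obtain ⟨n₀, hn⟩ := h.2 ε hε
  refine ⟨n₀, fun n hn' γ hγ x => ?_⟩
  obtain ⟨b, hb⟩ := hn n hn' γ hγ x
  refine ⟨b * c⁻¹, ?_⟩
  rwa [smul_smul, mul_assoc, inv_mul_cancel₀ hc, mul_one]

theorem FlowData.IsTop.map {ρ : Γ →* (V →L[ℂ] V)} {g : G} {v : V} (h : F.IsTop ρ g v)
    (η : Γ) : F.IsTop ρ (F.φ η * g) (ρ η v) := by
  refine ⟨rep_apply_ne_zero ρ η h.1, fun ε hε => ?_⟩
  have hM : 0 < ‖ρ η‖ * ‖ρ η⁻¹‖ + 1 := by positivity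
  obtain ⟨n₀, hn⟩ := h.2 (ε / (‖ρ η‖ * ‖ρ η⁻¹‖ + 1)) (by positivity)
  refine ⟨n₀, fun n hn' γ hγ x => ?_⟩
  rw [F.Q_mul_left] at hγ
  obtain ⟨c, hc⟩ := hn n hn' _ hγ x
  refine ⟨c, ?_⟩
  have h1 : ρ γ x - c • ρ η v = ρ η (ρ (η⁻¹ * γ) x - c • v) := by
    rw [map_sub, map_smul, ← rep_mul_apply, mul_inv_cancel_left]
  rw [h1]
  have h2 : ‖ρ (η⁻¹ * γ)‖ ≤ ‖ρ η⁻¹‖ * ‖ρ γ‖ := by
    rw [map_mul]; exact norm_mul_le _ _
  calc ‖ρ η (ρ (η⁻¹ * γ) x - c • v)‖ ≤ ‖ρ η‖ * ‖ρ (η⁻¹ * γ) x - c • v‖ := (ρ η).le_opNorm _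
    _ ≤ ‖ρ η‖ * (ε / (‖ρ η‖ * ‖ρ η⁻¹‖ + 1) * (‖ρ η⁻¹‖ * ‖ρ γ‖) * ‖x‖) := by
        gcongr
        exact hc.trans (by gcongr)
    _ = (ε * ‖ρ γ‖ * ‖x‖) * ((‖ρ η‖ * ‖ρ η⁻¹‖) / (‖ρ η‖ * ‖ρ η⁻¹‖ + 1)) := by ring
    _ ≤ (ε * ‖ρ γ‖ * ‖x‖) * 1 := by
        gcongr
        rw [div_le_one hM]
        linarith
    _ = _ := by ring

theorem FlowData.IsTop.mul_a {ρ : Γ →* (V →L[ℂ] V)} {g : G} {v : V} (h : F.IsTop ρ g v) :
    F.IsTop ρ (g * F.a) v := by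
  refine ⟨h.1, fun ε hε => ?_⟩
  obtain ⟨n₀, hn⟩ := h.2 ε hε
  exact ⟨n₀, fun n hn' γ hγ x => hn (n + 1) (by omega) γ (F.Q_mul_a.1 hγ) x⟩

theorem FlowData.IsTop.mul_a_inv {ρ : Γ →* (V →L[ℂ] V)} {g : G} {v : V} (h : F.IsTop ρ g v) :
    F.IsTop ρ (g * F.a⁻¹) v := by
  refine ⟨h.1, fun ε hε => ?_⟩
  obtain ⟨n₀, hn⟩ := h.2 ε hε
  refine ⟨n₀ + 1, fun n hn' γ hγ x => ?_⟩
  obtain ⟨m, rfl⟩ : ∃ m, n = m + 1 := ⟨n - 1, by omega⟩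
  refine hn m (by omega) γ ?_ x
  rw [← F.Q_mul_a, inv_mul_cancel_right] at hγ
  exact hγ

theorem FlowData.IsTop.mul_a_inv_pow {ρ : Γ →* (V →L[ℂ] V)} {g : G} {v : V}
    (h : F.IsTop ρ g v) (n : ℕ) : F.IsTop ρ (g * (F.a⁻¹) ^ n) v := by
  induction n with
  | zero => simpa using h
  | succ n ih =>
    rw [pow_succ, ← mul_assoc]
    exact ih.mul_a_inv

theorem FlowData.IsTop.mul_a_pow {ρ : Γ →* (V →L[ℂ] V)} {g : G} {v : V}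
    (h : F.IsTop ρ g v) (n : ℕ) : F.IsTop ρ (g * F.a ^ n) v := by
  induction n with
  | zero => simpa using h
  | succ n ih =>
    rw [pow_succ, ← mul_assoc]
    exact ih.mul_a

theorem FlowData.IsTop.of_w_sq {ρ : Γ →* (V →L[ℂ] V)} {g : G} {v : V}
    (h : F.IsTop ρ (g * F.w ^ 2) v) : F.IsTop ρ g v := by
  refine ⟨h.1, fun ε hε => ?_⟩
  obtain ⟨n₀, hn⟩ := h.2 ε hε
  exact ⟨n₀, fun n hn' γ hγ x => hn n hn' γ (F.Q_w_sq hγ) x⟩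

/-- Uniqueness of the top line. -/
theorem FlowData.IsTop.unique [Nontrivial V] {ρ : Γ →* (V →L[ℂ] V)} {g : G} {u v : V}
    (hu : F.IsTop ρ g u) (hv : F.IsTop ρ g v) (hun : ‖u‖ = 1) (hvn : ‖v‖ = 1) : S u v = 0 := by
  apply le_antisymm _ (S_nonneg _ _)
  apply le_of_forall_pos_le_add
  intro ε hε
  rw [zero_add]
  obtain ⟨n₁, h₁⟩ := hu.2 (ε / 4) (by positivity)
  obtain ⟨n₂, h₂⟩ := hv.2 (ε / 4) (by positivity)
  obtain ⟨γ, hγ⟩ := F.exists_Q g (max n₁ n₂)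
  obtain ⟨x, hx, hx'⟩ := exists_half (rep_ne_zero ρ γ)
  have hB : 0 < ‖ρ γ‖ := norm_pos_iff.2 (rep_ne_zero ρ γ)
  obtain ⟨c, hc⟩ := h₁ _ (le_max_left _ _) γ hγ x
  obtain ⟨c', hc'⟩ := h₂ _ (le_max_right _ _) γ hγ x
  have hz : ρ γ x ≠ 0 := by
    intro h0
    rw [h0, norm_zero] at hx'
    linarith
  have e1 : S u (ρ γ x) ≤ (ε / 2) * ‖ρ γ x‖ := by
    refine (S_le_of hun _ c).trans (hc.trans ?_)
    calc ε / 4 * ‖ρ γ‖ * ‖x‖ ≤ ε / 4 * (2 * ‖ρ γ x‖) * 1 := by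
          gcongr
          linarith
      _ = _ := by ring
  have e2 : S v (ρ γ x) ≤ (ε / 2) * ‖ρ γ x‖ := by
    refine (S_le_of hvn _ c').trans (hc'.trans ?_)
    calc ε / 4 * ‖ρ γ‖ * ‖x‖ ≤ ε / 4 * (2 * ‖ρ γ x‖) * 1 := by
          gcongr
          linarith
      _ = _ := by ring
  have := S_le_of_common hun hvn hz e1 e2
  linarith

theorem eq_smul_of_S_eq_zero {u v : V} (h : S u v = 0) : v = ⟪u, v⟫_ℂ • u := by
  unfold S at h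
  rw [norm_eq_zero, sub_eq_zero] at h
  exact h

/-- the finite set of one-step increments -/
theorem FlowData.exists_K [Nontrivial V] (ρ : Γ →* (V →L[ℂ] V)) :
    ∃ K : ℝ, 1 ≤ K ∧ ∀ g n γ γ', F.Q g n γ → F.Q g (n + 1) γ' →
      ‖ρ (γ⁻¹ * γ')‖ ≤ K ∧ ‖ρ (γ'⁻¹ * γ)‖ ≤ K := by
  have hcomp : IsCompact (F.D * {F.a} * F.D⁻¹) :=
    (F.compact.mul isCompact_singleton).mul F.compact.inv
  have hfin := F.proper _ hcomp
  obtain ⟨K₁, hK₁⟩ := (hfin.image (fun γ => ‖ρ γ‖)).bddAbove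
  obtain ⟨K₂, hK₂⟩ := (hfin.image (fun γ => ‖ρ γ⁻¹‖)).bddAbove
  refine ⟨max 1 (max K₁ K₂), le_max_left _ _, fun g n γ γ' h h' => ?_⟩
  have hmem : (γ⁻¹ * γ') ∈ {γ : Γ | F.φ γ ∈ F.D * {F.a} * F.D⁻¹} := by
    simp only [Set.mem_setOf_eq, map_mul, map_inv]
    have e : (F.φ γ)⁻¹ * F.φ γ' = ((F.φ γ)⁻¹ * g * F.a ^ n) * F.a *
        ((F.φ γ')⁻¹ * g * F.a ^ (n + 1))⁻¹ := by
      rw [pow_succ]; group
    rw [e]
    exact Set.mul_mem_mul (Set.mul_mem_mul h rfl) (Set.inv_mem_inv.2 h')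
  constructor
  · exact (hK₁ ⟨_, hmem, rfl⟩).trans ((le_max_left _ _).trans (le_max_right _ _))
  · have e : γ'⁻¹ * γ = (γ⁻¹ * γ')⁻¹ := by group
    rw [e]
    exact (hK₂ ⟨_, hmem, rfl⟩).trans ((le_max_right _ _).trans (le_max_right _ _))

theorem rep_norm_le_of_inv (ρ : Γ →* (V →L[ℂ] V)) {γ γ' : Γ} {K : ℝ}
    (h : ‖ρ (γ'⁻¹ * γ)‖ ≤ K) : ‖ρ γ‖ ≤ K * ‖ρ γ'‖ := by
  have e : ρ γ = ρ γ' * ρ (γ'⁻¹ * γ) := by rw [← map_mul, mul_inv_cancel_left]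
  calc ‖ρ γ‖ = ‖ρ γ' * ρ (γ'⁻¹ * γ)‖ := by rw [← e]
    _ ≤ ‖ρ γ'‖ * ‖ρ (γ'⁻¹ * γ)‖ := norm_mul_le _ _
    _ ≤ ‖ρ γ'‖ * K := by gcongr
    _ = _ := mul_comm _ _

/-- Existence of top lines with a uniform exponential estimate over `D`. -/
theorem FlowData.exists_top_uniform [FiniteDimensional ℂ V] [Nontrivial V]
    {ρ : Γ →* (V →L[ℂ] V)} (hρ : F.Dom ρ) :
    ∃ q C : ℝ, 0 < q ∧ q < 1 ∧ 0 ≤ C ∧ ∀ g ∈ F.D, ∃ v : V, ‖v‖ = 1 ∧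
      ∀ n γ, F.Q g n γ → ∀ x, S v (ρ γ x) ≤ C * q ^ n * ‖ρ γ‖ * ‖x‖ := by
  obtain ⟨q, C, hq0, hq1, hC, hgap⟩ := hρ
  obtain ⟨K, hK1, hK⟩ := F.exists_K ρ
  have hK0 : 0 ≤ K := by linarith
  set M : ℝ := 2 * (1 + K ^ 2) * C with hM
  have hM0 : 0 ≤ M := by positivity
  have h1q : 0 < 1 - q := by linarith
  refine ⟨q, C + M / (1 - q), hq0, hq1, by positivity, fun g hg => ?_⟩
  -- the sequence
  choose γs hγs using fun n => F.exists_Q g n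
  choose us hus using fun n => (hgap g hg n (γs n) (hγs n)).1
  -- step comparison
  have step : ∀ n γ u, F.Q g n γ → ‖u‖ = 1 → (∀ x, S u (ρ γ x) ≤ C * q ^ n * ‖ρ γ‖ * ‖x‖) →
      S u (us (n + 1)) ≤ M * q ^ n := by
    intro n γ u hγ hu hux
    obtain ⟨k1, k2⟩ := hK g n γ (γs (n + 1)) hγ (hγs (n + 1))
    have hcomp : (ρ γ) ∘L (ρ (γ⁻¹ * γs (n + 1))) = ρ (γs (n + 1)) := by
      have : ρ γ * ρ (γ⁻¹ * γs (n + 1)) = ρ (γs (n + 1)) := by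
        rw [← map_mul, mul_inv_cancel_left]
      exact this
    have h1 := dirs_close (B := ρ γ) (A := ρ (γ⁻¹ * γs (n + 1))) (K := K)
      (ε := C * q ^ n) (ε' := C * q ^ (n + 1)) hu (hus (n + 1)).1
      (by rw [hcomp]; exact rep_ne_zero ρ _) k1
      (by rw [hcomp]; exact rep_norm_le_of_inv ρ k2) (by positivity) (by positivity) hux
      (by rw [hcomp]; exact (hus (n + 1)).2)
    refine h1.trans ?_
    have h2 : C * q ^ (n + 1) ≤ C * q ^ n := by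
      gcongr C * ?_
      exact pow_le_pow_of_le_one hq0.le hq1.le (Nat.le_succ n)
    rw [hM]
    nlinarith
  -- long range comparison
  have long : ∀ n γ u, F.Q g n γ → ‖u‖ = 1 → (∀ x, S u (ρ γ x) ≤ C * q ^ n * ‖ρ γ‖ * ‖x‖) →
      ∀ m, S u (us (n + 1 + m)) ≤ M * q ^ n / (1 - q) - M * q ^ (n + 1 + m) / (1 - q) := by
    intro n γ u hγ hu hux m
    induction m with
    | zero =>
      have := step n γ u hγ hu hux
      have e : M * q ^ n / (1 - q) - M * q ^ (n + 1 + 0) / (1 - q) = M * q ^ n := by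
        rw [add_zero, pow_succ]
        field_simp
      rw [e]
      exact this
    | succ m ih =>
      have h1 := step (n + 1 + m) (γs (n + 1 + m)) (us (n + 1 + m)) (hγs _)
        (hus (n + 1 + m)).1 (hus (n + 1 + m)).2
      have h2 := S_triangle' hu (hus (n + 1 + m)).1 (hus (n + 1 + m + 1)).1
      have e : M * q ^ (n + 1 + m) / (1 - q) - M * q ^ (n + 1 + m + 1) / (1 - q) =
          M * q ^ (n + 1 + m) := by
        rw [pow_succ q (n + 1 + m)]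
        field_simp
      have e2 : n + 1 + (m + 1) = n + 1 + m + 1 := by ring
      rw [e2]
      linarith
  have long' : ∀ n γ u, F.Q g n γ → ‖u‖ = 1 → (∀ x, S u (ρ γ x) ≤ C * q ^ n * ‖ρ γ‖ * ‖x‖) →
      ∀ m ≥ n + 1, S u (us m) ≤ M * q ^ n / (1 - q) := by
    intro n γ u hγ hu hux m hm
    obtain ⟨k, rfl⟩ := Nat.exists_eq_add_of_le hm
    have h1 := long n γ u hγ hu hux k
    have h2 : 0 ≤ M * q ^ (n + 1 + k) / (1 - q) := by positivity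
    linarith
  -- limit point
  have hcs : IsCompact (Metric.sphere (0 : V) 1) := by
    haveI : ProperSpace V := FiniteDimensional.proper ℂ V
    exact isCompact_sphere _ _
  obtain ⟨v, hv, ψ, hψ, hlim⟩ := hcs.tendsto_subseq (x := us)
    (fun n => by simp [(hus n).1])
  have hvn : ‖v‖ = 1 := by simpa using hv
  refine ⟨v, hvn, fun n γ hγ x => ?_⟩
  obtain ⟨u, hu, hux⟩ := (hgap g hg n γ hγ).1
  have hSuv : S u v ≤ M * q ^ n / (1 - q) := by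
    have hcont : Continuous fun y : V => S u y := by
      unfold S
      fun_prop
    have h1 : Filter.Tendsto (fun k => S u (us (ψ k))) Filter.atTop (nhds (S u v)) :=
      (hcont.tendsto v).comp hlim
    refine le_of_tendsto h1 ?_
    filter_upwards [Filter.eventually_ge_atTop (n + 1)] with k hk
    exact long' n γ u hγ hu hux _ (hk.trans (hψ.id_le k))
  have := gap_transfer hu hvn hux hSuv x
  refine this.trans (le_of_eq ?_)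
  ring

theorem FlowData.exists_top_isTop [FiniteDimensional ℂ V] [Nontrivial V]
    {ρ : Γ →* (V →L[ℂ] V)} {q C : ℝ} (hq0 : 0 < q) (hq1 : q < 1) (hC : 0 ≤ C)
    {g : G} {v : V} (hv : ‖v‖ = 1)
    (h : ∀ n γ, F.Q g n γ → ∀ x, S v (ρ γ x) ≤ C * q ^ n * ‖ρ γ‖ * ‖x‖) : F.IsTop ρ g v := by
  refine ⟨by intro h0; simp [h0] at hv, fun ε hε => ?_⟩
  have hlim : Filter.Tendsto (fun n : ℕ => C * q ^ n) Filter.atTop (nhds 0) := by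
    simpa using (tendsto_pow_atTop_nhds_zero_of_lt_one hq0.le hq1).const_mul C
  obtain ⟨n₀, hn₀⟩ := Filter.eventually_atTop.1 (hlim.eventually (gt_mem_nhds hε))
  refine ⟨n₀, fun n hn γ hγ x => ⟨⟪v, ρ γ x⟫_ℂ, (h n γ hγ x).trans ?_⟩⟩
  have := (hn₀ n hn).le
  gcongr

/-- The uniform estimate, for every unit top vector. -/
theorem FlowData.Dom.uniform [FiniteDimensional ℂ V] [Nontrivial V]
    {ρ : Γ →* (V →L[ℂ] V)} (hρ : F.Dom ρ) :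
    ∃ q C : ℝ, 0 < q ∧ q < 1 ∧ 0 ≤ C ∧ ∀ g ∈ F.D, ∀ v : V, ‖v‖ = 1 → F.IsTop ρ g v →
      ∀ n γ, F.Q g n γ → ∀ x, S v (ρ γ x) ≤ C * q ^ n * ‖ρ γ‖ * ‖x‖ := by
  obtain ⟨q, C, hq0, hq1, hC, h⟩ := F.exists_top_uniform hρ
  refine ⟨q, C, hq0, hq1, hC, fun g hg v hv htop n γ hγ x => ?_⟩
  obtain ⟨u, hu, hux⟩ := h g hg
  have hutop : F.IsTop ρ g u := F.exists_top_isTop hq0 hq1 hC hu hux
  have h0 : S v u = 0 := htop.unique F hutop hv hu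
  have := S_triangle hv hu (ρ γ x)
  rw [h0, mul_zero, add_zero] at this
  exact this.trans (hux n γ hγ x)

theorem FlowData.Dom.exists_isTop [FiniteDimensional ℂ V] [Nontrivial V]
    {ρ : Γ →* (V →L[ℂ] V)} (hρ : F.Dom ρ) (g : G) : ∃ v : V, ‖v‖ = 1 ∧ F.IsTop ρ g v := by
  obtain ⟨q, C, hq0, hq1, hC, h⟩ := F.exists_top_uniform hρ
  obtain ⟨γ, hγ⟩ := F.cover g
  obtain ⟨u, hu, hux⟩ := h _ (interior_subset hγ)
  have hutop := F.exists_top_isTop hq0 hq1 hC hu hux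
  have h1 := hutop.map F γ
  rw [mul_inv_cancel_left] at h1
  have hn : 0 < ‖ρ γ u‖ := norm_pos_iff.2 h1.1
  refine ⟨((‖ρ γ u‖⁻¹ : ℝ) : ℂ) • ρ γ u, ?_, h1.smul F ?_⟩
  · rw [norm_smul, Complex.norm_real, norm_inv, norm_norm, inv_mul_cancel₀ hn.ne']
  · simpa using hn.ne'

end Pool.Agent.Hhelper63.Anosov
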