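import Pool.Agent.Hhelper63.Anosov.Top

/-!
Transversality of the top line and of the top line of the contragredient representation.
-/

namespace Pool.Agent.Hhelper63.Anosov

open scoped InnerProductSpace Pointwise

variable {Γ G : Type*} [Group Γ] [Group G] [TopologicalSpace G] [IsTopologicalGroup G]
  (F : FlowData Γ G)
  {V : Type*} [NormedAddCommGroup V] [InnerProductSpace ℂ V]

/-- The contragredient (conjugate dual) representation. -/
noncomputable def contra [CompleteSpace V] (ρ : Γ →* (V →L[ℂ] V)) : Γ →* (V →L[ℂ] V) where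
  toFun γ := ContinuousLinearMap.adjoint (ρ γ⁻¹)
  map_one' := by
    rw [inv_one, map_one]
    exact ContinuousLinearMap.adjoint_id
  map_mul' γ η := by
    rw [mul_inv_rev, map_mul]
    exact ContinuousLinearMap.adjoint_comp _ _

theorem contra_apply [CompleteSpace V] (ρ : Γ →* (V →L[ℂ] V)) (γ : Γ) :
    contra ρ γ = ContinuousLinearMap.adjoint (ρ γ⁻¹) := rfl

theorem norm_contra [CompleteSpace V] (ρ : Γ →* (V →L[ℂ] V)) (γ : Γ) :
    ‖contra ρ γ‖ = ‖ρ γ⁻¹‖ :=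
  LinearIsometryEquiv.norm_map _ _

theorem contra_contra [CompleteSpace V] (ρ : Γ →* (V →L[ℂ] V)) : contra (contra ρ) = ρ := by
  ext γ : 1
  rw [contra_apply, contra_apply, inv_inv, ContinuousLinearMap.adjoint_adjoint]

theorem inner_contra [CompleteSpace V] (ρ : Γ →* (V →L[ℂ] V)) (γ : Γ) (x y : V) :
    ⟪contra ρ γ x, ρ γ y⟫_ℂ = ⟪x, y⟫_ℂ := by
  rw [contra_apply, ContinuousLinearMap.adjoint_inner_left, rep_inv_apply]

theorem FlowData.Dom.contra [CompleteSpace V] {ρ : Γ →* (V →L[ℂ] V)} (h : F.Dom ρ) :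
    F.Dom (contra ρ) := by
  obtain ⟨q, C, hq0, hq1, hC, hgap⟩ := h
  refine ⟨q, C, hq0, hq1, hC, fun g hg n γ hγ => ?_⟩
  obtain ⟨h1, h2⟩ := hgap g hg n γ hγ
  refine ⟨?_, ?_⟩
  · rw [contra_apply]
    exact h2.adjoint
  · rw [contra_apply, inv_inv]
    exact h1.adjoint

theorem FlowData.transverse_of_mem [FiniteDimensional ℂ V] [Nontrivial V]
    {ρ : Γ →* (V →L[ℂ] V)} (hρ : F.Dom ρ) {g : G} (hg : g ∈ F.D) {u θ : V}
    (hu : F.IsTop ρ g u) (hθ : F.IsTop (haveI := FiniteDimensional.complete ℂ V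
      contra ρ) (g * F.w) θ) (hun : ‖u‖ = 1) (hθn : ‖θ‖ = 1) : ⟪θ, u⟫_ℂ ≠ 0 := by
  haveI := FiniteDimensional.complete ℂ V
  intro h0
  obtain ⟨q, C, hq0, hq1, hC, hun1⟩ := FlowData.Dom.uniform F hρ
  obtain ⟨q', C', hq0', hq1', hC', hun2⟩ := FlowData.Dom.uniform F (FlowData.Dom.contra F hρ)
  obtain ⟨K, hK1, hK⟩ := F.exists_K ρ
  have hK0 : 0 ≤ K := by linarith
  -- the past sequence
  have hex : ∀ m : ℕ, ∃ γ : Γ, (F.φ γ)⁻¹ * (g * (F.a⁻¹) ^ m) ∈ F.D := fun m => by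
    obtain ⟨γ, hγ⟩ := F.cover (g * (F.a⁻¹) ^ m)
    exact ⟨γ, interior_subset hγ⟩
  choose γs hγs using hex
  -- point d_m
  have hQ1 : ∀ m, F.Q (g * F.w) m (γs m) := by
    intro m
    unfold FlowData.Q
    have e : (F.φ (γs m))⁻¹ * (g * F.w) * F.a ^ m =
        (F.φ (γs m))⁻¹ * (g * (F.a⁻¹) ^ m) * F.w := by
      rw [mul_assoc, mul_assoc, ← F.inv_a_w m]
      simp only [mul_assoc]
    rw [e]
    exact F.right_w _ (hγs m)
  have hQ2 : ∀ m, F.Q ((F.φ (γs m))⁻¹ * (g * (F.a⁻¹) ^ m)) m (γs m)⁻¹ := by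
    intro m
    unfold FlowData.Q
    have e : (F.φ (γs m)⁻¹)⁻¹ * ((F.φ (γs m))⁻¹ * (g * (F.a⁻¹) ^ m)) * F.a ^ m = g := by
      rw [map_inv, inv_inv, mul_inv_cancel_left, mul_assoc, inv_pow, inv_mul_cancel, mul_one]
    rw [e]
    exact hg
  set v : ℕ → V := fun m => ρ (γs m)⁻¹ u with hv
  set B : ℕ → (V →L[ℂ] V) := fun m => ρ (γs m)⁻¹ with hB
  have hu0 : u ≠ 0 := hu.1
  have hv0 : ∀ m, 0 < ‖v m‖ := fun m => norm_pos_iff.2 (rep_apply_ne_zero ρ _ hu0)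
  have hB0 : ∀ m, 0 < ‖B m‖ := fun m => norm_pos_iff.2 (rep_ne_zero ρ _)
  -- upper bound
  have hU : ∀ m, ‖v m‖ ≤ C' * q' ^ m * ‖B m‖ := by
    intro m
    have h1 := hun2 (g * F.w) (F.right_w _ hg) θ hθn hθ m (γs m) (hQ1 m) (v m)
    rw [norm_contra] at h1
    have h2 : ⟪v m, B m u⟫_ℂ = ⟪Pool.Agent.Hhelper63.Anosov.contra ρ (γs m) (v m), u⟫_ℂ := by
      rw [contra_apply, ContinuousLinearMap.adjoint_inner_left]
    have h3 : ⟪Pool.Agent.Hhelper63.Anosov.contra ρ (γs m) (v m), u⟫_ℂ =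
        ⟪Pool.Agent.Hhelper63.Anosov.contra ρ (γs m) (v m) -
          ⟪θ, Pool.Agent.Hhelper63.Anosov.contra ρ (γs m) (v m)⟫_ℂ • θ, u⟫_ℂ := by
      rw [inner_sub_left, inner_smul_left, h0, mul_zero, sub_zero]
    have h4 : ‖v m‖ ^ 2 = ‖⟪v m, B m u⟫_ℂ‖ := by
      have : B m u = v m := rfl
      rw [this, inner_self_eq_norm_sq_to_K]
      simp
    have h5 : ‖v m‖ ^ 2 ≤ C' * q' ^ m * ‖B m‖ * ‖v m‖ := by
      rw [h4, h2, h3]
      calc _ ≤ ‖Pool.Agent.Hhelper63.Anosov.contra ρ (γs m) (v m) -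
          ⟪θ, Pool.Agent.Hhelper63.Anosov.contra ρ (γs m) (v m)⟫_ℂ • θ‖ * ‖u‖ :=
            norm_inner_le_norm _ _
        _ ≤ _ := by
            rw [hun, mul_one]
            exact h1
    have := hv0 m
    nlinarith
  -- lower recursion
  have hL : ∀ m, (1 - K ^ 2 * (C * q ^ m)) * ‖v m‖ * ‖B (m + 1)‖ ≤ ‖v (m + 1)‖ * ‖B m‖ := by
    intro m
    obtain ⟨k1, k2⟩ := hK (g * F.w) m (γs m) (γs (m + 1)) (hQ1 m) (hQ1 (m + 1))
    set A : V →L[ℂ] V := ρ ((γs (m + 1))⁻¹ * γs m) with hA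
    have hAB : ∀ x, A (B m x) = B (m + 1) x := by
      intro x
      rw [hA, hB]
      simp only
      rw [← rep_mul_apply, mul_assoc, mul_inv_cancel, mul_one]
    have hBB : ‖B m‖ ≤ K * ‖B (m + 1)‖ := by
      have e : B m = ρ ((γs m)⁻¹ * γs (m + 1)) * B (m + 1) := by
        rw [hB]
        simp only
        rw [← map_mul, mul_assoc, mul_inv_cancel, mul_one]
      rw [e]
      exact (norm_mul_le _ _).trans (by gcongr)
    have hvA : v (m + 1) = A (v m) := (hAB u).symm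
    -- normalised vector
    set vh : V := ((‖v m‖⁻¹ : ℝ) : ℂ) • v m with hvh
    have hvhn : ‖vh‖ = 1 := by
      rw [hvh, norm_smul, Complex.norm_real, norm_inv, norm_norm, inv_mul_cancel₀ (hv0 m).ne']
    have htop : F.IsTop ρ ((F.φ (γs m))⁻¹ * (g * (F.a⁻¹) ^ m)) vh := by
      have h1 := ((hu.mul_a_inv_pow F m).map F (γs m)⁻¹)
      rw [map_inv] at h1
      exact h1.smul F (by simpa using (hv0 m).ne')
    have hest := hun1 _ (hγs m) vh hvhn htop m _ (hQ2 m)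
    -- main inequality
    have hmain : ∀ r < ‖B (m + 1)‖, r ≤ ‖B m‖ * ‖A vh‖ + K * (C * q ^ m * ‖B m‖) := by
      intro r hr
      obtain ⟨x, hx, hx'⟩ := (B (m + 1)).exists_lt_apply_of_lt_opNorm hr
      have h1 := hest x
      have h2 : B (m + 1) x = ⟪vh, B m x⟫_ℂ • A vh + A (B m x - ⟪vh, B m x⟫_ℂ • vh) := by
        have e : A (B m x - ⟪vh, B m x⟫_ℂ • vh) = A (B m x) - ⟪vh, B m x⟫_ℂ • A vh := by
          rw [map_sub, map_smul]
        rw [e, hAB, add_sub_cancel]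
      have h3 : ‖⟪vh, B m x⟫_ℂ‖ ≤ ‖B m‖ := by
        calc ‖⟪vh, B m x⟫_ℂ‖ ≤ ‖vh‖ * ‖B m x‖ := norm_inner_le_norm _ _
          _ ≤ 1 * (‖B m‖ * 1) := by
              rw [hvhn]
              gcongr
              exact ((B m).le_opNorm x).trans (by gcongr)
          _ = ‖B m‖ := by ring
      have h4 : ‖B m x - ⟪vh, B m x⟫_ℂ • vh‖ ≤ C * q ^ m * ‖B m‖ := by
        refine h1.trans ?_
        have : C * q ^ m * ‖ρ (γs m)⁻¹‖ * ‖x‖ ≤ C * q ^ m * ‖ρ (γs m)⁻¹‖ * 1 := by gcongr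
        simpa using this
      calc r ≤ ‖B (m + 1) x‖ := hx'.le
        _ = ‖⟪vh, B m x⟫_ℂ • A vh + A (B m x - ⟪vh, B m x⟫_ℂ • vh)‖ := by rw [← h2]
        _ ≤ ‖⟪vh, B m x⟫_ℂ • A vh‖ + ‖A (B m x - ⟪vh, B m x⟫_ℂ • vh)‖ := norm_add_le _ _
        _ ≤ ‖B m‖ * ‖A vh‖ + K * (C * q ^ m * ‖B m‖) := by
            gcongr
            · rw [norm_smul]
              gcongr
            · exact (A.le_opNorm _).trans (mul_le_mul k2 h4 (norm_nonneg _) hK0)
    have hmain' : ‖B (m + 1)‖ ≤ ‖B m‖ * ‖A vh‖ + K * (C * q ^ m * ‖B m‖) :=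
      le_of_forall_lt_imp_le_of_dense hmain
    have hvh2 : ‖v m‖ * ‖A vh‖ = ‖v (m + 1)‖ := by
      rw [hvA, hvh, map_smul, norm_smul, Complex.norm_real, norm_inv, norm_norm,
        mul_inv_cancel_left₀ (hv0 m).ne']
    have h6 : K * (C * q ^ m * ‖B m‖) ≤ K ^ 2 * (C * q ^ m) * ‖B (m + 1)‖ := by
      calc K * (C * q ^ m * ‖B m‖) ≤ K * (C * q ^ m * (K * ‖B (m + 1)‖)) := by gcongr
        _ = _ := by ring
    have h7 : (1 - K ^ 2 * (C * q ^ m)) * ‖B (m + 1)‖ ≤ ‖B m‖ * ‖A vh‖ := by nlinarith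
    calc (1 - K ^ 2 * (C * q ^ m)) * ‖v m‖ * ‖B (m + 1)‖
        = ‖v m‖ * ((1 - K ^ 2 * (C * q ^ m)) * ‖B (m + 1)‖) := by ring
      _ ≤ ‖v m‖ * (‖B m‖ * ‖A vh‖) := by
          gcongr
      _ = (‖v m‖ * ‖A vh‖) * ‖B m‖ := by ring
      _ = _ := by rw [hvh2]
  -- ratio
  set η : ℝ := (1 + q') / 2 with hη
  have hη1 : η < 1 := by rw [hη]; linarith
  have hηq : q' < η := by rw [hη]; linarith
  have hη0 : 0 < η := by linarith
  have hlim : Filter.Tendsto (fun m : ℕ => 1 - K ^ 2 * (C * q ^ m)) Filter.atTop (nhds 1) := by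
    have h1 : Filter.Tendsto (fun m : ℕ => K ^ 2 * (C * q ^ m)) Filter.atTop (nhds 0) := by
      simpa using ((tendsto_pow_atTop_nhds_zero_of_lt_one hq0.le hq1).const_mul C).const_mul
        (K ^ 2)
    simpa using h1.const_sub 1
  obtain ⟨T, hT⟩ := Filter.eventually_atTop.1 (hlim.eventually (lt_mem_nhds hη1))
  have hratio : ∀ n, η ^ n * (‖v T‖ / ‖B T‖) ≤ ‖v (T + n)‖ / ‖B (T + n)‖ := by
    intro n
    induction n with
    | zero => simp
    | succ n ih =>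
      have h1 := hL (T + n)
      have h2 := (hT (T + n) (by omega)).le
      have h3 : η * (‖v (T + n)‖ / ‖B (T + n)‖) ≤ ‖v (T + n + 1)‖ / ‖B (T + n + 1)‖ := by
        rw [le_div_iff₀ (hB0 _), mul_div_assoc', div_mul_eq_mul_div, div_le_iff₀ (hB0 _)]
        refine le_trans ?_ h1
        gcongr
      calc η ^ (n + 1) * (‖v T‖ / ‖B T‖) = η * (η ^ n * (‖v T‖ / ‖B T‖)) := by ring
        _ ≤ η * (‖v (T + n)‖ / ‖B (T + n)‖) := by gcongr
        _ ≤ _ := h3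
  have hupper : ∀ n, η ^ n * (‖v T‖ / ‖B T‖) ≤ C' * q' ^ T * q' ^ n := by
    intro n
    refine (hratio n).trans ?_
    rw [div_le_iff₀ (hB0 _)]
    refine (hU (T + n)).trans (le_of_eq ?_)
    rw [pow_add]
    ring
  have hr : 0 < ‖v T‖ / ‖B T‖ := div_pos (hv0 _) (hB0 _)
  have hlim2 : Filter.Tendsto (fun n : ℕ => C' * q' ^ T * (q' / η) ^ n) Filter.atTop
      (nhds 0) := by
    have : q' / η < 1 := (div_lt_one hη0).2 hηq
    simpa using (tendsto_pow_atTop_nhds_zero_of_lt_one (by positivity) this).const_mul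
      (C' * q' ^ T)
  obtain ⟨n, hn⟩ := (hlim2.eventually (gt_mem_nhds hr)).exists
  have h8 := hupper n
  rw [div_pow] at hn
  have hηn : 0 < η ^ n := by positivity
  have h9 : C' * q' ^ T * (q' ^ n / η ^ n) = (C' * q' ^ T * q' ^ n) / η ^ n := by ring
  rw [h9, div_lt_iff₀ hηn] at hn
  linarith

theorem FlowData.transverse [FiniteDimensional ℂ V] [Nontrivial V] [CompleteSpace V]
    {ρ : Γ →* (V →L[ℂ] V)} (hρ : F.Dom ρ) {g : G} {u θ : V}
    (hu : F.IsTop ρ g u) (hθ : F.IsTop (contra ρ) (g * F.w) θ) : ⟪θ, u⟫_ℂ ≠ 0 := by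
  obtain ⟨γ, hγ⟩ := F.cover g
  have h1 := hu.map F γ⁻¹
  have h2 := hθ.map F γ⁻¹
  rw [map_inv] at h1 h2
  rw [← mul_assoc] at h2
  have hn1 : 0 < ‖ρ γ⁻¹ u‖ := norm_pos_iff.2 h1.1
  have hn2 : 0 < ‖contra ρ γ⁻¹ θ‖ := norm_pos_iff.2 h2.1
  have h3 := F.transverse_of_mem hρ (interior_subset hγ)
    (h1.smul F (c := ((‖ρ γ⁻¹ u‖⁻¹ : ℝ) : ℂ)) (by simpa using hn1.ne'))
    (h2.smul F (c := ((‖contra ρ γ⁻¹ θ‖⁻¹ : ℝ) : ℂ)) (by simpa using hn2.ne'))
    (by rw [norm_smul, Complex.norm_real, norm_inv, norm_norm, inv_mul_cancel₀ hn1.ne'])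
    (by rw [norm_smul, Complex.norm_real, norm_inv, norm_norm, inv_mul_cancel₀ hn2.ne'])
  intro h0
  apply h3
  rw [inner_smul_left, inner_smul_right, inner_contra, h0]
  simp

end Pool.Agent.Hhelper63.Anosov
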